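import Mathlib
import Pool.Agent.OmegaPlus.Final

set_option autoImplicit false
set_option linter.unusedSectionVars false
set_option linter.unusedVariables false
set_option linter.style.haveILetI false
set_option linter.unusedSimpArgs false
set_option linter.unnecessarySeqFocus false

/-! Diagonal quadratic forms over finite fields of odd characteristic. -/

namespace Pool.Agent.H8Base

open Module Pool.Agent.OmegaEven Pool.Agent.OmegaOdd Pool.Agent.OmegaPlus

variable {F : Type*} [Field F]

/-- the diagonal form with coefficients `c` -/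
def dg {n : ℕ} (c x : Fin n → F) : F := ∑ i, c i * x i ^ 2

/-- a linear map taking the diagonal form `c` to the diagonal form `c'` -/
def Rel {n : ℕ} (c c' : Fin n → F) : Prop :=
  ∃ φ : (Fin n → F) →ₗ[F] (Fin n → F), ∀ x, dg c' (φ x) = dg c x

theorem Rel.trans {n : ℕ} {c c' c'' : Fin n → F} (h : Rel c c') (h' : Rel c' c'') :
    Rel c c'' := by
  obtain ⟨φ, hφ⟩ := h
  obtain ⟨ψ, hψ⟩ := h'
  exact ⟨ψ ∘ₗ φ, fun x => by rw [LinearMap.comp_apply, hψ, hφ]⟩

/-- one coefficient kept -/
theorem Rel.cons {n : ℕ} {c c' : Fin (n + 1) → F} (h0 : c 0 = c' 0)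
    (h : Rel (fun i => c i.succ) (fun i => c' i.succ)) : Rel c c' := by
  obtain ⟨φ, hφ⟩ := h
  refine ⟨{ toFun := fun x => Fin.cons (x 0) (φ fun i => x i.succ)
            map_add' := fun x y => ?_
            map_smul' := fun a x => ?_ }, fun x => ?_⟩
  · ext i
    refine Fin.cases ?_ (fun j => ?_) i
    · rfl
    · exact congrFun (map_add φ (fun i => x i.succ) fun i => y i.succ) j
  · ext i
    refine Fin.cases ?_ (fun j => ?_) i
    · rfl
    · exact congrFun (map_smul φ a fun i => x i.succ) j
  · change dg c' (Fin.cons (x 0) (φ fun i => x i.succ)) = _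
    rw [dg, dg, Fin.sum_univ_succ, Fin.sum_univ_succ, h0, Fin.cons_zero]
    congr 1
    have := hφ fun i => x i.succ
    rw [dg, dg] at this
    simpa only [Fin.cons_succ] using this

/-- the binary step -/
theorem Rel.two (h2 : (2 : F) ≠ 0) [Finite F] {n : ℕ} {c : Fin (n + 2) → F}
    (hc0 : c 0 ≠ 0) (hc1 : c 1 ≠ 0) {a : F} (ha : a ≠ 0) :
    Rel c (Fin.cons a (Fin.cons (c 0 * c 1 * a) fun i => c i.succ.succ)) := by
  obtain ⟨x, y, hxy⟩ := exists_two_squares h2 hc0 hc1 a
  refine ⟨{ toFun := fun v => Fin.cons ((c 0 * x * v 0 + c 1 * y * v 1) / a)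
              (Fin.cons ((x * v 1 - y * v 0) / a) fun i => v i.succ.succ)
            map_add' := fun v w => ?_
            map_smul' := fun r v => ?_ }, fun v => ?_⟩
  · ext i
    refine Fin.cases ?_ (fun j => ?_) i
    · simp only [Fin.cons_zero, Pi.add_apply]; ring
    · refine Fin.cases ?_ (fun k => ?_) j
      · simp only [Fin.cons_zero, Fin.cons_succ, Pi.add_apply]; ring
      · simp only [Fin.cons_succ, Pi.add_apply]
  · ext i
    refine Fin.cases ?_ (fun j => ?_) i
    · simp only [Fin.cons_zero, Pi.smul_apply, smul_eq_mul, RingHom.id_apply]; ring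
    · refine Fin.cases ?_ (fun k => ?_) j
      · simp only [Fin.cons_zero, Fin.cons_succ, Pi.smul_apply, smul_eq_mul, RingHom.id_apply]
        ring
      · simp only [Fin.cons_succ, Pi.smul_apply, smul_eq_mul, RingHom.id_apply]
  · change dg _ (Fin.cons ((c 0 * x * v 0 + c 1 * y * v 1) / a)
              (Fin.cons ((x * v 1 - y * v 0) / a) fun i => v i.succ.succ)) = _
    rw [dg, dg]
    simp only [Fin.sum_univ_succ, Fin.cons_zero, Fin.cons_succ, Fin.succ_zero_eq_one]
    rw [← add_assoc, ← add_assoc]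
    congr 1
    field_simp
    linear_combination (c 0 * v 0 ^ 2 + c 1 * v 1 ^ 2) * hxy

/-- diagonal forms are classified by the discriminant -/
theorem Rel.of_sq (h2 : (2 : F) ≠ 0) [Finite F] : ∀ (n : ℕ) (c c' : Fin (n + 1) → F),
    (∀ i, c i ≠ 0) → (∀ i, c' i ≠ 0) → IsSquare ((∏ i, c i) * ∏ i, c' i) → Rel c c' := by
  intro n
  induction n with
  | zero =>
    intro c c' hc hc' hsq
    obtain ⟨t, ht⟩ := hsq
    simp only [Fin.prod_univ_succ, Fin.prod_univ_zero, mul_one] at ht
    refine ⟨(t / c' 0) • LinearMap.id, fun x => ?_⟩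
    rw [dg, dg]
    have h0 := hc' 0
    simp only [LinearMap.smul_apply, LinearMap.id_apply, Fin.sum_univ_succ, Fin.sum_univ_zero,
      Pi.smul_apply, smul_eq_mul, add_zero]
    field_simp
    linear_combination -x 0 ^ 2 * ht
  | succ n ih =>
    intro c c' hc hc' hsq
    refine (Rel.two h2 (hc 0) (hc 1) (hc' 0)).trans (Rel.cons (by rw [Fin.cons_zero]) ?_)
    apply ih
    · intro i
      refine Fin.cases ?_ (fun j => ?_) i
      · simp only [Fin.cons_succ, Fin.cons_zero]
        exact mul_ne_zero (mul_ne_zero (hc 0) (hc 1)) (hc' 0)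
      · simp only [Fin.cons_succ]
        exact hc _
    · intro i
      exact hc' _
    · have e : (∏ i, c i) * ∏ i, c' i = (∏ i : Fin (n + 1),
          (Fin.cons (c' 0) (Fin.cons (c 0 * c 1 * c' 0) fun i => c i.succ.succ) :
            Fin (n + 2) → F) i.succ) * ∏ i : Fin (n + 1), c' i.succ := by
        rw [Fin.prod_univ_succ, Fin.prod_univ_succ, Fin.prod_univ_succ (fun i => c' i)]
        conv_rhs => rw [Fin.prod_univ_succ]
        have e1 : (Fin.cons (c' 0) (Fin.cons (c 0 * c 1 * c' 0) fun i => c i.succ.succ) :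
            Fin (n + 2) → F) (Fin.succ 0) = c 0 * c 1 * c' 0 := by
          rw [Fin.cons_succ, Fin.cons_zero]
        rw [e1]
        simp only [Fin.cons_succ, Fin.succ_zero_eq_one]
        ring
      rwa [e] at hsq

end Pool.Agent.H8Base
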