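import Mathlib
import Pool.Agent.H8Base.Diag

set_option autoImplicit false
set_option linter.unusedSectionVars false
set_option linter.unusedVariables false
set_option linter.style.haveILetI false
set_option linter.unusedSimpArgs false
set_option linter.unnecessarySeqFocus false

/-! Classification of quadratic spaces over finite fields of odd characteristic. -/

namespace Pool.Agent.H8Base

open Module Pool.Agent.OmegaEven Pool.Agent.OmegaOdd Pool.Agent.OmegaPlus

variable {F : Type*} [Field F]

theorem Rel.of_sq' (h2 : (2 : F) ≠ 0) [Finite F] {n : ℕ} (hn : 0 < n) (c c' : Fin n → F)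
    (hc : ∀ i, c i ≠ 0) (hc' : ∀ i, c' i ≠ 0) (hsq : IsSquare ((∏ i, c i) * ∏ i, c' i)) :
    Rel c c' := by
  obtain ⟨k, rfl⟩ : ∃ k, n = k + 1 := ⟨n - 1, by omega⟩
  exact Rel.of_sq h2 k c c' hc hc' hsq

/-- isometric maps preserve the bilinear form -/
theorem isom_B {V W : Type*} [AddCommGroup V] [Module F V] [AddCommGroup W] [Module F W]
    {S : QSp F V} {T : QSp F W} {φ : V →ₗ[F] W} (hφ : ∀ x, T.Q (φ x) = S.Q x) (x y : V) :
    T.B (φ x) (φ y) = S.B x y := by
  have h1 := T.add (φ x) (φ y)
  rw [← map_add, hφ, hφ, hφ, S.add] at h1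
  exact (add_left_cancel h1).symm

theorem isom_inj {V W : Type*} [AddCommGroup V] [Module F V] [AddCommGroup W] [Module F W]
    {S : QSp F V} {T : QSp F W} {φ : V →ₗ[F] W} (hφ : ∀ x, T.Q (φ x) = S.Q x) :
    Function.Injective φ := by
  rw [injective_iff_map_eq_zero]
  intro x hx
  apply S.nd
  intro y
  rw [← isom_B hφ, hx, map_zero, LinearMap.zero_apply]

/-- the quadratic space of a diagonal form -/
def dgS (h2 : (2 : F) ≠ 0) {n : ℕ} (c : Fin n → F) (hc : ∀ i, c i ≠ 0) : QSp F (Fin n → F) where
  Q := dg c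
  B := ∑ i, (2 * c i) • (LinearMap.proj i : (Fin n → F) →ₗ[F] F).smulRight
    (LinearMap.proj i : (Fin n → F) →ₗ[F] F)
  add x y := by
    simp only [dg, LinearMap.sum_apply, LinearMap.smul_apply, LinearMap.smulRight_apply,
      LinearMap.proj_apply, smul_eq_mul, Pi.add_apply, ← Finset.sum_add_distrib]
    apply Finset.sum_congr rfl
    intro i _
    ring
  smul a x := by
    simp only [dg, Pi.smul_apply, smul_eq_mul, Finset.mul_sum]
    apply Finset.sum_congr rfl
    intro i _
    ring
  nd := by
    intro x hx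
    ext i
    have h1 := hx (Pi.single i 1)
    simp only [LinearMap.sum_apply, LinearMap.smul_apply, LinearMap.smulRight_apply,
      LinearMap.proj_apply, smul_eq_mul] at h1
    rw [Finset.sum_eq_single i] at h1
    · rw [Pi.single_eq_same, mul_one] at h1
      exact (mul_eq_zero.1 h1).resolve_left (mul_ne_zero h2 (hc i))
    · intro j _ hj
      rw [Pi.single_eq_of_ne hj]; ring
    · intro h
      exact absurd (Finset.mem_univ i) h

/-- every quadratic space is diagonal -/
theorem exists_diag (h2 : (2 : F) ≠ 0) {V : Type*} [AddCommGroup V] [Module F V]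
    [FiniteDimensional F V] (S : QSp F V) {n : ℕ} (hn : finrank F V = n) :
    ∃ c : Fin n → F, (∀ i, c i ≠ 0) ∧ ∃ φ : V ≃ₗ[F] (Fin n → F), ∀ x, dg c (φ x) = S.Q x := by
  subst hn
  haveI : Invertible (2 : F) := invertibleOfNonzero h2
  let Q : QuadraticForm F V :=
    { toFun := S.Q
      toFun_smul := fun a x => by rw [S.smul, smul_eq_mul]; ring
      exists_companion' := ⟨S.B, fun x y => S.add x y⟩ }
  have hQ : ∀ x, Q x = S.Q x := fun x => rfl
  have hass : ∀ x y, QuadraticMap.associated (R := F) Q x y = ⅟(2 : F) * S.B x y := by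
    intro x y
    rw [QuadraticMap.associated_apply]
    simp only [hQ, S.add]
    rw [show S.Q x + S.Q y + S.B x y - S.Q x - S.Q y = S.B x y by ring]
    simp [smul_eq_mul]
  have hsep : (QuadraticMap.associated (R := F) Q).SeparatingLeft := by
    intro x hx
    apply S.nd
    intro y
    have h1 := hx y
    rw [hass] at h1
    exact (mul_eq_zero.1 h1).resolve_left (by rw [invOf_eq_inv]; exact inv_ne_zero h2)
  obtain ⟨w, ⟨e⟩⟩ := QuadraticForm.equivalent_weightedSumSquares_units_of_nondegenerate' Q hsep
  refine ⟨fun i => (w i : F), fun i => (w i).ne_zero, e.toLinearEquiv, fun x => ?_⟩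
  have h1 := e.map_app x
  rw [QuadraticMap.weightedSumSquares_apply, hQ] at h1
  rw [← h1, dg]
  apply Finset.sum_congr rfl
  intro i _
  change (w i : F) * (e x i) ^ 2 = (w i : F) • (e x i * e x i)
  rw [smul_eq_mul]; ring

/-- a totally singular subspace of half the dimension in the split diagonal form -/
theorem not_square_of_minus (h2 : (2 : F) ≠ 0) [Finite F] {U : Type*} [AddCommGroup U]
    [Module F U] [FiniteDimensional F U] (S : QSp F U) {k : ℕ} (hk : 0 < k)
    (hmin : ∀ W : Submodule F U, (∀ x ∈ W, S.Q x = 0) → finrank F W ≠ k)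
    {m : ℕ} (hm : m = k + k) {c : Fin m → F} (hc : ∀ i, c i ≠ 0) (φ : U ≃ₗ[F] (Fin m → F))
    (hφ : ∀ x, dg c (φ x) = S.Q x) : ¬ IsSquare ((-1) ^ k * ∏ i, c i) := by
  subst hm
  intro hsq
  let pm : Fin (k + k) → F := Fin.append (fun _ => 1) (fun _ => -1)
  have hpm : ∀ i, pm i ≠ 0 := by
    intro i
    refine Fin.addCases (fun j => ?_) (fun j => ?_) i
    · simp only [pm, Fin.append_left]; exact one_ne_zero
    · simp only [pm, Fin.append_right]; exact neg_ne_zero.2 one_ne_zero
  have hprod : ∏ i, pm i = (-1) ^ k := by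
    rw [Fin.prod_univ_add]
    simp only [pm, Fin.append_left, Fin.append_right, Finset.prod_const_one, one_mul,
      Finset.prod_const, Finset.card_univ, Fintype.card_fin]
  obtain ⟨ψ, hψ⟩ := Rel.of_sq' h2 (by omega) pm c hpm hc (by rw [hprod]; exact hsq)
  have hinj : Function.Injective ψ := isom_inj (S := dgS h2 pm hpm) (T := dgS h2 c hc) hψ
  let δ : (Fin k → F) →ₗ[F] (Fin (k + k) → F) :=
    { toFun := fun x => Fin.append x x
      map_add' := fun x y => by
        ext i
        refine Fin.addCases (fun j => ?_) (fun j => ?_) i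
        · simp only [Fin.append_left, Pi.add_apply]
        · simp only [Fin.append_right, Pi.add_apply]
      map_smul' := fun a x => by
        ext i
        refine Fin.addCases (fun j => ?_) (fun j => ?_) i
        · simp only [Fin.append_left, Pi.smul_apply, RingHom.id_apply]
        · simp only [Fin.append_right, Pi.smul_apply, RingHom.id_apply] }
  have hδ : ∀ x, δ x = Fin.append x x := fun x => rfl
  have hδi : Function.Injective δ := by
    intro x y hxy
    ext j
    have := congrFun hxy (Fin.castAdd k j)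
    rwa [hδ, hδ, Fin.append_left, Fin.append_left] at this
  have hδq : ∀ x, dg pm (δ x) = 0 := by
    intro x
    rw [dg, Fin.sum_univ_add, hδ]
    simp only [pm, Fin.append_left, Fin.append_right]
    rw [← Finset.sum_add_distrib]
    apply Finset.sum_eq_zero
    intro i _
    ring
  let θ : (Fin k → F) →ₗ[F] U := (φ.symm : (Fin (k + k) → F) →ₗ[F] U) ∘ₗ ψ ∘ₗ δ
  have hθi : Function.Injective θ := φ.symm.injective.comp (hinj.comp hδi)
  apply hmin (LinearMap.range θ)
  · rintro _ ⟨x, rfl⟩
    change S.Q (φ.symm (ψ (δ x))) = 0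
    rw [← hφ, LinearEquiv.apply_symm_apply, hψ, hδq]
  · rw [LinearMap.finrank_range_of_inj hθi, Module.finrank_fin_fun]

end Pool.Agent.H8Base
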