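import Mathlib
import Pool.Agent.H8Base.Struct

set_option autoImplicit false
set_option linter.unusedSectionVars false
set_option linter.unusedVariables false
set_option linter.style.haveILetI false
set_option linter.unusedSimpArgs false
set_option linter.unnecessarySeqFocus false

/-! The model of the decomposition. -/

namespace Pool.Agent.H8Base

open Module Pool.Agent.OmegaEven Pool.Agent.OmegaOdd Pool.Agent.OmegaPlus

section trace
variable {F K : Type*} [Field F] [Field K] [Finite K] [Algebra F K]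

/-- the trace form -/
noncomputable def trS (h2 : (2 : F) ≠ 0) : QSp F K where
  Q x := Algebra.trace F K (x * x)
  B := (2 : F) • Algebra.traceForm F K
  add x y := by
    rw [LinearMap.smul_apply, LinearMap.smul_apply, Algebra.traceForm_apply, smul_eq_mul,
      show (x + y) * (x + y) = x * x + y * y + (x * y + x * y) by ring, map_add, map_add, map_add]
    ring
  smul c x := by
    rw [smul_mul_smul_comm, map_smul, smul_eq_mul]; ring
  nd := by
    intro x hx
    rw [← sub_zero x, sub_eq_zero]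
    apply tr_cancel (F := F)
    intro c
    have h1 := hx c
    rw [LinearMap.smul_apply, LinearMap.smul_apply, Algebra.traceForm_apply, smul_eq_mul,
      mul_comm x c] at h1
    rw [(mul_eq_zero.1 h1).resolve_left h2, mul_zero, map_zero]

/-- the model of the quadratic space -/
noncomputable def mdl (h2 : (2 : F) ≠ 0) (ν a : F) (hν : ν ≠ 0) (ha : a ≠ 0) :
    QSp F (F × F × K × K) where
  Q v := v.1 ^ 2 + ν * v.2.1 ^ 2 + a * (Algebra.trace F K (v.2.2.1 * v.2.2.1) +
    ν * Algebra.trace F K (v.2.2.2 * v.2.2.2))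
  B := LinearMap.mk₂ F (fun v w => 2 * (v.1 * w.1 + ν * (v.2.1 * w.2.1) +
      a * (Algebra.trace F K (v.2.2.1 * w.2.2.1) + ν * Algebra.trace F K (v.2.2.2 * w.2.2.2))))
    (fun x y z => by simp only [Prod.fst_add, Prod.snd_add, add_mul, map_add]; ring)
    (fun c x y => by
      simp only [Prod.smul_fst, Prod.smul_snd, smul_mul_assoc, map_smul, smul_eq_mul]; ring)
    (fun x y z => by simp only [Prod.fst_add, Prod.snd_add, mul_add, map_add]; ring)
    (fun c x y => by
      simp only [Prod.smul_fst, Prod.smul_snd, mul_smul_comm, map_smul, smul_eq_mul]; ring)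
  add x y := by
    rw [LinearMap.mk₂_apply]
    simp only [Prod.fst_add, Prod.snd_add, add_mul, mul_add, map_add,
      mul_comm y.2.2.1 x.2.2.1, mul_comm y.2.2.2 x.2.2.2]
    ring
  smul c x := by
    simp only [Prod.smul_fst, Prod.smul_snd, mul_smul_comm, smul_mul_assoc, map_smul, smul_eq_mul]
    ring
  nd := by
    intro x hx
    simp only [LinearMap.mk₂_apply] at hx
    have h1 := hx (1, 0, 0, 0)
    have h3 := hx (0, 1, 0, 0)
    have h4 : ∀ c : K, Algebra.trace F K (c * x.2.2.1) = Algebra.trace F K (c * 0) := by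
      intro c
      have := hx (0, 0, c, 0)
      simp only [mul_zero, add_zero, zero_add, map_zero] at this
      rw [mul_comm c, mul_zero, map_zero]
      exact (mul_eq_zero.1 ((mul_eq_zero.1 this).resolve_left h2)).resolve_left ha
    have h5 : ∀ c : K, Algebra.trace F K (c * x.2.2.2) = Algebra.trace F K (c * 0) := by
      intro c
      have := hx (0, 0, 0, c)
      simp only [mul_zero, add_zero, zero_add, map_zero] at this
      rw [mul_comm c, mul_zero, map_zero]
      exact (mul_eq_zero.1 ((mul_eq_zero.1 ((mul_eq_zero.1 this).resolve_left h2)).resolve_left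
        ha)).resolve_left hν
    simp only [mul_zero, add_zero, zero_add, map_zero, mul_one] at h1 h3
    refine Prod.ext ((mul_eq_zero.1 h1).resolve_left h2) (Prod.ext ?_ (Prod.ext
      (tr_cancel (F := F) h4) (tr_cancel (F := F) h5)))
    exact (mul_eq_zero.1 ((mul_eq_zero.1 h3).resolve_left h2)).resolve_left hν

theorem mdl_Q (h2 : (2 : F) ≠ 0) (ν a : F) (hν : ν ≠ 0) (ha : a ≠ 0) (v : F × F × K × K) :
    (mdl h2 ν a hν ha).Q v = v.1 ^ 2 + ν * v.2.1 ^ 2 + a *
      (Algebra.trace F K (v.2.2.1 * v.2.2.1) + ν * Algebra.trace F K (v.2.2.2 * v.2.2.2)) := rfl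

theorem mdl_B (h2 : (2 : F) ≠ 0) (ν a : F) (hν : ν ≠ 0) (ha : a ≠ 0) (v w : F × F × K × K) :
    (mdl h2 ν a hν ha).B v w = 2 * (v.1 * w.1 + ν * (v.2.1 * w.2.1) +
      a * (Algebra.trace F K (v.2.2.1 * w.2.2.1) +
        ν * Algebra.trace F K (v.2.2.2 * w.2.2.2))) := rfl

end trace

section existence
variable {F : Type*} [Field F] [Finite F]

theorem sq_of_two {a b c : F} (ha : ¬ IsSquare (c * a)) (hb : ¬ IsSquare (c * b)) (hc : c ≠ 0) :
    IsSquare (a * b) := by
  obtain ⟨r, hr⟩ := isSquare_mul_of_not ha hb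
  refine ⟨r / c, ?_⟩
  field_simp
  linear_combination hr

/-- extensions of a given degree -/
theorem exists_ext (F : Type*) [Field F] [Finite F] (n : ℕ) (hn : 0 < n) :
    ∃ (K : Type) (_ : Field K) (_ : Finite K) (_ : Algebra F K), finrank F K = n := by
  obtain ⟨p, hp⟩ := CharP.exists F
  haveI : Fact p.Prime := ⟨CharP.char_is_prime F p⟩
  haveI : NeZero n := ⟨hn.ne'⟩
  exact ⟨FiniteField.Extension F p n, inferInstance, inferInstance, inferInstance,
    FiniteField.finrank_extension F p n⟩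

/-- the model exists -/
theorem exists_model' (h2 : (2 : F) ≠ 0) {V : Type*} [AddCommGroup V] [Module F V]
    [FiniteDimensional F V] (S : QSp F V) {n k : ℕ} (hn : 0 < n) (hk : n + 1 = k + k)
    (hV : finrank F V = 2 * (n + 1)) (U U' : Submodule F V) (hU : U ⊓ perp S U = ⊥)
    (hU' : U' ⊓ perp S U' = ⊥) (orth : ∀ x ∈ U, ∀ y ∈ U', S.B x y = 0)
    (dU : finrank F U = n + 1) (dU' : finrank F U' = n + 1)
    (mU : ∀ W ≤ U, (∀ x ∈ W, S.Q x = 0) → finrank F W ≠ k)
    (mU' : ∀ W ≤ U', (∀ x ∈ W, S.Q x = 0) → finrank F W ≠ k)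
    {K : Type*} [Field K] [Finite K] [Algebra F K] (hK : finrank F K = n)
    {ν : F} (hν : ¬ IsSquare ν) (hν0 : ν ≠ 0) :
    ∃ (a : F) (ha : a ≠ 0) (Φ : (F × F × K × K) ≃ₗ[F] V),
      (∀ v, S.Q (Φ v) = (mdl h2 ν a hν0 ha).Q v) ∧ (∀ x z, Φ (x, 0, z, 0) ∈ U) ∧
      (∀ y w, Φ (0, y, 0, w) ∈ U') := by
  haveI : FiniteDimensional F K := Module.finite_of_finrank_pos (by omega)
  have hsub : ∀ W : Submodule F V, ∀ hW : W ⊓ perp S W = ⊥,
      (∀ Z ≤ W, (∀ x ∈ Z, S.Q x = 0) → finrank F Z ≠ k) →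
      ∀ Z : Submodule F W, (∀ x ∈ Z, (sub S W hW).Q x = 0) → finrank F Z ≠ k := by
    intro W hW h Z hZ
    rw [← Submodule.finrank_map_subtype_eq]
    apply h _ (Submodule.map_subtype_le W Z)
    rintro _ ⟨z, hz, rfl⟩
    exact hZ z hz
  obtain ⟨c, hc, φ, hφ⟩ := exists_diag h2 (sub S U hU) dU
  obtain ⟨c', hc', φ', hφ'⟩ := exists_diag h2 (sub S U' hU') dU'
  obtain ⟨d, hd, χ, hχ⟩ := exists_diag h2 (trS h2 : QSp F K) hK
  have n1 := not_square_of_minus h2 (sub S U hU) (by omega) (hsub U hU mU) hk hc φ hφ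
  have n2 := not_square_of_minus h2 (sub S U' hU') (by omega) (hsub U' hU' mU') hk hc' φ' hφ'
  have hm1 : ((-1 : F)) ^ k ≠ 0 := pow_ne_zero _ (neg_ne_zero.2 one_ne_zero)
  -- the choice of `a`
  obtain ⟨a, ha, hna⟩ : ∃ a : F, a ≠ 0 ∧ ¬ IsSquare ((-1) ^ k * (a ^ n * ∏ i, d i)) := by
    by_cases h : IsSquare ((-1 : F) ^ k * ∏ i, d i)
    · refine ⟨ν, hν0, fun hsq => hν ?_⟩
      obtain ⟨r, hr⟩ := h
      obtain ⟨s, hs⟩ := hsq
      have hr0 : r ≠ 0 := by
        rintro rfl
        rw [mul_zero] at hr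
        rcases mul_eq_zero.1 hr with h3 | h3
        · exact hm1 h3
        · exact (Finset.prod_ne_zero_iff.2 fun i _ => hd i) h3
      obtain ⟨j, rfl⟩ : ∃ j, n = 2 * j + 1 := ⟨k - 1, by omega⟩
      refine ⟨s / (r * ν ^ j), ?_⟩
      have hνj : ν ^ j ≠ 0 := pow_ne_zero _ hν0
      field_simp
      linear_combination hs - ν ^ (2 * j + 1) * hr
    · exact ⟨1, one_ne_zero, by rwa [one_pow, one_mul]⟩
  -- the coefficients of the model
  let e : Fin (n + 1) → F := Fin.cons 1 fun i => a * d i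
  have he : ∀ i, e i ≠ 0 := by
    intro i
    refine Fin.cases ?_ (fun j => ?_) i
    · exact one_ne_zero
    · exact mul_ne_zero ha (hd j)
  have hep : ∏ i, e i = a ^ n * ∏ i, d i := by
    rw [Fin.prod_univ_succ]
    change 1 * ∏ i : Fin n, a * d i = _
    rw [one_mul, Finset.prod_mul_distrib, Finset.prod_const, Finset.card_univ, Fintype.card_fin]
  have hne : ¬ IsSquare ((-1) ^ k * ∏ i, e i) := by rw [hep]; exact hna
  have hνe : ∏ i, ν * e i = ν ^ k * ν ^ k * ∏ i, e i := by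
    have e4 : ν ^ (n + 1) = ν ^ k * ν ^ k := by rw [hk, pow_add]
    rw [Finset.prod_mul_distrib, Finset.prod_const, Finset.card_univ, Fintype.card_fin, e4]
  obtain ⟨R, hR⟩ := Rel.of_sq h2 n e c he hc (sq_of_two hne n1 hm1)
  obtain ⟨R', hR'⟩ := Rel.of_sq h2 n (fun i => ν * e i) c' (fun i => mul_ne_zero hν0 (he i)) hc'
    (by
      rw [hνe]
      obtain ⟨r, hr⟩ := sq_of_two hne n2 hm1
      exact ⟨ν ^ k * r, by linear_combination (ν ^ k * ν ^ k) * hr⟩)
  -- the two embeddings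
  let κ : (F × K) →ₗ[F] (Fin (n + 1) → F) :=
    { toFun := fun w => Fin.cons w.1 (χ w.2)
      map_add' := fun v w => by
        ext i
        refine Fin.cases ?_ (fun j => ?_) i
        · rfl
        · exact congrFun (map_add χ v.2 w.2) j
      map_smul' := fun r v => by
        ext i
        refine Fin.cases ?_ (fun j => ?_) i
        · rfl
        · exact congrFun (map_smul χ r v.2) j }
  have hκ : ∀ w : F × K, dg e (κ w) = w.1 ^ 2 + a * Algebra.trace F K (w.2 * w.2) := by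
    intro w
    rw [dg, Fin.sum_univ_succ]
    change 1 * w.1 ^ 2 + ∑ i : Fin n, a * d i * χ w.2 i ^ 2 = _
    have h3 : ∑ i : Fin n, d i * χ w.2 i ^ 2 = Algebra.trace F K (w.2 * w.2) := hχ w.2
    rw [← h3, Finset.mul_sum, one_mul]
    congr 1
    apply Finset.sum_congr rfl
    intro i _
    ring
  have hκ' : ∀ w : F × K, dg (fun i => ν * e i) (κ w) =
      ν * (w.1 ^ 2 + a * Algebra.trace F K (w.2 * w.2)) := by
    intro w
    rw [← hκ, dg, dg, Finset.mul_sum]
    apply Finset.sum_congr rfl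
    intro i _
    ring
  let ψ : (F × K) →ₗ[F] V := U.subtype ∘ₗ (φ.symm : (Fin (n + 1) → F) →ₗ[F] U) ∘ₗ R ∘ₗ κ
  let ψ' : (F × K) →ₗ[F] V := U'.subtype ∘ₗ (φ'.symm : (Fin (n + 1) → F) →ₗ[F] U') ∘ₗ R' ∘ₗ κ
  have hψU : ∀ w, ψ w ∈ U := fun w => (φ.symm (R (κ w))).2
  have hψU' : ∀ w, ψ' w ∈ U' := fun w => (φ'.symm (R' (κ w))).2
  have hψ : ∀ w, S.Q (ψ w) = w.1 ^ 2 + a * Algebra.trace F K (w.2 * w.2) := by
    intro w
    have h3 := hφ (φ.symm (R (κ w)))
    rw [LinearEquiv.apply_symm_apply, hR, hκ] at h3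
    exact h3.symm
  have hψ' : ∀ w, S.Q (ψ' w) = ν * (w.1 ^ 2 + a * Algebra.trace F K (w.2 * w.2)) := by
    intro w
    have h3 := hφ' (φ'.symm (R' (κ w)))
    rw [LinearEquiv.apply_symm_apply, hR', hκ'] at h3
    exact h3.symm
  let Φ₀ : (F × F × K × K) →ₗ[F] V :=
    { toFun := fun v => ψ (v.1, v.2.2.1) + ψ' (v.2.1, v.2.2.2)
      map_add' := fun v w => by
        have e1 : ((v + w).1, (v + w).2.2.1) = (v.1, v.2.2.1) + (w.1, w.2.2.1) := rfl
        have e2 : ((v + w).2.1, (v + w).2.2.2) = (v.2.1, v.2.2.2) + (w.2.1, w.2.2.2) := rfl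
        rw [e1, e2, map_add, map_add]; abel
      map_smul' := fun r v => by
        have e1 : ((r • v).1, (r • v).2.2.1) = r • (v.1, v.2.2.1) := rfl
        have e2 : ((r • v).2.1, (r • v).2.2.2) = r • (v.2.1, v.2.2.2) := rfl
        rw [e1, e2, map_smul, map_smul, RingHom.id_apply, smul_add] }
  have hΦ₀ : ∀ v, Φ₀ v = ψ (v.1, v.2.2.1) + ψ' (v.2.1, v.2.2.2) := fun v => rfl
  have hQ : ∀ v, S.Q (Φ₀ v) = (mdl h2 ν a hν0 ha).Q v := by
    intro v
    rw [hΦ₀, S.add, hψ, hψ', orth _ (hψU _) _ (hψU' _), mdl_Q]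
    ring
  have hinj : Function.Injective Φ₀ := isom_inj hQ
  have hfr : finrank F (F × F × K × K) = finrank F V := by
    rw [Module.finrank_prod, Module.finrank_prod, Module.finrank_prod, Module.finrank_self, hK, hV]
    ring
  refine ⟨a, ha, LinearEquiv.ofBijective Φ₀ ⟨hinj,
    (LinearMap.injective_iff_surjective_of_finrank_eq_finrank hfr).1 hinj⟩, hQ, ?_, ?_⟩
  · intro x z
    change Φ₀ (x, 0, z, 0) ∈ U
    rw [hΦ₀]
    change ψ (x, z) + ψ' (0 : F × K) ∈ U
    rw [map_zero, add_zero]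
    exact hψU _
  · intro y w
    change Φ₀ (0, y, 0, w) ∈ U'
    rw [hΦ₀]
    change ψ (0 : F × K) + ψ' (y, w) ∈ U'
    rw [map_zero, zero_add]
    exact hψU' _

end existence

end Pool.Agent.H8Base
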