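import Mathlib
import Pool.Agent.H8Base.Model

set_option autoImplicit false
set_option linter.unusedSectionVars false
set_option linter.unusedVariables false
set_option linter.style.haveILetI false
set_option linter.unusedSimpArgs false
set_option linter.unnecessarySeqFocus false

/-! Rotations over extensions of odd degree. -/

namespace Pool.Agent.H8Base

open Module Pool.Agent.OmegaEven Pool.Agent.OmegaOdd Pool.Agent.OmegaPlus

section field
variable {F K : Type*} [Field F] [Field K] [Finite K] [Algebra F K]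

/-- in odd degree an automorphism fixing a square fixes the element -/
theorem fix_of_sq (h2 : (2 : K) ≠ 0) (hodd : Odd (finrank F K)) (θ : K ≃ₐ[F] K) {x : K}
    (h : θ (x ^ 2) = x ^ 2) : θ x = x := by
  haveI : Finite F := Finite.of_injective _ (algebraMap F K).injective
  rw [map_pow] at h
  rcases sq_eq_sq_iff_eq_or_eq_neg.1 h with h1 | h1
  · exact h1
  · have h3 : ∀ j : ℕ, (θ ^ j) x = (-1) ^ j * x := by
      intro j
      induction j with
      | zero => simp
      | succ j ih =>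
        rw [pow_succ', AlgEquiv.mul_apply, ih, map_mul, h1, map_pow, map_neg, map_one, pow_succ]
        ring
    have h4 := h3 (Nat.card (K ≃ₐ[F] K))
    rw [pow_card_eq_one', IsGalois.card_aut_eq_finrank, hodd.neg_one_pow] at h4
    have h5 : x = -1 * x := h4
    have h6 : 2 * x = 0 := by linear_combination h5
    rw [(mul_eq_zero.1 h6).resolve_left h2, map_zero]

/-- a rotation whose fourfold angle generates the field -/
theorem exists_rot (h2 : (2 : F) ≠ 0) (hodd : Odd (finrank F K)) (h1 : 1 < finrank F K)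
    {ν : F} (hν : ν ≠ 0) : ∃ c₀ s₀ c s c' s' : K, c₀ ^ 2 + algebraMap F K ν * s₀ ^ 2 = 1 ∧
      c = c₀ ^ 2 - algebraMap F K ν * s₀ ^ 2 ∧ s = 2 * c₀ * s₀ ∧
      c' = c ^ 2 - algebraMap F K ν * s ^ 2 ∧ s' = 2 * c * s ∧
      c ^ 2 + algebraMap F K ν * s ^ 2 = 1 ∧ c' ^ 2 + algebraMap F K ν * s' ^ 2 = 1 ∧
      c' ≠ 1 ∧ c' ≠ -1 ∧ s' ≠ 0 ∧ ∀ θ : K ≃ₐ[F] K, θ c' = c' → θ = 1 := by
  haveI : Finite F := Finite.of_injective _ (algebraMap F K).injective
  have h2K : (2 : K) ≠ 0 := by
    intro h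
    apply h2
    apply (algebraMap F K).injective
    rw [map_zero, map_ofNat, h]
  obtain ⟨n, hn⟩ : ∃ n, n = algebraMap F K ν := ⟨_, rfl⟩
  have hn0 : n ≠ 0 := by
    rw [hn]
    exact (map_ne_zero _).2 hν
  have hθn : ∀ θ : K ≃ₐ[F] K, θ n = n := by
    intro θ
    rw [hn, AlgEquiv.commutes]
  rw [← hn]
  -- a nontrivial automorphism
  obtain ⟨θ₁, hθ₁⟩ : ∃ θ : K ≃ₐ[F] K, θ ≠ 1 := by
    by_contra hcon
    push Not at hcon
    have h3 := IsGalois.card_aut_eq_finrank F K
    haveI : Subsingleton (K ≃ₐ[F] K) := ⟨fun a b => by rw [hcon a, hcon b]⟩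
    have h4 : Nat.card (K ≃ₐ[F] K) = 1 := Nat.card_unique
    omega
  -- a generator
  obtain ⟨w, hw⟩ : ∃ w : K, ∀ θ : K ≃ₐ[F] K, θ w = w → θ = 1 := by
    obtain ⟨g, hg⟩ := IsCyclic.exists_generator (α := Kˣ)
    refine ⟨(g : K), fun θ hθ => ?_⟩
    ext x
    by_cases hx : x = 0
    · rw [hx, map_zero, map_zero]
    · obtain ⟨j, hj⟩ := Subgroup.mem_zpowers_iff.1 (hg (Units.mk0 x hx))
      have h3 : x = (g : K) ^ j := by
        have := congrArg Units.val hj
        rw [Units.val_zpow_eq_zpow_val] at this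
        exact this.symm
      rw [h3, map_zpow₀, hθ]; rfl
  have hD : 1 + n * w ^ 2 ≠ 0 := by
    intro h
    apply hθ₁
    apply hw
    apply fix_of_sq h2K hodd
    have h3 : w ^ 2 = -n⁻¹ := by
      field_simp
      linear_combination h
    rw [h3, map_neg, map_inv₀, hθn]
  obtain ⟨c₀, hc₀⟩ : ∃ c₀, c₀ = (1 - n * w ^ 2) / (1 + n * w ^ 2) := ⟨_, rfl⟩
  obtain ⟨s₀, hs₀⟩ : ∃ s₀, s₀ = 2 * w / (1 + n * w ^ 2) := ⟨_, rfl⟩
  have e0 : c₀ ^ 2 + n * s₀ ^ 2 = 1 := by
    rw [hc₀, hs₀]
    field_simp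
    ring
  obtain ⟨c, hc⟩ : ∃ c, c = c₀ ^ 2 - n * s₀ ^ 2 := ⟨_, rfl⟩
  obtain ⟨s, hs⟩ : ∃ s, s = 2 * c₀ * s₀ := ⟨_, rfl⟩
  obtain ⟨c', hc'⟩ : ∃ c', c' = c ^ 2 - n * s ^ 2 := ⟨_, rfl⟩
  obtain ⟨s', hs'⟩ : ∃ s', s' = 2 * c * s := ⟨_, rfl⟩
  have e1 : c ^ 2 + n * s ^ 2 = 1 := by
    rw [hc, hs]
    linear_combination (c₀ ^ 2 + n * s₀ ^ 2 + 1) * e0
  have e2 : c' ^ 2 + n * s' ^ 2 = 1 := by
    rw [hc', hs']
    linear_combination (c ^ 2 + n * s ^ 2 + 1) * e1
  have hfix : ∀ θ : K ≃ₐ[F] K, θ c' = c' → θ = 1 := by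
    intro θ hθ
    have hθ2 : θ 2 = 2 := map_ofNat θ 2
    have f1 : θ (c ^ 2) = c ^ 2 := by
      have h3 : c ^ 2 = (c' + 1) / 2 := by
        field_simp
        linear_combination e1 - hc'
      rw [h3, map_div₀, map_add, map_one, hθ, hθ2]
    have f2 := fix_of_sq h2K hodd θ f1
    have f3 : θ (c₀ ^ 2) = c₀ ^ 2 := by
      have h3 : c₀ ^ 2 = (c + 1) / 2 := by
        field_simp
        linear_combination e0 - hc
      rw [h3, map_div₀, map_add, map_one, f2, hθ2]
    have f4 := fix_of_sq h2K hodd θ f3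
    have hc1 : 1 + c₀ ≠ 0 := by
      intro h
      rw [hc₀] at h
      field_simp at h
      apply h2K
      linear_combination h
    have f5 : θ (w ^ 2) = w ^ 2 := by
      have h3 : w ^ 2 = (1 - c₀) / ((1 + c₀) * n) := by
        have h4 : c₀ * (1 + n * w ^ 2) = 1 - n * w ^ 2 := by
          rw [hc₀]
          field_simp
        field_simp
        linear_combination h4
      rw [h3, map_div₀, map_sub, map_mul, map_add, map_one, f4, hθn]
    exact hw θ (fix_of_sq h2K hodd θ f5)
  have hc1 : c' ≠ 1 := by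
    intro h
    apply hθ₁
    apply hfix
    rw [h, map_one]
  have hc2 : c' ≠ -1 := by
    intro h
    apply hθ₁
    apply hfix
    rw [h, map_neg, map_one]
  refine ⟨c₀, s₀, c, s, c', s', e0, hc, hs, hc', hs', e1, e2, hc1, hc2, ?_, hfix⟩
  intro h
  rw [h] at e2
  have h3 : (c' - 1) * (c' + 1) = 0 := by linear_combination e2
  rcases mul_eq_zero.1 h3 with h4 | h4
  · exact hc1 (by linear_combination h4)
  · exact hc2 (by linear_combination h4)

/-- a map commuting with a primitive element is linear -/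
theorem klin {c : K} (hc : ∀ θ : K ≃ₐ[F] K, θ c = c → θ = 1)
    (h : (K × K) →ₗ[F] (K × K)) (hcomm : ∀ x, h (c • x) = c • h x) (a : K) (x : K × K) :
    h (a • x) = a • h x := by
  haveI : Finite F := Finite.of_injective _ (algebraMap F K).injective
  let S : Subalgebra F K :=
    { carrier := {a | ∀ x, h (a • x) = a • h x}
      mul_mem' := by
        intro a b ha hb x
        rw [mul_smul, ha, hb, mul_smul]
      add_mem' := by
        intro a b ha hb x
        rw [add_smul, map_add, ha, hb, add_smul]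
      algebraMap_mem' := fun r x => by
        rw [algebraMap_smul, algebraMap_smul, map_smul] }
  have hS : ∀ a, a ∈ S ↔ ∀ x, h (a • x) = a • h x := fun a => Iff.rfl
  let L : IntermediateField F K := S.toIntermediateField (fun c hcS => by
    by_cases h0 : c = 0
    · rw [h0, inv_zero]; exact S.zero_mem
    · have hfin : IsOfFinOrder (Units.mk0 c h0) := isOfFinOrder_of_finite _
      obtain ⟨n, hn, h2⟩ := isOfFinOrder_iff_pow_eq_one.1 hfin
      have h3 : c ^ n = 1 := by
        have := congrArg Units.val h2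
        simpa using this
      have h4 : c⁻¹ = c ^ (n - 1) := by
        rw [inv_eq_of_mul_eq_one_left]
        rw [← pow_succ, Nat.sub_add_cancel hn, h3]
      rw [h4]
      exact S.pow_mem hcS _)
  have hLS : ∀ a, a ∈ L ↔ a ∈ S := fun a => Iff.rfl
  have hbot : L.fixingSubgroup = ⊥ := by
    rw [eq_bot_iff]
    intro θ hθ
    rw [Subgroup.mem_bot]
    apply hc
    exact (IntermediateField.mem_fixingSubgroup_iff L θ).1 hθ c ((hLS c).2 hcomm)
  have htop : L = ⊤ := by
    rw [← IsGalois.fixedField_fixingSubgroup L, hbot, IntermediateField.fixedField_bot]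
  have h3 : a ∈ L := by rw [htop]; exact IntermediateField.mem_top
  exact (hS a).1 ((hLS a).1 h3) x

end field

end Pool.Agent.H8Base
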