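import Mathlib
import Pool.Agent.H8Base.Rot

set_option autoImplicit false
set_option linter.unusedSectionVars false
set_option linter.unusedVariables false
set_option linter.style.haveILetI false
set_option linter.unusedSimpArgs false
set_option linter.unnecessarySeqFocus false

/-! The joint stabiliser of two decompositions in the model. -/

namespace Pool.Agent.H8Base

open Module Pool.Agent.OmegaEven Pool.Agent.OmegaOdd Pool.Agent.OmegaPlus
open scoped commutatorElement

section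
variable {F K : Type*} [Field F] [Field K] [Finite K] [Algebra F K]

/-- the involution -/
def jj : (F × F × K × K) ≃ₗ[F] (F × F × K × K) :=
  LinearEquiv.ofInvolutive
    { toFun := fun v => (v.1, -v.2.1, v.2.2.1, -v.2.2.2)
      map_add' := fun v w => by
        ext <;> simp <;> ring
      map_smul' := fun r v => by
        ext <;> simp } (by
    intro v
    ext <;> simp)

theorem jj_apply (v : F × F × K × K) : jj v = (v.1, -v.2.1, v.2.2.1, -v.2.2.2) := rfl

/-- the rotation as a linear map -/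
def roL (ν : F) (c s : K) : (F × F × K × K) →ₗ[F] (F × F × K × K) where
  toFun v := (v.1, v.2.1, c * v.2.2.1 - algebraMap F K ν * s * v.2.2.2,
    s * v.2.2.1 + c * v.2.2.2)
  map_add' v w := by
    ext
    · rfl
    · rfl
    · simp only [Prod.fst_add, Prod.snd_add]; ring
    · simp only [Prod.fst_add, Prod.snd_add]; ring
  map_smul' r v := by
    ext
    · rfl
    · rfl
    · change c * (r • v.2.2.1) - algebraMap F K ν * s * (r • v.2.2.2) =
        r • (c * v.2.2.1 - algebraMap F K ν * s * v.2.2.2)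
      rw [mul_smul_comm, mul_smul_comm, smul_sub]
    · change s * (r • v.2.2.1) + c * (r • v.2.2.2) = r • (s * v.2.2.1 + c * v.2.2.2)
      rw [mul_smul_comm, mul_smul_comm, smul_add]

/-- the rotation -/
def ro (ν : F) (c s : K) (h : c ^ 2 + algebraMap F K ν * s ^ 2 = 1) :
    (F × F × K × K) ≃ₗ[F] (F × F × K × K) :=
  { roL ν c s with
    invFun := roL ν c (-s)
    left_inv := fun v => by
      refine Prod.ext rfl (Prod.ext rfl (Prod.ext ?_ ?_))
      · change c * (c * v.2.2.1 - algebraMap F K ν * s * v.2.2.2) -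
          algebraMap F K ν * (-s) * (s * v.2.2.1 + c * v.2.2.2) = v.2.2.1
        linear_combination v.2.2.1 * h
      · change (-s) * (c * v.2.2.1 - algebraMap F K ν * s * v.2.2.2) +
          c * (s * v.2.2.1 + c * v.2.2.2) = v.2.2.2
        linear_combination v.2.2.2 * h
    right_inv := fun v => by
      refine Prod.ext rfl (Prod.ext rfl (Prod.ext ?_ ?_))
      · change c * (c * v.2.2.1 - algebraMap F K ν * (-s) * v.2.2.2) -
          algebraMap F K ν * s * ((-s) * v.2.2.1 + c * v.2.2.2) = v.2.2.1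
        linear_combination v.2.2.1 * h
      · change s * (c * v.2.2.1 - algebraMap F K ν * (-s) * v.2.2.2) +
          c * ((-s) * v.2.2.1 + c * v.2.2.2) = v.2.2.2
        linear_combination v.2.2.2 * h }

theorem ro_apply (ν : F) (c s : K) (h : c ^ 2 + algebraMap F K ν * s ^ 2 = 1)
    (v : F × F × K × K) : ro ν c s h v =
      (v.1, v.2.1, c * v.2.2.1 - algebraMap F K ν * s * v.2.2.2, s * v.2.2.1 + c * v.2.2.2) := rfl

theorem ro_inv_apply (ν : F) (c s : K) (h : c ^ 2 + algebraMap F K ν * s ^ 2 = 1)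
    (v : F × F × K × K) : (ro ν c s h)⁻¹ v =
      (v.1, v.2.1, c * v.2.2.1 - algebraMap F K ν * (-s) * v.2.2.2,
        (-s) * v.2.2.1 + c * v.2.2.2) := rfl

variable (h2 : (2 : F) ≠ 0) {ν a : F} (hν0 : ν ≠ 0) (ha : a ≠ 0)

theorem jj_mem : (jj : (F × F × K × K) ≃ₗ[F] (F × F × K × K)) ∈
    (mdl (K := K) h2 ν a hν0 ha).O := by
  intro v
  rw [jj_apply, mdl_Q, mdl_Q]
  simp only [neg_mul_neg]
  ring

theorem ro_mem {c s : K} (h : c ^ 2 + algebraMap F K ν * s ^ 2 = 1) :
    ro ν c s h ∈ (mdl (K := K) h2 ν a hν0 ha).O := by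
  intro v
  rw [ro_apply, mdl_Q, mdl_Q]
  have e : ∀ x : K, ν * Algebra.trace F K x = Algebra.trace F K (algebraMap F K ν * x) := by
    intro x
    rw [← Algebra.smul_def, map_smul, smul_eq_mul]
  simp only [e, ← map_add]
  have e2 : (c * v.2.2.1 - algebraMap F K ν * s * v.2.2.2) *
      (c * v.2.2.1 - algebraMap F K ν * s * v.2.2.2) + algebraMap F K ν *
      ((s * v.2.2.1 + c * v.2.2.2) * (s * v.2.2.1 + c * v.2.2.2)) =
      v.2.2.1 * v.2.2.1 + algebraMap F K ν * (v.2.2.2 * v.2.2.2) := by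
    linear_combination (v.2.2.1 * v.2.2.1 + algebraMap F K ν * (v.2.2.2 * v.2.2.2)) * h
  rw [e2]

/-- two decompositions whose joint stabiliser consists of sign changes -/
theorem model_main (hν : ¬ IsSquare ν) (hodd : Odd (finrank F K)) (h1 : 1 < finrank F K) :
    ∃ g ∈ (mdl (K := K) h2 ν a hν0 ha).Om, ∀ h ∈ (mdl (K := K) h2 ν a hν0 ha).O, ∀ ε ε' : F,
      (ε = 1 ∨ ε = -1) → (ε' = 1 ∨ ε' = -1) → (∀ v, h (jj v) = ε • jj (h v)) →
      (∀ v, h (g (jj (g⁻¹ v))) = ε' • g (jj (g⁻¹ (h v)))) →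
      ∃ δ₁ δ₂ p : F, (δ₁ = 1 ∨ δ₁ = -1) ∧ (δ₂ = 1 ∨ δ₂ = -1) ∧ (p = 1 ∨ p = -1) ∧
        ∀ v, h v = (δ₁ * v.1, δ₂ * v.2.1, p • v.2.2.1, p • v.2.2.2) := by
  have h2K : (2 : K) ≠ 0 := by
    intro h
    apply h2
    apply (algebraMap F K).injective
    rw [map_zero, map_ofNat, h]
  obtain ⟨c₀, s₀, c, s, c', s', e0, hc, hs, hc', hs', e1, e2, n1, n2, n3, hfix⟩ :=
    exists_rot (K := K) h2 hodd h1 hν0
  obtain ⟨n, hn⟩ : ∃ n, n = algebraMap F K ν := ⟨_, rfl⟩
  have hjinv : (jj : (F × F × K × K) ≃ₗ[F] (F × F × K × K))⁻¹ = jj := by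
    rw [inv_eq_iff_mul_eq_one]
    ext v <;> simp [mul_apply', jj_apply]
  -- the element of the group
  have hg : ro ν c s e1 = ⁅ro ν c₀ s₀ e0, (jj : (F × F × K × K) ≃ₗ[F] (F × F × K × K))⁆ := by
    rw [commutatorElement_def, hjinv]
    apply LinearEquiv.ext
    intro v
    rw [mul_apply', mul_apply', mul_apply', jj_apply v, ro_inv_apply, jj_apply, ro_apply,
      ro_apply, hc, hs]
    simp only [neg_neg]
    refine Prod.ext rfl (Prod.ext rfl (Prod.ext ?_ ?_))
    · simp only; ring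
    · simp only; ring
  refine ⟨ro ν c s e1, ?_, ?_⟩
  · rw [hg]
    exact Subgroup.commutator_mem_commutator (ro_mem h2 hν0 ha e0) (jj_mem h2 hν0 ha)
  intro h hO ε ε' hε hε' H1 H2
  have hεε : ε * ε = 1 := by rcases hε with h | h <;> rw [h] <;> ring
  have hB : ∀ x y, (mdl h2 ν a hν0 ha).B (h x) (h y) = (mdl h2 ν a hν0 ha).B x y :=
    fun x y => (mdl h2 ν a hν0 ha).O_B hO x y
  obtain ⟨G, hG⟩ : ∃ G, G = ro ν c' s' e2 := ⟨_, rfl⟩
  have hGa : ∀ v, G v = (v.1, v.2.1, c' * v.2.2.1 - n * s' * v.2.2.2,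
      s' * v.2.2.1 + c' * v.2.2.2) := by
    intro v
    rw [hG, hn]; rfl
  have hGi : ∀ v, G⁻¹ v = (v.1, v.2.1, c' * v.2.2.1 - n * (-s') * v.2.2.2,
      (-s') * v.2.2.1 + c' * v.2.2.2) := by
    intro v
    rw [hG, hn]; rfl
  have hgj : ∀ v, ro ν c s e1 (jj ((ro ν c s e1)⁻¹ v)) = G (jj v) := by
    intro v
    rw [ro_inv_apply, jj_apply, ro_apply, jj_apply, hGa, hc', hs', hn]
    refine Prod.ext rfl (Prod.ext rfl (Prod.ext ?_ ?_))
    · simp only; ring
    · simp only; ring
  have hjj : ∀ v : F × F × K × K, jj (jj v) = v := by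
    intro v
    rw [jj_apply, jj_apply]; simp
  -- commutation up to sign
  have H3 : ∀ v, h (G v) = (ε' * ε) • G (h v) := by
    intro v
    have h3 := H2 (jj v)
    rw [hgj, hgj, hjj, H1, map_smul, hjj, map_smul, smul_smul] at h3
    exact h3
  have hN : ∀ z w : K, c' * z - n * s' * w = z → s' * z + c' * w = w → z = 0 ∧ w = 0 := by
    intro z w h3 h4
    rw [← hn] at e2
    have h5 : (2 - 2 * c') * z = 0 := by
      linear_combination (c' - 1) * h3 + n * s' * h4 - z * e2
    have h6 : (2 - 2 * c') * w = 0 := by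
      linear_combination -s' * h3 + (c' - 1) * h4 - w * e2
    have h7 : (2 - 2 * c') ≠ 0 := by
      intro h
      have h8 : 2 * (c' - 1) = 0 := by linear_combination -h
      exact n1 (sub_eq_zero.1 ((mul_eq_zero.1 h8).resolve_left h2K))
    exact ⟨(mul_eq_zero.1 h5).resolve_left h7, (mul_eq_zero.1 h6).resolve_left h7⟩
  have hN' : ∀ z w : K, c' * z - n * s' * w = -z → s' * z + c' * w = -w → z = 0 ∧ w = 0 := by
    intro z w h3 h4
    rw [← hn] at e2
    have h5 : (2 + 2 * c') * z = 0 := by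
      linear_combination (c' + 1) * h3 + n * s' * h4 - z * e2
    have h6 : (2 + 2 * c') * w = 0 := by
      linear_combination -s' * h3 + (c' + 1) * h4 - w * e2
    have h7 : (2 + 2 * c') ≠ 0 := by
      intro h
      have h8 : 2 * (c' + 1) = 0 := by linear_combination h
      exact n2 (by linear_combination (mul_eq_zero.1 h8).resolve_left h2K)
    exact ⟨(mul_eq_zero.1 h5).resolve_left h7, (mul_eq_zero.1 h6).resolve_left h7⟩
  have hFneg : ∀ x : F, x = -x → x = 0 := by
    intro x hx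
    have : 2 * x = 0 := by linear_combination hx
    exact (mul_eq_zero.1 this).resolve_left h2
  have hKneg : ∀ x : K, x = -x → x = 0 := by
    intro x hx
    have : 2 * x = 0 := by linear_combination hx
    exact (mul_eq_zero.1 this).resolve_left h2K
  -- the signs agree
  have H4 : ∀ v, h (G v) = G (h v) := by
    have h3 : ε' * ε = 1 ∨ ε' * ε = -1 := by
      rcases hε with h | h <;> rcases hε' with h' | h' <;> rw [h, h'] <;> simp
    rcases h3 with h3 | h3
    · intro v
      rw [H3, h3, one_smul]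
    · exfalso
      have h4 := H3 (1, 0, 0, 0)
      have h5 : G (1, 0, 0, 0) = (1, 0, 0, 0) := by
        rw [hGa]; simp
      rw [h5, h3, neg_one_smul, hGa] at h4
      obtain ⟨v, hv⟩ : ∃ v, v = h (1, 0, 0, 0) := ⟨_, rfl⟩
      rw [← hv] at h4
      have a1 : v.1 = -v.1 := congrArg Prod.fst h4
      have a2 : v.2.1 = -v.2.1 := congrArg (fun u => u.2.1) h4
      have a3 : v.2.2.1 = -(c' * v.2.2.1 - n * s' * v.2.2.2) := congrArg (fun u => u.2.2.1) h4
      have a4 : v.2.2.2 = -(s' * v.2.2.1 + c' * v.2.2.2) := congrArg (fun u => u.2.2.2) h4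
      obtain ⟨a5, a6⟩ := hN' v.2.2.1 v.2.2.2 (by linear_combination a3)
        (by linear_combination a4)
      have a7 : v = 0 := Prod.ext (hFneg _ a1) (Prod.ext (hFneg _ a2) (Prod.ext a5 a6))
      rw [a7] at hv
      have a8 := h.injective (hv.symm.trans (map_zero h).symm)
      exact one_ne_zero (congrArg Prod.fst a8)
  have H5 : ∀ v, h (G⁻¹ v) = G⁻¹ (h v) := by
    intro v
    apply G.injective
    rw [← H4, apply_inv_self', apply_inv_self']
  -- the fixed space of `G`
  have V1 : ∀ v, G v = v → (h v).2.2.1 = 0 ∧ (h v).2.2.2 = 0 := by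
    intro v hv
    have h3 := H4 v
    rw [hv, hGa] at h3
    exact hN _ _ (congrArg (fun u => u.2.2.1) h3).symm (congrArg (fun u => u.2.2.2) h3).symm
  have V2 : ∀ z w, (h (0, 0, z, w)).1 = 0 ∧ (h (0, 0, z, w)).2.1 = 0 := by
    intro z w
    have h7 : (2 - 2 * c') ≠ 0 := by
      intro h
      have h8 : 2 * (c' - 1) = 0 := by linear_combination -h
      exact n1 (sub_eq_zero.1 ((mul_eq_zero.1 h8).resolve_left h2K))
    obtain ⟨u, hu⟩ : ∃ u : F × F × K × K, G u - u = (0, 0, z, w) := by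
      refine ⟨(0, 0, ((c' - 1) * z + n * s' * w) / (2 - 2 * c'),
        ((c' - 1) * w - s' * z) / (2 - 2 * c')), ?_⟩
      rw [← hn] at e2
      rw [hGa]
      refine Prod.ext (by simp) (Prod.ext (by simp) (Prod.ext ?_ ?_))
      · change c' * (((c' - 1) * z + n * s' * w) / (2 - 2 * c')) -
          n * s' * (((c' - 1) * w - s' * z) / (2 - 2 * c')) -
          ((c' - 1) * z + n * s' * w) / (2 - 2 * c') = z
        field_simp
        linear_combination z * e2
      · change s' * (((c' - 1) * z + n * s' * w) / (2 - 2 * c')) +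
          c' * (((c' - 1) * w - s' * z) / (2 - 2 * c')) -
          ((c' - 1) * w - s' * z) / (2 - 2 * c') = w
        field_simp
        linear_combination w * e2
    rw [← hu, map_sub, H4, hGa]
    simp
  -- `h` is linear over `K`
  let k : (K × K) →ₗ[F] (K × K) :=
    { toFun := fun u => (h (0, 0, u.1, u.2)).2.2
      map_add' := fun u v => by
        have e3 : ((0 : F), (0 : F), (u + v).1, (u + v).2) = (0, 0, u.1, u.2) + (0, 0, v.1, v.2) := by
          ext <;> simp
        rw [e3, map_add]; rfl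
      map_smul' := fun r u => by
        have e3 : ((0 : F), (0 : F), (r • u).1, (r • u).2) = r • ((0 : F), (0 : F), u.1, u.2) := by
          ext <;> simp
        rw [e3, map_smul]; rfl }
  have hk : ∀ z w, h (0, 0, z, w) = (0, 0, (k (z, w)).1, (k (z, w)).2) := by
    intro z w
    obtain ⟨a1, a2⟩ := V2 z w
    exact Prod.ext a1 (Prod.ext a2 rfl)
  have hkc : ∀ u, k (c' • u) = c' • k u := by
    intro u
    have h3 : G (0, 0, u.1, u.2) + G⁻¹ (0, 0, u.1, u.2) =
        (2 : F) • ((0 : F), (0 : F), c' * u.1, c' * u.2) := by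
      rw [hGa, hGi]
      refine Prod.ext (by simp) (Prod.ext (by simp) (Prod.ext ?_ ?_))
      · simp only [Prod.mk_add_mk, Prod.smul_mk, two_smul]; ring
      · simp only [Prod.mk_add_mk, Prod.smul_mk, two_smul]; ring
    have h4 := congrArg h h3
    rw [map_add, H4, H5, map_smul, hk, hk, hGa, hGi] at h4
    have a1 := congrArg (fun u => u.2.2.1) h4
    have a2 := congrArg (fun u => u.2.2.2) h4
    simp only [Prod.mk_add_mk, Prod.smul_mk, two_smul] at a1 a2
    have e4 : k (c' • u) = k (c' * u.1, c' * u.2) := rfl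
    rw [e4]
    refine Prod.ext ?_ ?_
    · apply mul_left_cancel₀ h2K
      change 2 * (k (c' * u.1, c' * u.2)).1 = 2 * (c' * (k (u.1, u.2)).1)
      linear_combination -a1
    · apply mul_left_cancel₀ h2K
      change 2 * (k (c' * u.1, c' * u.2)).2 = 2 * (c' * (k (u.1, u.2)).2)
      linear_combination -a2
  have hkl := klin hfix k hkc
  -- the sign is plus
  have hε1 : ε = 1 := by
    rcases hε with h3 | h3
    · exact h3
    · exfalso
      obtain ⟨a1, a2⟩ := V1 (1, 0, 0, 0) (by rw [hGa]; simp)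
      have h4 := H1 (1, 0, 0, 0)
      have h5 : (jj ((1 : F), (0 : F), (0 : K), (0 : K))) = (1, 0, 0, 0) := by
        rw [jj_apply]; simp
      rw [h5, h3, jj_apply] at h4
      have a3 := congrArg Prod.fst h4
      simp only [Prod.smul_mk, smul_eq_mul, neg_mul, one_mul] at a3
      have a4 := hFneg _ a3
      have h6 := hO (1, 0, 0, 0)
      rw [mdl_Q, mdl_Q, a1, a2, a4] at h6
      simp only [mul_zero, map_zero, add_zero] at h6
      apply hν
      have hy : (h (1, 0, 0, 0)).2.1 ≠ 0 := by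
        intro h
        rw [h] at h6
        apply one_ne_zero (α := F)
        linear_combination -h6
      refine ⟨((h (1, 0, 0, 0)).2.1)⁻¹, ?_⟩
      field_simp
      linear_combination h6
  rw [hε1] at H1
  simp only [one_smul] at H1
  -- the four images
  obtain ⟨b1, b2⟩ := V1 (1, 0, 0, 0) (by rw [hGa]; simp)
  obtain ⟨b3, b4⟩ := V1 (0, 1, 0, 0) (by rw [hGa]; simp)
  have h5 : (jj ((1 : F), (0 : F), (0 : K), (0 : K))) = (1, 0, 0, 0) := by
    rw [jj_apply]; simp
  have h6 : (jj ((0 : F), (1 : F), (0 : K), (0 : K))) = -(0, 1, 0, 0) := by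
    rw [jj_apply]; simp
  have b5 : (h (1, 0, 0, 0)).2.1 = 0 := by
    have h4 := H1 (1, 0, 0, 0)
    rw [h5, jj_apply] at h4
    exact hFneg _ (congrArg (fun u => u.2.1) h4)
  have b6 : (h (0, 1, 0, 0)).1 = 0 := by
    have h4 := H1 (0, 1, 0, 0)
    rw [h6, jj_apply, map_neg] at h4
    have a3 := congrArg Prod.fst h4
    simp only [Prod.fst_neg] at a3
    exact hFneg _ a3.symm
  have b7 : (h (1, 0, 0, 0)).1 = 1 ∨ (h (1, 0, 0, 0)).1 = -1 := by
    have h7 := hO (1, 0, 0, 0)
    rw [mdl_Q, mdl_Q, b1, b2, b5] at h7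
    simp only [mul_zero, map_zero, add_zero] at h7
    apply sq_eq_one_iff.1
    linear_combination h7
  have b8 : (h (0, 1, 0, 0)).2.1 = 1 ∨ (h (0, 1, 0, 0)).2.1 = -1 := by
    have h7 := hO (0, 1, 0, 0)
    rw [mdl_Q, mdl_Q, b3, b4, b6] at h7
    simp only [mul_zero, map_zero, add_zero] at h7
    apply sq_eq_one_iff.1
    apply mul_left_cancel₀ hν0
    linear_combination h7
  have b9 : (k (1, 0)).2 = 0 := by
    have h4 := H1 (0, 0, 1, 0)
    have h7 : (jj ((0 : F), (0 : F), (1 : K), (0 : K))) = (0, 0, 1, 0) := by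
      rw [jj_apply]; simp
    rw [h7, hk, jj_apply] at h4
    exact hKneg _ (congrArg (fun u => u.2.2.2) h4)
  have b10 : (k (0, 1)).1 = 0 := by
    have h4 := H1 (0, 0, 0, 1)
    have h7 : (jj ((0 : F), (0 : F), (0 : K), (1 : K))) = -(0, 0, 0, 1) := by
      rw [jj_apply]; simp
    rw [h7, map_neg, hk, jj_apply] at h4
    have a3 := congrArg (fun u => u.2.2.1) h4
    simp only [Prod.neg_mk] at a3
    exact hKneg _ a3.symm
  obtain ⟨p, hp⟩ : ∃ p, p = (k (1, 0)).1 := ⟨_, rfl⟩
  obtain ⟨p', hp'⟩ : ∃ p', p' = (k (0, 1)).2 := ⟨_, rfl⟩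
  have hkall : ∀ z w, k (z, w) = (z * p, w * p') := by
    intro z w
    have e3 : ((z, w) : K × K) = z • ((1 : K), (0 : K)) + w • ((0 : K), (1 : K)) := by
      ext <;> simp
    rw [e3, map_add, hkl, hkl]
    refine Prod.ext ?_ ?_
    · change z * (k (1, 0)).1 + w * (k (0, 1)).1 = _
      rw [b10, ← hp, mul_zero, add_zero]
    · change z * (k (1, 0)).2 + w * (k (0, 1)).2 = _
      rw [b9, ← hp', mul_zero, zero_add]
  have hpp : p' = p := by
    have h4 := H4 (0, 0, 1, 0)
    rw [hGa, hk] at h4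
    simp only [mul_zero, sub_zero, add_zero, mul_one] at h4
    rw [hk, hGa, hkall, hkall] at h4
    have a3 := congrArg (fun u => u.2.2.2) h4
    simp only [one_mul, zero_mul, mul_zero, add_zero] at a3
    exact mul_left_cancel₀ n3 a3
  have hp2 : p ^ 2 = 1 := by
    apply tr_cancel (F := F)
    intro z
    have h4 := hB (0, 0, z, 0) (0, 0, 1, 0)
    rw [hk, hk, mdl_B, mdl_B, hkall, hkall] at h4
    simp only [mul_zero, zero_mul, map_zero, add_zero, zero_add, one_mul, mul_one] at h4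
    have h7 := mul_left_cancel₀ ha (mul_left_cancel₀ h2 h4)
    rw [mul_one, ← h7]
    congr 1
    ring
  have hpF : ∃ q : F, (q = 1 ∨ q = -1) ∧ p = algebraMap F K q := by
    rcases sq_eq_one_iff.1 hp2 with h3 | h3
    · exact ⟨1, Or.inl rfl, by rw [h3, map_one]⟩
    · exact ⟨-1, Or.inr rfl, by rw [h3, map_neg, map_one]⟩
  obtain ⟨q, hq, hqp⟩ := hpF
  refine ⟨_, _, q, b7, b8, hq, fun v => ?_⟩
  have e3 : v = v.1 • ((1 : F), (0 : F), (0 : K), (0 : K)) + (v.2.1 • (0, 1, 0, 0) +
      (0, 0, v.2.2.1, v.2.2.2)) := by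
    ext <;> simp
  conv_lhs => rw [e3]
  rw [map_add, map_add, map_smul, map_smul, hk, hkall, hpp, hqp]
  refine Prod.ext ?_ (Prod.ext ?_ (Prod.ext ?_ ?_))
  · change v.1 * (h (1, 0, 0, 0)).1 + (v.2.1 * (h (0, 1, 0, 0)).1 + 0) = _
    rw [b6]
    change _ = (h (1, 0, 0, 0)).1 * v.1
    ring
  · change v.1 * (h (1, 0, 0, 0)).2.1 + (v.2.1 * (h (0, 1, 0, 0)).2.1 + 0) = _
    rw [b5]
    change _ = (h (0, 1, 0, 0)).2.1 * v.2.1
    ring
  · change v.1 • (h (1, 0, 0, 0)).2.2.1 + (v.2.1 • (h (0, 1, 0, 0)).2.2.1 +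
      v.2.2.1 * algebraMap F K q) = q • v.2.2.1
    rw [b1, b3, Algebra.smul_def q]
    simp [mul_comm]
  · change v.1 • (h (1, 0, 0, 0)).2.2.2 + (v.2.1 • (h (0, 1, 0, 0)).2.2.2 +
      v.2.2.2 * algebraMap F K q) = q • v.2.2.2
    rw [b2, b4, Algebra.smul_def q]
    simp [mul_comm]

end

end Pool.Agent.H8Base
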