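import Mathlib
import Pool.Agent.OmegaPlus.Eight

set_option autoImplicit false
set_option linter.unusedSectionVars false
set_option linter.unusedVariables false
set_option linter.style.haveILetI false
set_option linter.unusedSimpArgs false
set_option linter.unnecessarySeqFocus false

/-! The sign of a reflection on the vectors of given norm. -/

namespace Pool.Agent.H8Base

open Module Pool.Agent.OmegaEven Pool.Agent.OmegaOdd Pool.Agent.OmegaPlus

theorem even_card_of_invol {ι : Type*} (s : Finset ι) (τ : ι → ι) (h1 : ∀ a ∈ s, τ a ∈ s)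
    (h2 : ∀ a ∈ s, τ a ≠ a) (h3 : ∀ a ∈ s, τ (τ a) = a) : Even s.card := by
  classical
  have h : ∑ _x ∈ s, (1 : ZMod 2) = 0 :=
    Finset.sum_involution (fun a _ => τ a) (fun a _ => by decide) (fun a ha _ => h2 a ha)
      (fun a ha => h1 a ha) (fun a ha => h3 a ha)
  rw [Finset.sum_const, nsmul_eq_mul, mul_one] at h
  exact ZMod.natCast_eq_zero_iff_even.1 h

/-- a half system -/
theorem exists_half {F : Type*} [Field F] [Finite F] (h2 : (2 : F) ≠ 0) :
    ∃ P : F → Prop, ¬ P 0 ∧ ∀ t, t ≠ 0 → (P t ↔ ¬ P (-t)) := by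
  classical
  cases nonempty_fintype F
  refine ⟨fun t => Fintype.equivFin F t < Fintype.equivFin F (-t), ?_, ?_⟩
  · simp only [neg_zero, lt_irrefl, not_false_eq_true]
  · intro t ht
    simp only [neg_neg, not_lt]
    constructor
    · exact le_of_lt
    · intro h
      refine lt_of_le_of_ne h fun h3 => ht ?_
      have h4 := (Fintype.equivFin F).injective h3
      have h5 : 2 * t = 0 := by linear_combination h4
      exact (mul_eq_zero.1 h5).resolve_left h2

section
variable {F V : Type*} [Field F] [Finite F] [AddCommGroup V] [Module F V] (S : QSp F V)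
  (h2 : (2 : F) ≠ 0) (a : V) (ha : S.Q a ≠ 0) (c : F) [Fintype {v : V // S.Q v = c}]
  [DecidableEq {v : V // S.Q v = c}]
include h2 ha

theorem B_refl (v : V) : S.B (refl S a v) a = -S.B v a := by
  rw [refl_apply, map_sub, map_smul, LinearMap.sub_apply, LinearMap.smul_apply, Bself, smul_eq_mul]
  field_simp
  ring

/-- the sign of a reflection on the vectors of norm `c` -/
theorem sign_refl (P : F → Prop) (hP0 : ¬ P 0) (hP : ∀ t, t ≠ 0 → (P t ↔ ¬ P (-t)))
    [DecidablePred P] [DecidableEq V] :
    Equiv.Perm.sign (actHom S c ⟨refl S a, refl_mem S a⟩) =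
      (-1) ^ (Finset.univ.filter (fun v : {v : V // S.Q v = c} =>
        P (S.B v.1 a) ∧ - refl S a v.1 = v.1)).card := by
  classical
  obtain ⟨σ, hσ⟩ : ∃ σ, σ = actHom S c ⟨refl S a, refl_mem S a⟩ := ⟨_, rfl⟩
  have hσa : ∀ v, (σ v).1 = refl S a v.1 := by
    intro v
    rw [hσ, actHom_apply]
  have ha0 : a ≠ 0 := by
    rintro rfl
    exact ha (Qz S)
  have hfix : ∀ v, σ v = v ↔ S.B v.1 a = 0 := by
    intro v
    rw [Subtype.ext_iff, hσa, refl_apply, sub_eq_self, smul_eq_zero]
    constructor
    · rintro (h | h)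
      · exact (mul_eq_zero.1 h).resolve_left (inv_ne_zero ha)
      · exact absurd h ha0
    · intro h
      left
      rw [h, mul_zero]
  have hσσ : ∀ v, σ (σ v) = v := by
    intro v
    apply Subtype.ext
    rw [hσa, hσa, refl_refl]
  rw [← hσ, Equiv.Perm.sign_of_pow_two_eq_one (by
    ext v
    rw [pow_two, Equiv.Perm.mul_apply, hσσ]; rfl)]
  -- the number of pairs
  obtain ⟨N, hN⟩ : ∃ N, N = (Finset.univ.filter (fun v : {v : V // S.Q v = c} =>
    P (S.B v.1 a))).card := ⟨_, rfl⟩
  have hN' : (Finset.univ.filter (fun v : {v : V // S.Q v = c} => P (-S.B v.1 a))).card = N := by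
    rw [hN]
    apply Finset.card_bij (fun v _ => σ v)
    · intro v hv
      rw [Finset.mem_filter] at hv ⊢
      refine ⟨Finset.mem_univ _, ?_⟩
      rw [hσa, B_refl S h2 a ha]
      exact hv.2
    · intro v _ w _ h
      exact σ.injective h
    · intro v hv
      rw [Finset.mem_filter] at hv
      refine ⟨σ v, ?_, hσσ v⟩
      rw [Finset.mem_filter]
      refine ⟨Finset.mem_univ _, ?_⟩
      rw [hσa, B_refl S h2 a ha, neg_neg]
      exact hv.2
  have hcount : Fintype.card {v : V // S.Q v = c} -
      Fintype.card (Function.fixedPoints σ) = 2 * N := by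
    have e1 : Fintype.card (Function.fixedPoints σ) =
        (Finset.univ.filter (fun v : {v : V // S.Q v = c} => S.B v.1 a = 0)).card := by
      rw [← Fintype.card_subtype]
      apply Fintype.card_congr
      exact Equiv.subtypeEquivRight fun v => hfix v
    have e2 := Finset.card_filter_add_card_filter_not (s := Finset.univ)
      (fun v : {v : V // S.Q v = c} => S.B v.1 a = 0)
    have e3 : (Finset.univ.filter (fun v : {v : V // S.Q v = c} => ¬ S.B v.1 a = 0)) =
        (Finset.univ.filter (fun v : {v : V // S.Q v = c} => P (S.B v.1 a))) ∪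
        (Finset.univ.filter (fun v : {v : V // S.Q v = c} => P (-S.B v.1 a))) := by
      ext v
      simp only [Finset.mem_filter, Finset.mem_univ, true_and, Finset.mem_union]
      constructor
      · intro h
        by_cases h3 : P (-S.B v.1 a)
        · exact Or.inr h3
        · exact Or.inl ((hP _ h).2 h3)
      · rintro (h | h) h3
        · rw [h3] at h; exact hP0 h
        · rw [h3, neg_zero] at h; exact hP0 h
    have e4 : Disjoint
        (Finset.univ.filter (fun v : {v : V // S.Q v = c} => P (S.B v.1 a)))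
        (Finset.univ.filter (fun v : {v : V // S.Q v = c} => P (-S.B v.1 a))) := by
      rw [Finset.disjoint_filter]
      intro v _ h h3
      by_cases h4 : S.B v.1 a = 0
      · rw [h4] at h; exact hP0 h
      · exact (hP _ h4).1 h h3
    rw [e3, Finset.card_union_of_disjoint e4, hN', ← hN, Finset.card_univ] at e2
    omega
  rw [hcount, Nat.mul_div_cancel_left N (by norm_num), hN]
  -- the parity
  have hτ : ∀ v : {v : V // S.Q v = c}, S.Q (-refl S a v.1) = c := by
    intro v
    rw [Qneg, refl_mem S a v.1, v.2]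
  have heven : Even (Finset.univ.filter (fun v : {v : V // S.Q v = c} =>
      P (S.B v.1 a) ∧ ¬ - refl S a v.1 = v.1)).card := by
    apply even_card_of_invol _ (fun v => (⟨-refl S a v.1, hτ v⟩ : {v : V // S.Q v = c}))
    · intro v hv
      rw [Finset.mem_filter] at hv ⊢
      obtain ⟨-, h3, h4⟩ := hv
      refine ⟨Finset.mem_univ _, ?_, ?_⟩
      · change P (S.B (-refl S a v.1) a)
        rw [map_neg, LinearMap.neg_apply, B_refl S h2 a ha, neg_neg]
        exact h3
      · intro h5
        change - refl S a (-refl S a v.1) = -refl S a v.1 at h5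
        apply h4
        rw [← h5, map_neg, refl_refl, neg_neg]
    · intro v hv h3
      rw [Finset.mem_filter] at hv
      exact hv.2.2 (congrArg Subtype.val h3)
    · intro v _
      apply Subtype.ext
      change - refl S a (-refl S a v.1) = v.1
      rw [map_neg, refl_refl, neg_neg]
  have hsplit := Finset.card_filter_add_card_filter_not
    (s := Finset.univ.filter (fun v : {v : V // S.Q v = c} => P (S.B v.1 a)))
    (fun v : {v : V // S.Q v = c} => - refl S a v.1 = v.1)
  rw [Finset.filter_filter, Finset.filter_filter] at hsplit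
  rw [← hsplit, pow_add, heven.neg_one_pow, mul_one]

/-- vectors reversed by the reflection are multiples -/
theorem of_reversed {v : V} (h : -refl S a v = v) : v = (S.B v a / (2 * S.Q a)) • a := by
  rw [refl_apply] at h
  have h3 : (2 : F) • v = ((S.Q a)⁻¹ * S.B v a) • a := by
    have h4 : (2 : F) • v = v + v := two_smul F v
    rw [h4]
    nth_rewrite 1 [← h]
    abel
  have h4 : v = (2 : F)⁻¹ • ((2 : F) • v) := by rw [smul_smul, inv_mul_cancel₀ h2, one_smul]
  rw [h4, h3, smul_smul]
  congr 1
  rw [map_smul, LinearMap.smul_apply, Bself, smul_eq_mul]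
  field_simp

end

section
variable {F V : Type*} [Field F] [Finite F] [AddCommGroup V] [Module F V] (S : QSp F V)
  (h2 : (2 : F) ≠ 0) (a : V) (ha : S.Q a ≠ 0)
include h2 ha

theorem sign_refl_self [Fintype {v : V // S.Q v = S.Q a}]
    [DecidableEq {v : V // S.Q v = S.Q a}] :
    Equiv.Perm.sign (actHom S (S.Q a) ⟨refl S a, refl_mem S a⟩) = -1 := by
  classical
  obtain ⟨P, hP0, hP⟩ := exists_half h2
  have ha0 : a ≠ 0 := by
    rintro rfl
    exact ha (Qz S)
  rw [sign_refl S h2 a ha _ P hP0 hP]
  -- the reversed vector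
  obtain ⟨b, hb, hbP⟩ : ∃ b : V, (b = a ∨ b = -a) ∧ P (S.B b a) := by
    have h3 : S.B a a ≠ 0 := by
      rw [Bself]; exact mul_ne_zero h2 ha
    by_cases h : P (S.B a a)
    · exact ⟨a, Or.inl rfl, h⟩
    · refine ⟨-a, Or.inr rfl, ?_⟩
      rw [map_neg, LinearMap.neg_apply]
      by_contra h4
      exact h ((hP _ h3).2 h4)
  have hbQ : S.Q b = S.Q a := by
    rcases hb with rfl | rfl
    · rfl
    · exact Qneg S a
  have hra : refl S a a = -a := by
    rw [refl_apply, Bself]
    have : (S.Q a)⁻¹ * (2 * S.Q a) = 2 := by field_simp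
    rw [this, two_smul]; abel
  have hone : (Finset.univ.filter (fun v : {v : V // S.Q v = S.Q a} =>
      P (S.B v.1 a) ∧ - refl S a v.1 = v.1)) = {⟨b, hbQ⟩} := by
    ext v
    simp only [Finset.mem_filter, Finset.mem_univ, true_and, Finset.mem_singleton]
    constructor
    · rintro ⟨h3, h4⟩
      have h5 := of_reversed S h2 a ha h4
      obtain ⟨t, ht⟩ : ∃ t, t = S.B v.1 a / (2 * S.Q a) := ⟨_, rfl⟩
      rw [← ht] at h5
      have h6 := v.2
      rw [h5, S.smul] at h6
      have h7 : t ^ 2 = 1 := mul_right_cancel₀ ha (by rw [h6, one_mul])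
      apply Subtype.ext
      change v.1 = b
      have h8 : v.1 = a ∨ v.1 = -a := by
        rcases sq_eq_one_iff.1 h7 with h8 | h8
        · left; rw [h5, h8, one_smul]
        · right; rw [h5, h8, neg_one_smul]
      have h9 : S.B a a ≠ 0 := by
        rw [Bself]; exact mul_ne_zero h2 ha
      rcases h8 with h8 | h8 <;> rcases hb with h10 | h10
      · rw [h8, h10]
      · exfalso
        rw [h8] at h3
        rw [h10, map_neg, LinearMap.neg_apply] at hbP
        exact (hP _ h9).1 h3 hbP
      · exfalso
        rw [h10] at hbP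
        rw [h8, map_neg, LinearMap.neg_apply] at h3
        exact (hP _ h9).1 hbP h3
      · rw [h8, h10]
    · intro h
      rw [h]
      refine ⟨hbP, ?_⟩
      change -refl S a b = b
      rcases hb with rfl | rfl
      · rw [hra, neg_neg]
      · rw [map_neg, hra, neg_neg]
  rw [hone, Finset.card_singleton, pow_one]

theorem sign_refl_ns {c : F} (hc : ∀ t, t ^ 2 * S.Q a ≠ c) [Fintype {v : V // S.Q v = c}]
    [DecidableEq {v : V // S.Q v = c}] :
    Equiv.Perm.sign (actHom S c ⟨refl S a, refl_mem S a⟩) = 1 := by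
  classical
  obtain ⟨P, hP0, hP⟩ := exists_half h2
  rw [sign_refl S h2 a ha _ P hP0 hP]
  have hnone : (Finset.univ.filter (fun v : {v : V // S.Q v = c} =>
      P (S.B v.1 a) ∧ - refl S a v.1 = v.1)) = ∅ := by
    rw [Finset.filter_eq_empty_iff]
    rintro v - ⟨h3, h4⟩
    have h5 := of_reversed S h2 a ha h4
    have h6 := v.2
    rw [h5, S.smul] at h6
    exact hc _ h6
  rw [hnone, Finset.card_empty, pow_zero]

end

end Pool.Agent.H8Base
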