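import Mathlib
import Pool.Agent.H8Base.Main
import Pool.Agent.H8Base.Sign

set_option autoImplicit false
set_option linter.unusedSectionVars false
set_option linter.unusedVariables false
set_option linter.style.haveILetI false
set_option linter.unusedSimpArgs false
set_option linter.unnecessarySeqFocus false

/-! The joint stabiliser in the commutator subgroup. -/

namespace Pool.Agent.H8Base

open Module Pool.Agent.OmegaEven Pool.Agent.OmegaOdd Pool.Agent.OmegaPlus
open scoped commutatorElement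

section
variable {F K : Type*} [Field F] [Field K] [Finite K] [Algebra F K]

/-- sign changes in the commutator subgroup -/
theorem signs (h2 : (2 : F) ≠ 0) {ν a : F} (hν0 : ν ≠ 0) (ha : a ≠ 0) (hν : ¬ IsSquare ν)
    {h : (F × F × K × K) ≃ₗ[F] (F × F × K × K)} (hh : h ∈ (mdl (K := K) h2 ν a hν0 ha).Om)
    {δ₁ δ₂ : F} (h₁ : δ₁ = 1 ∨ δ₁ = -1) (h₂ : δ₂ = 1 ∨ δ₂ = -1)
    (hv : ∀ v, h v = (δ₁ * v.1, δ₂ * v.2.1, v.2.2.1, v.2.2.2)) : ∀ v, h v = v := by
  classical
  haveI : Finite F := Finite.of_injective _ (algebraMap F K).injective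
  obtain ⟨T, hT⟩ : ∃ T, T = mdl (K := K) h2 ν a hν0 ha := ⟨_, rfl⟩
  rw [← hT] at hh
  let e : F × F × K × K := (1, 0, 0, 0)
  let f : F × F × K × K := (0, 1, 0, 0)
  have he : T.Q e = 1 := by
    rw [hT, mdl_Q]; simp [e]
  have hf : T.Q f = ν := by
    rw [hT, mdl_Q]; simp [f]
  have hre : ∀ v, refl T e v = (-v.1, v.2.1, v.2.2.1, v.2.2.2) := by
    intro v
    rw [refl_apply, he, hT, mdl_B]
    refine Prod.ext ?_ (Prod.ext ?_ (Prod.ext ?_ ?_))
    · simp [e]; ring
    · simp [e]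
    · simp [e]
    · simp [e]
  have hrf : ∀ v, refl T f v = (v.1, -v.2.1, v.2.2.1, v.2.2.2) := by
    intro v
    rw [refl_apply, hf, hT, mdl_B]
    refine Prod.ext ?_ (Prod.ext ?_ (Prod.ext ?_ ?_))
    · simp [f]
    · simp [f]; field_simp; ring
    · simp [f]
    · simp [f]
  haveI : Finite (F × F × K × K) := inferInstance
  have hns : ∀ t : F, t ^ 2 * T.Q f ≠ 1 := by
    intro t ht
    rw [hf] at ht
    apply hν
    have ht0 : t ≠ 0 := by
      rintro rfl
      apply zero_ne_one (α := F)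
      linear_combination ht
    refine ⟨t⁻¹, ?_⟩
    field_simp
    linear_combination ht
  rcases h₁ with rfl | rfl <;> rcases h₂ with rfl | rfl
  · intro v
    rw [hv]; simp
  · exfalso
    have h3 : h = refl T f := by
      apply LinearEquiv.ext
      intro v
      rw [hv, hrf]; simp
    subst h3
    letI : Fintype {v // T.Q v = T.Q f} := Fintype.ofFinite _
    have h4 := sign_of_mem_Om T (T.Q f) hh
    have h5 := sign_refl_self T h2 f (by rw [hf]; exact hν0)
    rw [h4] at h5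
    exact absurd h5 (by decide)
  · exfalso
    have h3 : h = refl T e := by
      apply LinearEquiv.ext
      intro v
      rw [hv, hre]; simp
    subst h3
    letI : Fintype {v // T.Q v = T.Q e} := Fintype.ofFinite _
    have h4 := sign_of_mem_Om T (T.Q e) hh
    have h5 := sign_refl_self T h2 e (by rw [he]; exact one_ne_zero)
    rw [h4] at h5
    exact absurd h5 (by decide)
  · exfalso
    have h3 : h = refl T e * refl T f := by
      apply LinearEquiv.ext
      intro v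
      rw [hv, mul_apply', hrf, hre]; simp
    subst h3
    letI : Fintype {v // T.Q v = T.Q e} := Fintype.ofFinite _
    have h4 := sign_of_mem_Om T (T.Q e) hh
    have h5 := sign_refl_self T h2 e (by rw [he]; exact one_ne_zero)
    have h6 := sign_refl_ns T h2 f (by rw [hf]; exact hν0) (c := T.Q e) (by rw [he]; exact hns)
    have h7 : (⟨refl T e * refl T f, T.Om_le hh⟩ : T.O) =
        ⟨refl T e, refl_mem T e⟩ * ⟨refl T f, refl_mem T f⟩ := rfl
    rw [h7, map_mul, map_mul, h5, h6] at h4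
    exact absurd h4 (by decide)

/-- the joint stabiliser is trivial up to sign -/
theorem model_final (h2 : (2 : F) ≠ 0) {ν a : F} (hν0 : ν ≠ 0) (ha : a ≠ 0) (hν : ¬ IsSquare ν)
    (hodd : Odd (finrank F K)) (h1 : 1 < finrank F K)
    (hneg : LinearEquiv.neg F ∈ (mdl (K := K) h2 ν a hν0 ha).Om) :
    ∃ g ∈ (mdl (K := K) h2 ν a hν0 ha).Om, ∀ h ∈ (mdl (K := K) h2 ν a hν0 ha).Om, ∀ ε ε' : F,
      (ε = 1 ∨ ε = -1) → (ε' = 1 ∨ ε' = -1) → (∀ v, h (jj v) = ε • jj (h v)) →
      (∀ v, h (g (jj (g⁻¹ v))) = ε' • g (jj (g⁻¹ (h v)))) →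
      (∀ v, h v = v) ∨ ∀ v, h v = -v := by
  obtain ⟨g, hg, H⟩ := model_main (K := K) h2 hν0 ha hν hodd h1
  refine ⟨g, hg, fun h hh ε ε' hε hε' H1 H2 => ?_⟩
  obtain ⟨δ₁, δ₂, p, h₁, h₂, hp, hv⟩ := H h (QSp.Om_le _ hh) ε ε' hε hε' H1 H2
  rcases hp with rfl | rfl
  · left
    apply signs h2 hν0 ha hν hh h₁ h₂
    intro v
    rw [hv, one_smul, one_smul]
  · right
    have h3 := signs h2 hν0 ha hν (h := LinearEquiv.neg F * h) (Subgroup.mul_mem _ hneg hh)
      (δ₁ := -δ₁) (δ₂ := -δ₂)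
      (by rcases h₁ with h | h <;> rw [h] <;> simp) (by rcases h₂ with h | h <;> rw [h] <;> simp)
      (fun v => by
        rw [mul_apply', LinearEquiv.neg_apply, hv]
        refine Prod.ext ?_ (Prod.ext ?_ (Prod.ext ?_ ?_))
        · simp
        · simp
        · simp
        · simp)
    intro v
    have h4 := h3 v
    rw [mul_apply', LinearEquiv.neg_apply] at h4
    rw [← h4, neg_neg, h4]

end

section transfer
variable {F V W : Type*} [Field F] [AddCommGroup V] [Module F V] [AddCommGroup W] [Module F W]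

/-- conjugation by a linear equivalence -/
def cj (Φ : W ≃ₗ[F] V) : (W ≃ₗ[F] W) →* (V ≃ₗ[F] V) where
  toFun g := (Φ.symm.trans g).trans Φ
  map_one' := by
    apply LinearEquiv.ext
    intro v
    exact Φ.apply_symm_apply v
  map_mul' a b := by
    apply LinearEquiv.ext
    intro v
    change Φ (a (b (Φ.symm v))) = Φ (a (Φ.symm (Φ (b (Φ.symm v)))))
    rw [LinearEquiv.symm_apply_apply]

theorem cj_apply (Φ : W ≃ₗ[F] V) (g : W ≃ₗ[F] W) (v : V) : cj Φ g v = Φ (g (Φ.symm v)) := rfl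

theorem cj_mem_Om (S : QSp F V) (T : QSp F W) (Φ : W ≃ₗ[F] V) (hΦ : ∀ w, S.Q (Φ w) = T.Q w)
    {g : W ≃ₗ[F] W} (hg : g ∈ T.Om) : cj Φ g ∈ S.Om := by
  have h1 : T.O.map (cj Φ) ≤ S.O := by
    rintro _ ⟨g, hg, rfl⟩ v
    change S.Q (Φ (g (Φ.symm v))) = _
    rw [hΦ, hg, ← hΦ, LinearEquiv.apply_symm_apply]
  have h2 : T.Om.map (cj Φ) ≤ S.Om := by
    unfold QSp.Om
    rw [Subgroup.map_commutator]
    exact Subgroup.commutator_mono h1 h1
  exact h2 ⟨g, hg, rfl⟩

/-- the orthogonal double -/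
def dbl (S : QSp F V) : QSp F (V × V) where
  Q v := S.Q v.1 + S.Q v.2
  B := LinearMap.mk₂ F (fun v w => S.B v.1 w.1 + S.B v.2 w.2)
    (fun x y z => by simp only [Prod.fst_add, Prod.snd_add, map_add, LinearMap.add_apply]; ring)
    (fun c x y => by
      simp only [Prod.smul_fst, Prod.smul_snd, map_smul, LinearMap.smul_apply, smul_eq_mul]; ring)
    (fun x y z => by simp only [Prod.fst_add, Prod.snd_add, map_add]; ring)
    (fun c x y => by simp only [Prod.smul_fst, Prod.smul_snd, map_smul, smul_eq_mul]; ring)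
  add x y := by
    rw [LinearMap.mk₂_apply, Prod.fst_add, Prod.snd_add, S.add, S.add]; ring
  smul c x := by
    rw [Prod.smul_fst, Prod.smul_snd, S.smul, S.smul]; ring
  nd := by
    intro x hx
    simp only [LinearMap.mk₂_apply] at hx
    refine Prod.ext (S.nd _ fun y => ?_) (S.nd _ fun y => ?_)
    · have := hx (y, 0)
      simpa using this
    · have := hx (0, y)
      simpa using this

/-- minus the identity is a commutator in the double -/
theorem neg_mem_dbl (S : QSp F V) : LinearEquiv.neg F ∈ (dbl S).Om := by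
  let A : (V × V) ≃ₗ[F] (V × V) := LinearEquiv.prodComm F V V
  let B : (V × V) ≃ₗ[F] (V × V) := (LinearEquiv.refl F V).prodCongr (LinearEquiv.neg F)
  have hA : ∀ v, A v = (v.2, v.1) := fun v => rfl
  have hB : ∀ v, B v = (v.1, -v.2) := fun v => rfl
  have hAi : A⁻¹ = A := by
    rw [inv_eq_iff_mul_eq_one]
    apply LinearEquiv.ext
    intro v
    rw [mul_apply', hA, hA]; rfl
  have hBi : B⁻¹ = B := by
    rw [inv_eq_iff_mul_eq_one]
    apply LinearEquiv.ext
    intro v
    rw [mul_apply', hB, hB, neg_neg]; rfl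
  have h1 : LinearEquiv.neg F = ⁅A, B⁆ := by
    rw [commutatorElement_def, hAi, hBi]
    apply LinearEquiv.ext
    intro v
    rw [mul_apply', mul_apply', mul_apply', hB v, hA, hB, hA, LinearEquiv.neg_apply]
    rfl
  rw [h1]
  refine Subgroup.commutator_mem_commutator (fun v => ?_) (fun v => ?_)
  · change S.Q v.2 + S.Q v.1 = S.Q v.1 + S.Q v.2
    ring
  · change S.Q v.1 + S.Q (-v.2) = S.Q v.1 + S.Q v.2
    rw [Qneg]

end transfer

section iso
variable {F : Type*} [Field F] [Finite F]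

/-- minus the identity is in the commutator subgroup -/
theorem neg_mem (h2 : (2 : F) ≠ 0) {V : Type*} [AddCommGroup V] [Module F V]
    [FiniteDimensional F V] (S : QSp F V) {n k : ℕ} (hk : n + 1 = k + k)
    (hV : finrank F V = 2 * (n + 1)) (U U' : Submodule F V) (hU : U ⊓ perp S U = ⊥)
    (hU' : U' ⊓ perp S U' = ⊥) (orth : ∀ x ∈ U, ∀ y ∈ U', S.B x y = 0)
    (dU : finrank F U = n + 1) (dU' : finrank F U' = n + 1)
    (mU : ∀ W ≤ U, (∀ x ∈ W, S.Q x = 0) → finrank F W ≠ k)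
    (mU' : ∀ W ≤ U', (∀ x ∈ W, S.Q x = 0) → finrank F W ≠ k) : LinearEquiv.neg F ∈ S.Om := by
  have hsub : ∀ W : Submodule F V, ∀ hW : W ⊓ perp S W = ⊥,
      (∀ Z ≤ W, (∀ x ∈ Z, S.Q x = 0) → finrank F Z ≠ k) →
      ∀ Z : Submodule F W, (∀ x ∈ Z, (sub S W hW).Q x = 0) → finrank F Z ≠ k := by
    intro W hW h Z hZ
    rw [← Submodule.finrank_map_subtype_eq]
    apply h _ (Submodule.map_subtype_le W Z)
    rintro _ ⟨z, hz, rfl⟩
    exact hZ z hz
  obtain ⟨c, hc, φ, hφ⟩ := exists_diag h2 (sub S U hU) dU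
  obtain ⟨c', hc', φ', hφ'⟩ := exists_diag h2 (sub S U' hU') dU'
  have n1 := not_square_of_minus h2 (sub S U hU) (by omega) (hsub U hU mU) hk hc φ hφ
  have n2 := not_square_of_minus h2 (sub S U' hU') (by omega) (hsub U' hU' mU') hk hc' φ' hφ'
  have hm1 : ((-1 : F)) ^ k ≠ 0 := pow_ne_zero _ (neg_ne_zero.2 one_ne_zero)
  obtain ⟨R, hR⟩ := Rel.of_sq h2 n c c' hc hc' (sq_of_two n1 n2 hm1)
  let ρ : U →ₗ[F] V := U'.subtype ∘ₗ (φ'.symm : (Fin (n + 1) → F) →ₗ[F] U') ∘ₗ R ∘ₗ
    (φ : U →ₗ[F] (Fin (n + 1) → F))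
  have hρU : ∀ u, ρ u ∈ U' := fun u => (φ'.symm (R (φ u))).2
  have hρ : ∀ u, S.Q (ρ u) = S.Q u.1 := by
    intro u
    have h3 := hφ' (φ'.symm (R (φ u)))
    rw [LinearEquiv.apply_symm_apply, hR, hφ] at h3
    exact h3.symm
  let Φ₀ : (U × U) →ₗ[F] V := U.subtype.coprod ρ
  have hΦ₀ : ∀ v, Φ₀ v = v.1.1 + ρ v.2 := fun v => rfl
  have hQ : ∀ v, S.Q (Φ₀ v) = (dbl (sub S U hU)).Q v := by
    intro v
    rw [hΦ₀, S.add, hρ, orth _ v.1.2 _ (hρU _), add_zero]
    rfl
  have hinj : Function.Injective Φ₀ := isom_inj hQ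
  have hfr : finrank F (U × U) = finrank F V := by
    rw [Module.finrank_prod, dU, hV]; ring
  let Φ : (U × U) ≃ₗ[F] V := LinearEquiv.ofBijective Φ₀ ⟨hinj,
    (LinearMap.injective_iff_surjective_of_finrank_eq_finrank hfr).1 hinj⟩
  have h3 := cj_mem_Om S (dbl (sub S U hU)) Φ hQ (neg_mem_dbl (sub S U hU))
  have h4 : cj Φ (LinearEquiv.neg F) = LinearEquiv.neg F := by
    apply LinearEquiv.ext
    intro v
    rw [cj_apply, LinearEquiv.neg_apply, map_neg, LinearEquiv.apply_symm_apply,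
      LinearEquiv.neg_apply]
  rwa [h4] at h3

end iso

end Pool.Agent.H8Base
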