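import Mathlib
import Pool.Agent.OmegaEven.Defs

set_option autoImplicit false
set_option linter.unusedVariables false

/-! Definitions: decompositions into subspaces of minus type and base sizes. -/

namespace Pool.Agent.H8Base

open Pool.Agent.OmegaEven

section groups

/-- `b(G, G/H)`: the least size of a set of cosets of `H` with trivial pointwise stabiliser -/
noncomputable def baseSize (G : Type*) [Group G] (H : Subgroup G) : ℕ∞ :=
  ⨅ T ∈ {T : Set (G ⧸ H) | ∀ g : G, (∀ x ∈ T, g • x = x) → g = 1}, T.encard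

end groups

variable {F V : Type*} [Field F] [AddCommGroup V] [Module F V]

/-- the orthogonal complement of a subspace with respect to the polar form of `Q` -/
def orth (Q : QuadraticForm F V) (U : Submodule F V) : Submodule F V where
  carrier := {x | ∀ u ∈ U, QuadraticMap.polar Q x u = 0}
  add_mem' := by
    intro a b ha hb u hu
    rw [QuadraticMap.polar_add_left, ha u hu, hb u hu, add_zero]
  zero_mem' := by
    intro u hu
    rw [QuadraticMap.polar_zero_left]
  smul_mem' := by
    intro c x hx u hu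
    rw [QuadraticMap.polar_smul_left, hx u hu, smul_zero]

/-- `U` is a nondegenerate subspace of dimension `m` and of minus type: it has no totally singular
subspace of dimension `m / 2` (`m` is even where this is used) -/
def MinusType (Q : QuadraticForm F V) (m : ℕ) (U : Submodule F V) : Prop :=
  Module.finrank F U = m ∧ (∀ x ∈ U, (∀ y ∈ U, QuadraticMap.polar Q x y = 0) → x = 0) ∧
    ∀ W ≤ U, (∀ x ∈ W, Q x = 0) → 2 * Module.finrank F W < m

/-- `g` maps the pair `{U, U'}` to itself -/
def Permutes (U U' : Submodule F V) (g : V ≃ₗ[F] V) : Prop :=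
  ((∀ x, g x ∈ U ↔ x ∈ U) ∧ ∀ x, g x ∈ U' ↔ x ∈ U') ∨
    ((∀ x, g x ∈ U' ↔ x ∈ U) ∧ ∀ x, g x ∈ U ↔ x ∈ U')

theorem Permutes.one (U U' : Submodule F V) : Permutes U U' (1 : V ≃ₗ[F] V) :=
  Or.inl ⟨fun _ => Iff.rfl, fun _ => Iff.rfl⟩

theorem Permutes.mul {U U' : Submodule F V} {g h : V ≃ₗ[F] V} (hg : Permutes U U' g)
    (hh : Permutes U U' h) : Permutes U U' (g * h) := by
  rcases hg with ⟨a1, a2⟩ | ⟨a1, a2⟩ <;> rcases hh with ⟨b1, b2⟩ | ⟨b1, b2⟩
  · exact Or.inl ⟨fun x => (a1 (h x)).trans (b1 x), fun x => (a2 (h x)).trans (b2 x)⟩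
  · exact Or.inr ⟨fun x => (a2 (h x)).trans (b1 x), fun x => (a1 (h x)).trans (b2 x)⟩
  · exact Or.inr ⟨fun x => (a1 (h x)).trans (b1 x), fun x => (a2 (h x)).trans (b2 x)⟩
  · exact Or.inl ⟨fun x => (a2 (h x)).trans (b1 x), fun x => (a1 (h x)).trans (b2 x)⟩

theorem Permutes.inv {U U' : Submodule F V} {g : V ≃ₗ[F] V} (hg : Permutes U U' g) :
    Permutes U U' g⁻¹ := by
  have h : ∀ x, g (g⁻¹ x) = x := fun x => g.apply_symm_apply x
  rcases hg with ⟨a1, a2⟩ | ⟨a1, a2⟩
  · exact Or.inl ⟨fun x => by rw [← a1, h], fun x => by rw [← a2, h]⟩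
  · exact Or.inr ⟨fun x => by rw [← a2, h], fun x => by rw [← a1, h]⟩

/-- the stabiliser in `Ω(Q)` of the decomposition `V = U ⊥ U^⊥`; for `U` and its orthogonal
complement of minus type and dimension `m` this is the subgroup of type `O^-_m(q) ≀ S_2` -/
def decompStab (Q : QuadraticForm F V) (U : Submodule F V) : Subgroup (Omega Q) where
  carrier := {g | Permutes U (orth Q U) g.1}
  mul_mem' := Permutes.mul
  one_mem' := Permutes.one U (orth Q U)
  inv_mem' := Permutes.inv

/-- the image of the stabiliser of the decomposition in `PΩ(Q)` -/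
def decompImage (Q : QuadraticForm F V) (U : Submodule F V) : Subgroup (POmega Q) :=
  (decompStab Q U).map (QuotientGroup.mk' (scalarsIn Q))

end Pool.Agent.H8Base
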