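import Mathlib
import Pool.Agent.OmegaEven.Both

set_option autoImplicit false
set_option linter.unusedSectionVars false
set_option linter.unusedVariables false
set_option linter.unnecessarySeqFocus false
set_option linter.style.haveILetI false
set_option linter.unusedSimpArgs false

/-! Two decompositions into minus type subspaces in characteristic two always have a common
nontrivial stabiliser; the argument is the one of the split case in `OmegaEven.Both`. -/

namespace Pool.Agent.H8Base

open Module Pool.Agent.OmegaEven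

variable {F V : Type*} [Field F] [CharP F 2] [Finite F] [AddCommGroup V] [Module F V]
  [FiniteDimensional F V] (S : QSp F V)

theorem split_stab (hV : 4 < finrank F V) {g : V ≃ₗ[F] V} (hg : g ∈ S.O)
    (X : Submodule F V) (hX : X ⊓ S.perp X = ⊥) (hY : S.perp X ⊓ S.perp (S.perp X) = ⊥)
    (nhX : ¬ Half (S.sub X hX)) (nhY : ¬ Half (S.sub (S.perp X) hY)) :
    ∃ h ∈ S.Om, h ≠ 1 ∧ (∀ x ∈ X, h x ∈ X) ∧ (∀ x ∈ S.perp X, h x ∈ S.perp X) ∧
      (∀ x ∈ X, g⁻¹ (h (g x)) ∈ X) ∧ ∀ x ∈ S.perp X, g⁻¹ (h (g x)) ∈ S.perp X := by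
  haveI : PerfectRing F 2 := inferInstance
  haveI : Nontrivial V := by
    apply Module.nontrivial_of_finrank_pos (R := F); omega
  by_contra hobs
  have hcompl : IsCompl X (S.perp X) := by
    refine ⟨disjoint_iff.2 hX, codisjoint_iff.2 ?_⟩
    apply Submodule.eq_top_of_finrank_eq
    have h1 := Submodule.finrank_sup_add_finrank_inf_eq X (S.perp X)
    rw [hX, finrank_bot, add_zero] at h1
    have h3 := S.finrank_perp X
    omega
  obtain ⟨J, hJ1, hJ0⟩ : ∃ J : V →ₗ[F] V, (∀ x ∈ X, J x = x) ∧ ∀ x ∈ S.perp X, J x = 0 := by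
    refine ⟨X.subtype ∘ₗ X.projectionOnto (S.perp X) hcompl, ?_, ?_⟩
    · intro x hx
      have := Submodule.projectionOnto_apply_left hcompl ⟨x, hx⟩
      rw [LinearMap.comp_apply]
      exact congrArg Subtype.val this
    · intro x hx
      rw [LinearMap.comp_apply, (Submodule.projectionOnto_apply_eq_zero_iff hcompl).2 hx]
      rfl
  have hdec : ∀ v, ∃ x ∈ X, ∃ y ∈ S.perp X, v = x + y := by
    intro v
    have : v ∈ X ⊔ S.perp X := by rw [hcompl.sup_eq_top]; trivial
    obtain ⟨x, hx, y, hy, h⟩ := Submodule.mem_sup.1 this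
    exact ⟨x, hx, y, hy, h.symm⟩
  have hJX : ∀ v, J v ∈ X := by
    intro v
    obtain ⟨x, hx, y, hy, rfl⟩ := hdec v
    rw [map_add, hJ1 x hx, hJ0 y hy, add_zero]; exact hx
  have hJJ : ∀ x, J (J x) = J x := fun x => hJ1 _ (hJX x)
  have hXY : ∀ x ∈ X, ∀ y ∈ S.perp X, S.B x y = 0 := by
    intro x hx y hy
    rw [S.symm]; exact hy x hx
  have hJs : ∀ x y, S.B (J x) y = S.B x (J y) := by
    intro v w
    obtain ⟨x, hx, y, hy, rfl⟩ := hdec v
    obtain ⟨x', hx', y', hy', rfl⟩ := hdec w
    simp only [map_add, LinearMap.add_apply, hJ1 x hx, hJ0 y hy, hJ1 x' hx', hJ0 y' hy',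
      hXY x hx y' hy', hy x' hx', add_zero]
  have hrangeX : LinearMap.range J = X := by
    apply le_antisymm
    · rintro _ ⟨x, rfl⟩; exact hJX x
    · intro x hx; exact ⟨x, hJ1 x hx⟩
  have hJa : ∀ x, S.B (J x) x = 0 := by
    intro x
    rw [← hJJ, hJs]; exact S.self _
  have hadj : ∀ x y, S.B (g x) y = S.B x (g⁻¹ y) := by
    intro x y
    rw [← S.O_B hg x (g⁻¹ y), apply_inv_self']
  obtain ⟨J', hJ'⟩ : ∃ J' : V →ₗ[F] V, ∀ x, J' x = g (J (g⁻¹ x)) :=
    ⟨g.toLinearMap ∘ₗ J ∘ₗ (g⁻¹).toLinearMap, fun x => rfl⟩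
  have P : Pair S J J' 0 := by
    refine ⟨?_, ?_, hJs, ?_, hJa, ?_⟩
    · intro x; rw [hJJ, zero_smul, add_zero]
    · intro x
      rw [hJ', hJ', inv_apply_self', hJJ, zero_smul, add_zero]
    · intro x y
      rw [hJ', hJ', hadj, hJs, ← S.O_B hg (g⁻¹ x), apply_inv_self']
    · intro x
      rw [hJ', hadj]
      exact hJa _
  -- elements commuting with `J` and `J'`
  have key : ∀ h ∈ S.Om, (∀ x, h (J x) = J (h x)) → (∀ x, h (J' x) = J' (h x)) → h = 1 := by
    intro h hh hhJ hhJ'
    by_contra h1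
    apply hobs
    have hperp : ∀ x, x ∈ S.perp X ↔ J x = 0 := by
      intro x
      constructor
      · exact hJ0 x
      · intro hx
        obtain ⟨x1, hx1, y1, hy1, rfl⟩ := hdec x
        rw [map_add, hJ1 x1 hx1, hJ0 y1 hy1, add_zero] at hx
        rw [hx, zero_add]; exact hy1
    have hhg : ∀ x, g⁻¹ (h (g (J x))) = J (g⁻¹ (h (g x))) := by
      intro x
      have h3 := hhJ' (g x)
      rw [hJ', hJ', inv_apply_self'] at h3
      rw [h3, inv_apply_self']
    refine ⟨h, hh, h1, ?_, ?_, ?_, ?_⟩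
    · intro x hx
      rw [← hJ1 x hx, hhJ]; exact hJX _
    · intro x hx
      rw [hperp] at hx ⊢
      rw [← hhJ, hx, map_zero]
    · intro x hx
      rw [← hJ1 x hx, hhg]; exact hJX _
    · intro x hx
      rw [hperp] at hx ⊢
      rw [← hhg, hx, map_zero, map_zero, map_zero]
  have hinv1 : ∀ M, (h : SqZ S J J' M) → (∀ x, inv1 M h.1 (J x) = J (inv1 M h.1 x)) ∧
      (∀ x, inv1 M h.1 (J' x) = J' (inv1 M h.1 x)) := by
    intro M h
    constructor
    · intro x
      rw [inv1_apply, inv1_apply, h.2.1, map_add]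
    · intro x
      rw [inv1_apply, inv1_apply, h.2.2.1, map_add]
  have C1 : ∀ M : V →ₗ[F] V, SqZ S J J' M → Even (finrank F (LinearMap.range M)) → M = 0 := by
    intro M hM hev
    have h1 := key _ (S.inv1_mem hV ⟨hM.1, hM.2.2.2⟩ hev) (hinv1 M hM).1 (hinv1 M hM).2
    ext x
    have h3 := LinearEquiv.congr_fun h1 x
    rw [inv1_apply] at h3
    exact add_eq_left.1 h3
  have C2 : ∀ M : V →ₗ[F] V, SqZ S J J' M → ∀ b, NS S J J' b → ∀ x, S.B x b = 0 → M x = 0 := by
    intro M hM b hb x hx
    rcases Nat.even_or_odd (finrank F (LinearMap.range M)) with hev | hodd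
    · rw [C1 M hM hev]; rfl
    · have h1 := key _ ((S.inv1_mem_aux hV _ M ⟨hM.1, hM.2.2.2⟩ rfl).2 hodd b hb.1)
        (fun y => by
          rw [mul_apply', mul_apply', (hinv1 M hM).1, refl_comm S hJs hb.2.1])
        (fun y => by
          rw [mul_apply', mul_apply', (hinv1 M hM).2, refl_comm S P.Js' hb.2.2])
      have h3 : S.refl b = inv1 M hM.1 := by
        have h4 : S.refl b * (S.refl b * inv1 M hM.1) = S.refl b * 1 := by rw [h1]
        rw [← mul_assoc, S.refl_refl, one_mul, mul_one] at h4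
        exact h4.symm
      have h4 := LinearEquiv.congr_fun h3 x
      rw [S.refl_apply, hx, mul_zero, zero_smul, inv1_apply] at h4
      exact (add_left_cancel h4).symm
  have hgid : ∀ (A : V →ₗ[F] V) x, (LinearMap.id + A : V →ₗ[F] V) x = x + A x := fun A x => rfl
  have hsq : ∀ M, SqZ S (LinearMap.id + J) (LinearMap.id + J') M → SqZ S J J' M := by
    rintro M ⟨h1, h3, h4, h5⟩
    refine ⟨h1, ?_, ?_, h5⟩
    · intro x
      have h6 := h3 x
      rw [hgid, hgid, map_add] at h6
      exact add_left_cancel h6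
    · intro x
      have h6 := h4 x
      rw [hgid, hgid, map_add] at h6
      exact add_left_cancel h6
  have hflip : ∀ (A : V →ₗ[F] V) p, ((LinearMap.id + A : V →ₗ[F] V) p = p ∨
      (LinearMap.id + A : V →ₗ[F] V) p = 0) → (A p = p ∨ A p = 0) := by
    intro A p h
    rw [hgid] at h
    rcases h with h | h
    · right; exact add_eq_left.1 h
    · left; exact (eq_of_add_eq_zeroV F h).symm
  have hNS : ∀ p, NS S (LinearMap.id + J) (LinearMap.id + J') p → NS S J J' p := by
    rintro p ⟨h1, h3, h4⟩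
    exact ⟨h1, hflip J p h3, hflip J' p h4⟩
  have toHalf : ∀ (W : Submodule F V) (hW : W ⊓ S.perp W = ⊥) (A : V →ₗ[F] V),
      LinearMap.range A = W → HalfX S A → Half (S.sub W hW) := by
    rintro W hW A rfl ⟨U, hU, hUQ, hUd⟩
    refine ⟨U.comap (LinearMap.range A).subtype, ?_, ?_⟩
    · intro x hx
      exact hUQ x.1 hx
    · rw [← hUd, ← Submodule.finrank_map_subtype_eq, Submodule.map_comap_subtype,
        inf_eq_right.2 hU]
  have hrangeY : LinearMap.range (LinearMap.id + J : V →ₗ[F] V) = S.perp X := by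
    apply le_antisymm
    · rintro _ ⟨v, rfl⟩
      obtain ⟨x, hx, y, hy, rfl⟩ := hdec v
      rw [hgid, map_add, hJ1 x hx, hJ0 y hy, add_zero, add_comm x y, add_assoc, add_selfV F,
        add_zero]
      exact hy
    · intro x hx
      exact ⟨x, by rw [hgid, hJ0 x hx, add_zero]⟩
  obtain ⟨p, hpN, hpJ⟩ : ∃ p, NS S J J' p ∧ J p = p := by
    rcases z_main _ V S J J' rfl P C1 C2 with h | h
    · exact absurd (toHalf X hX J hrangeX h) nhX
    · exact h
  obtain ⟨p', hpN', hpJ'⟩ : ∃ p, NS S J J' p ∧ J p = 0 := by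
    have P' : Pair S (LinearMap.id + J) (LinearMap.id + J') 0 := by
      refine ⟨?_, ?_, ?_, ?_, ?_, ?_⟩
      · intro x
        rw [hgid, hgid, map_add, hJJ, add_selfV F, add_zero, zero_smul, add_zero]
      · intro x
        have h3 : J' (J' x) = J' x := by
          have := P.JJ' x
          rwa [zero_smul, add_zero] at this
        rw [hgid, hgid, map_add, h3, add_selfV F, add_zero, zero_smul, add_zero]
      · intro x y
        rw [hgid, hgid, map_add, map_add, LinearMap.add_apply, hJs]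
      · intro x y
        rw [hgid, hgid, map_add, map_add, LinearMap.add_apply, P.Js']
      · intro x
        rw [hgid, map_add, LinearMap.add_apply, hJa, S.self, add_zero]
      · intro x
        rw [hgid, map_add, LinearMap.add_apply, P.Ja', S.self, add_zero]
    rcases z_main _ V S (LinearMap.id + J) (LinearMap.id + J') rfl P'
      (fun M hM hev => C1 M (hsq M hM) hev)
      (fun M hM b hb x hx => C2 M (hsq M hM) b (hNS b hb) x hx) with h | ⟨p', h1, h3⟩
    · exact absurd (toHalf _ hY _ hrangeY h) nhY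
    · refine ⟨p', hNS p' h1, ?_⟩
      rw [hgid] at h3
      exact add_eq_left.1 h3
  -- the product of the two reflections
  have h1 := key _ (S.refl_refl_mem hV hpN.1 hpN'.1)
    (fun y => by
      rw [mul_apply', mul_apply', refl_comm S hJs hpN'.2.1, refl_comm S hJs hpN.2.1])
    (fun y => by
      rw [mul_apply', mul_apply', refl_comm S P.Js' hpN'.2.2, refl_comm S P.Js' hpN.2.2])
  have h3 : S.refl p' = S.refl p := by
    have h4 : S.refl p * (S.refl p * S.refl p') = S.refl p * 1 := by rw [h1]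
    rwa [← mul_assoc, S.refl_refl, one_mul, mul_one] at h4
  have hp0 : p ≠ 0 := by
    rintro rfl
    exact hpN.1 S.Q_zero
  obtain ⟨x, hx⟩ := S.exists_ne hp0
  have h4 := LinearEquiv.congr_fun h3 x
  rw [S.refl_apply, S.refl_apply, hx, mul_one] at h4
  have h5 := congrArg J (add_left_cancel h4)
  rw [map_smul, map_smul, hpJ, hpJ', smul_zero] at h5
  rcases smul_eq_zero.1 h5.symm with h6 | h6
  · exact hpN.1 (inv_eq_zero.1 h6)
  · exact hp0 h6


end Pool.Agent.H8Base
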