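import Mathlib
import Pool.Agent.OmegaEven.Both

set_option autoImplicit false
set_option linter.unusedSectionVars false
set_option linter.unusedVariables false
set_option linter.unnecessarySeqFocus false
set_option linter.style.haveILetI false
set_option linter.unusedSimpArgs false

/-! Quadratic spaces of minus type over finite fields of characteristic two. -/

namespace Pool.Agent.H8Base

open Module Pool.Agent.OmegaEven

section
variable {F X : Type*} [Field F] [CharP F 2] [AddCommGroup X] [Module F X] (S : QSp F X)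

/-- a singular vector in dimension three -/
theorem exists_sing2 [PerfectRing F 2] [FiniteDimensional F X] (hX : 3 ≤ finrank F X) :
    ∃ u : X, u ≠ 0 ∧ S.Q u = 0 := by
  haveI : Nontrivial X := Module.nontrivial_of_finrank_pos (R := F) (by omega)
  obtain ⟨x, hx⟩ := exists_ne (0 : X)
  by_cases hQ : S.Q x = 0
  · exact ⟨x, hx, hQ⟩
  have h1 := S.finrank_perp (F ∙ x)
  rw [finrank_span_singleton hx] at h1
  obtain ⟨y, hy, hyx⟩ : ∃ y ∈ S.perp (F ∙ x), ∀ c : F, y ≠ c • x := by
    by_contra hcon
    push Not at hcon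
    have h3 : S.perp (F ∙ x) ≤ F ∙ x := by
      intro y hy
      obtain ⟨c, hc⟩ := hcon y hy
      rw [hc]
      exact Submodule.smul_mem _ _ (Submodule.mem_span_singleton_self x)
    have h4 := Submodule.finrank_mono h3
    rw [finrank_span_singleton hx] at h4
    omega
  have hB : S.B y x = 0 := hy x (Submodule.mem_span_singleton_self x)
  refine ⟨y + rt (S.Q y / S.Q x) • x, ?_, ?_⟩
  · intro h
    exact hyx _ (eq_of_add_eq_zeroV F h)
  · rw [S.add, S.smul, rt_sq, map_smul, hB, smul_zero, add_zero, div_mul_cancel₀ _ hQ]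
    exact CharTwo.add_self_eq_zero _

/-- hyperbolic pairs -/
theorem exists_hyp {u : X} (hu0 : u ≠ 0) (hu : S.Q u = 0) :
    ∃ v, S.Q v = 0 ∧ S.B u v = 1 := by
  obtain ⟨y, hy⟩ := S.exists_ne hu0
  refine ⟨y + S.Q y • u, ?_, ?_⟩
  · rw [S.add, S.smul, hu, map_smul, hy, mul_zero, add_zero, smul_eq_mul, mul_one]
    exact CharTwo.add_self_eq_zero _
  · rw [map_add, map_smul, S.self, smul_zero, add_zero, S.symm, hy]

/-- the orthogonal complement of a hyperbolic pair -/
def cpl (u v : X) : Submodule F X where
  carrier := {x | S.B x u = 0 ∧ S.B x v = 0}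
  add_mem' := by
    rintro a b ⟨h1, h2⟩ ⟨h3, h4⟩
    exact ⟨by rw [map_add, LinearMap.add_apply, h1, h3, add_zero],
      by rw [map_add, LinearMap.add_apply, h2, h4, add_zero]⟩
  zero_mem' := ⟨by rw [map_zero, LinearMap.zero_apply], by rw [map_zero, LinearMap.zero_apply]⟩
  smul_mem' := by
    rintro c x ⟨h1, h2⟩
    exact ⟨by rw [map_smul, LinearMap.smul_apply, h1, smul_zero],
      by rw [map_smul, LinearMap.smul_apply, h2, smul_zero]⟩

variable {u v : X} (hu : S.Q u = 0) (hv : S.Q v = 0) (huv : S.B u v = 1)
include hu hv huv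

theorem cpl_mem (x : X) : x + S.B x v • u + S.B x u • v ∈ cpl S u v := by
  have hvu : S.B v u = 1 := by rw [S.symm]; exact huv
  constructor
  · simp only [map_add, map_smul, LinearMap.add_apply, LinearMap.smul_apply, S.self, hvu,
      smul_eq_mul, mul_zero, add_zero, mul_one]
    exact CharTwo.add_self_eq_zero _
  · simp only [map_add, map_smul, LinearMap.add_apply, LinearMap.smul_apply, S.self, huv,
      smul_eq_mul, mul_zero, add_zero, mul_one]
    exact CharTwo.add_self_eq_zero _

/-- the projection to the complement -/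
def cplProj : X →ₗ[F] cpl S u v where
  toFun x := ⟨x + S.B x v • u + S.B x u • v, cpl_mem S hu hv huv x⟩
  map_add' x y := by
    apply Subtype.ext
    simp only [map_add, LinearMap.add_apply, Submodule.coe_add]
    module
  map_smul' c x := by
    apply Subtype.ext
    simp only [map_smul, LinearMap.smul_apply, Submodule.coe_smul, RingHom.id_apply, smul_eq_mul]
    module

theorem cpl_Q (x : X) : S.Q x = S.B x u * S.B x v + S.Q (cplProj S hu hv huv x).1 := by
  change _ = _ + S.Q (x + S.B x v • u + S.B x u • v)
  rw [S.add, S.add, S.smul, S.smul, hu, hv]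
  simp only [map_add, map_smul, LinearMap.add_apply, LinearMap.smul_apply, huv, smul_eq_mul]
  linear_combination (norm := (ring_nf; reduce_mod_char!)) (0 : F)

omit hu hv in
theorem cpl_disj : cpl S u v ⊓ S.perp (cpl S u v) = ⊥ := by
  have hvu : S.B v u = 1 := by rw [S.symm]; exact huv
  rw [eq_bot_iff]
  rintro x ⟨⟨h1, h2⟩, h3⟩
  rw [Submodule.mem_bot]
  apply S.nd
  intro y
  have h5 : y + S.B y v • u + S.B y u • v ∈ cpl S u v := by
    constructor
    · simp only [map_add, map_smul, LinearMap.add_apply, LinearMap.smul_apply, S.self, hvu,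
        smul_eq_mul, mul_zero, add_zero, mul_one]
      exact CharTwo.add_self_eq_zero _
    · simp only [map_add, map_smul, LinearMap.add_apply, LinearMap.smul_apply, S.self, huv,
        smul_eq_mul, mul_zero, add_zero, mul_one]
      exact CharTwo.add_self_eq_zero _
  have h4 := h3 _ h5
  rwa [map_add, map_add, map_smul, map_smul, h1, h2, smul_zero, smul_zero, add_zero,
    add_zero] at h4

theorem cpl_finrank [FiniteDimensional F X] : finrank F X = finrank F (cpl S u v) + 2 := by
  have hvu : S.B v u = 1 := by rw [S.symm]; exact huv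
  have hsurj : Function.Surjective (cplProj S hu hv huv) := by
    rintro ⟨x, h1, h2⟩
    refine ⟨x, Subtype.ext ?_⟩
    change x + S.B x v • u + S.B x u • v = x
    rw [h1, h2, zero_smul, zero_smul, add_zero, add_zero]
  have h1 := LinearMap.finrank_range_add_finrank_ker (cplProj S hu hv huv)
  rw [LinearMap.range_eq_top.2 hsurj, finrank_top] at h1
  have hker : LinearMap.ker (cplProj S hu hv huv) = Submodule.span F ({u, v} : Set X) := by
    apply le_antisymm
    · intro x hx
      have h3 : x + S.B x v • u + S.B x u • v = 0 := congrArg Subtype.val hx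
      have h4 : x = S.B x v • u + S.B x u • v := by
        rw [add_assoc] at h3
        exact eq_of_add_eq_zeroV F h3
      rw [h4]
      exact Submodule.mem_span_pair.2 ⟨_, _, rfl⟩
    · rw [Submodule.span_le]
      rintro x (rfl | rfl)
      · apply Subtype.ext
        change x + S.B x v • x + S.B x x • v = 0
        rw [huv, S.self, one_smul, zero_smul, add_zero, add_selfV F]
      · apply Subtype.ext
        change x + S.B x x • u + S.B x u • x = 0
        rw [hvu, S.self, one_smul, zero_smul, add_zero, add_selfV F]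
  have hu0 : u ≠ 0 := by
    rintro rfl
    rw [map_zero, LinearMap.zero_apply] at huv
    exact zero_ne_one huv
  have hind : ∀ c : F, v ≠ c • u := by
    rintro c rfl
    rw [map_smul, S.self, smul_zero] at huv
    exact zero_ne_one huv
  rw [hker, finrank_span_pair_of_ind hu0 hind] at h1
  exact h1.symm

/-- the complement of a hyperbolic pair inherits the type -/
theorem cpl_not_half [FiniteDimensional F X] (hH : ¬ Half S) :
    ¬ Half (S.sub (cpl S u v) (cpl_disj S huv)) := by
  have hvu : S.B v u = 1 := by rw [S.symm]; exact huv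
  rintro ⟨W, hW, hWd⟩
  apply hH
  have hW' : ∀ w ∈ W, S.Q w.1 = 0 := hW
  have hdim := cpl_finrank S hu hv huv
  let ι : (W × F) →ₗ[F] X :=
    ((cpl S u v).subtype ∘ₗ W.subtype).coprod ((LinearMap.id : F →ₗ[F] F).smulRight u)
  have hι : ∀ w : W × F, ι w = w.1.1.1 + w.2 • u := fun w => rfl
  have hιi : Function.Injective ι := by
    rw [injective_iff_map_eq_zero]
    rintro ⟨w, c⟩ h
    rw [hι] at h
    have h1 := congrArg (fun z => S.B z v) h
    simp only [map_add, map_smul, LinearMap.add_apply, LinearMap.smul_apply, huv, map_zero,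
      LinearMap.zero_apply, smul_eq_mul, mul_one] at h1
    rw [w.1.2.2, zero_add] at h1
    rw [h1, zero_smul, add_zero] at h
    refine Prod.ext (Subtype.ext (Subtype.ext h)) h1
  refine ⟨LinearMap.range ι, ?_, ?_⟩
  · rintro _ ⟨⟨w, c⟩, rfl⟩
    rw [hι, S.add, S.smul, hu, hW' w.1 w.2, map_smul, w.1.2.1]
    simp
  · rw [LinearMap.finrank_range_of_inj hιi, Module.finrank_prod, Module.finrank_self]
    omega

end

/-- spaces of minus type of the same dimension are isometric -/
theorem iso_minus {F : Type*} [Field F] [CharP F 2] [Finite F] : ∀ (k : ℕ) (X Y : Type*)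
    [AddCommGroup X] [Module F X] [FiniteDimensional F X] [AddCommGroup Y] [Module F Y]
    [FiniteDimensional F Y] (S : QSp F X) (T : QSp F Y), finrank F X = 2 * k →
    finrank F Y = 2 * k → ¬ Half S → ¬ Half T → ∃ φ : X →ₗ[F] Y, ∀ x, T.Q (φ x) = S.Q x := by
  haveI : PerfectRing F 2 := inferInstance
  intro k
  induction k with
  | zero =>
    intro X Y _ _ _ _ _ _ S T hX hY hS hT
    exfalso
    apply hS
    refine ⟨⊥, ?_, ?_⟩
    · intro x hx
      rw [Submodule.mem_bot] at hx
      rw [hx, S.Q_zero]
    · rw [finrank_bot, hX]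
  | succ k ih =>
    intro X Y _ _ _ _ _ _ S T hX hY hS hT
    by_cases hk : k = 0
    · subst hk
      refine iso_planes S T hX hY ?_ ?_
      · intro x hx
        by_contra hx0
        apply hS
        refine ⟨F ∙ x, ?_, ?_⟩
        · intro y hy
          obtain ⟨c, rfl⟩ := Submodule.mem_span_singleton.1 hy
          rw [S.smul, hx, mul_zero]
        · rw [finrank_span_singleton hx0, hX]
      · intro x hx
        by_contra hx0
        apply hT
        refine ⟨F ∙ x, ?_, ?_⟩
        · intro y hy
          obtain ⟨c, rfl⟩ := Submodule.mem_span_singleton.1 hy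
          rw [T.smul, hx, mul_zero]
        · rw [finrank_span_singleton hx0, hY]
    · obtain ⟨u, hu0, hu⟩ := exists_sing2 S (by omega)
      obtain ⟨v, hv, huv⟩ := exists_hyp S hu0 hu
      obtain ⟨u', hu0', hu'⟩ := exists_sing2 T (by omega)
      obtain ⟨v', hv', huv'⟩ := exists_hyp T hu0' hu'
      have hd := cpl_finrank S hu hv huv
      have hd' := cpl_finrank T hu' hv' huv'
      obtain ⟨φ, hφ⟩ := ih (cpl S u v) (cpl T u' v') (S.sub _ (cpl_disj S huv))
        (T.sub _ (cpl_disj T huv')) (by omega) (by omega) (cpl_not_half S hu hv huv hS)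
        (cpl_not_half T hu' hv' huv' hT)
      have hφ' : ∀ x : cpl S u v, T.Q (φ x).1 = S.Q x.1 := hφ
      refine ⟨(S.B.flip v).smulRight u' + (S.B.flip u).smulRight v' +
        (cpl T u' v').subtype ∘ₗ φ ∘ₗ cplProj S hu hv huv, fun x => ?_⟩
      have hvu' : T.B v' u' = 1 := by rw [T.symm]; exact huv'
      obtain ⟨z, hz⟩ : ∃ z, z = φ (cplProj S hu hv huv x) := ⟨_, rfl⟩
      have e1 : ((S.B.flip v).smulRight u' + (S.B.flip u).smulRight v' +
          (cpl T u' v').subtype ∘ₗ φ ∘ₗ cplProj S hu hv huv) x =
          S.B x v • u' + S.B x u • v' + z.1 := by rw [hz]; rfl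
      have hzQ : T.Q z.1 = S.Q (cplProj S hu hv huv x).1 := by rw [hz]; exact hφ' _
      have hzu : T.B z.1 u' = 0 := z.2.1
      have hzv : T.B z.1 v' = 0 := z.2.2
      rw [e1, cpl_Q S hu hv huv x, ← hzQ, T.add, T.add, T.smul, T.smul, hu', hv']
      simp only [map_add, map_smul, LinearMap.add_apply, LinearMap.smul_apply, smul_eq_mul,
        huv', T.symm u' z.1, T.symm v' z.1, hzu, hzv]
      ring

/-- the trace of an anisotropic plane is of minus type -/
theorem aniso_not_half {F K X : Type*} [Field F] [CharP F 2] [Finite F] [Field K] [Finite K]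
    [Algebra F K] [CharP K 2] [AddCommGroup X] [Module F X] [Module K X] [IsScalarTower F K X]
    (S : QSp F X) (T : QSp K X) (hT : ∀ x, T.Q x = 0 → x = 0)
    (hS : ∀ x, S.Q x = Algebra.trace F K (T.Q x)) (hX : finrank K X = 2) : ¬ Half S := by
  classical
  rintro ⟨U, hU, hUd⟩
  haveI : FiniteDimensional K X := Module.finite_of_finrank_pos (by omega)
  haveI : FiniteDimensional F K := Module.Finite.of_finite
  haveI : FiniteDimensional F X := FiniteDimensional.trans F K X
  have h1 := finrank_mul_finrank F K X
  rw [hX] at h1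
  haveI : PerfectRing K 2 := inferInstance
  haveI : Finite X := Module.finite_of_finite F
  letI : Fintype F := Fintype.ofFinite F
  letI : Fintype K := Fintype.ofFinite K
  letI : Fintype X := Fintype.ofFinite X
  set k := finrank F K with hk
  have hkpos : 0 < k := finrank_pos
  have c1 := card_aniso S T hT hS hX
  have c2 := card_plus S k hkpos (by omega) U hU (by omega)
  rw [c2, Module.card_eq_pow_finrank (K := F) (V := K), ← hk] at c1
  have hq : 1 < Fintype.card F := Fintype.one_lt_card
  have heven : 2 ∣ Fintype.card F := by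
    have := Nat.cast_card_eq_zero F
    exact (CharP.cast_eq_zero_iff F 2 _).1 this
  have heven' : 2 ∣ Fintype.card F ^ k := dvd_pow heven hkpos.ne'
  set q := Fintype.card F
  have hq0 : 1 ≤ q ^ k := Nat.one_le_pow _ _ (by omega)
  have hcop : Nat.Coprime (q ^ k + 1) (q ^ k - 1) := by
    rw [Nat.coprime_iff_gcd_eq_one]
    set d := Nat.gcd (q ^ k + 1) (q ^ k - 1) with hd
    have hd1 : d ∣ q ^ k + 1 := Nat.gcd_dvd_left _ _
    have hd2 : d ∣ q ^ k - 1 := Nat.gcd_dvd_right _ _
    have hd3 : d ∣ 2 := by
      have h3 := Nat.dvd_sub hd1 hd2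
      have h4 : q ^ k + 1 - (q ^ k - 1) = 2 := by omega
      rwa [h4] at h3
    rcases (Nat.dvd_prime Nat.prime_two).1 hd3 with h3 | h3
    · exact h3
    · exfalso
      rw [h3] at hd1
      omega
  have h3 := hcop.dvd_of_dvd_mul_left c1
  have h4 := Nat.le_of_dvd (by positivity) h3
  have h5 : q ^ (k - 1) < q ^ k := Nat.pow_lt_pow_right hq (by omega)
  omega

end Pool.Agent.H8Base
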