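import Mathlib
import Pool.Agent.H8Base.EvenIso
import Pool.Agent.H8Base.Comb

set_option autoImplicit false
set_option linter.unusedSectionVars false
set_option linter.unusedVariables false
set_option linter.unnecessarySeqFocus false
set_option linter.style.haveILetI false
set_option linter.unusedSimpArgs false

/-! Three decompositions with trivial joint stabiliser in characteristic two. -/

namespace Pool.Agent.H8Base

open Module Pool.Agent.OmegaEven

section field
variable {F K : Type*} [Field F] [Field K] [Finite K] [Algebra F K]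

/-- a generator -/
theorem exists_w : ∃ w : K, w ≠ 0 ∧ ∀ θ : K ≃ₐ[F] K, θ w = w → θ = 1 := by
  obtain ⟨g, hg⟩ := IsCyclic.exists_generator (α := Kˣ)
  have hpow : ∀ x : K, x ≠ 0 → ∃ j : ℤ, x = (g : K) ^ j := by
    intro x hx
    obtain ⟨j, hj⟩ := Subgroup.mem_zpowers_iff.1 (hg (Units.mk0 x hx))
    refine ⟨j, ?_⟩
    have := congrArg Units.val hj
    rw [Units.val_zpow_eq_zpow_val] at this
    exact this.symm
  refine ⟨g, g.ne_zero, fun θ hθ => ?_⟩
  ext x
  by_cases hx : x = 0
  · rw [hx, map_zero, map_zero]
  · obtain ⟨j, hj⟩ := hpow x hx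
    rw [hj, map_zpow₀, hθ]; rfl

/-- an involution does not fix elements of nonzero trace -/
theorem trace_fix [CharP F 2] {θ : K ≃ₐ[F] K} (h1 : θ * θ = 1) (h2 : θ ≠ 1) {c : K}
    (hc : θ c = c) : Algebra.trace F K c = 0 := by
  classical
  haveI : Finite F := Finite.of_injective _ (algebraMap F K).injective
  haveI : FiniteDimensional F K := Module.Finite.of_finite
  haveI : CharP K 2 := charP_of_injective_algebraMap (algebraMap F K).injective 2
  have h3 : algebraMap F K (Algebra.trace F K c) = ∑ σ : K ≃ₐ[F] K, σ c :=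
    trace_eq_sum_automorphisms c
  have h4 : ∑ σ : K ≃ₐ[F] K, σ c = 0 := by
    refine Finset.sum_involution (fun σ _ => σ * θ) ?_ ?_ (fun _ _ => Finset.mem_univ _) ?_
    · intro σ _
      change σ c + σ (θ c) = 0
      rw [hc]
      exact CharTwo.add_self_eq_zero _
    · intro σ _ _ h
      exact h2 (mul_eq_left.1 h)
    · intro σ _
      change σ * θ * θ = σ
      rw [mul_assoc, h1, mul_one]
  rw [h4] at h3
  exact (map_eq_zero _).1 h3

end field

end Pool.Agent.H8Base
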