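import Mathlib
import Pool.Agent.H8Base.EvenMain
import Pool.Agent.H8Base.Defs

set_option autoImplicit false
set_option linter.unusedSectionVars false
set_option linter.unusedVariables false
set_option linter.unnecessarySeqFocus false
set_option linter.style.haveILetI false
set_option linter.unusedSimpArgs false

/-! The model of three decompositions in characteristic two. -/

namespace Pool.Agent.H8Base

open Module Pool.Agent.OmegaEven

/-- a map which is semilinear for a generator is semilinear -/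
theorem semi {F K X : Type*} [Field F] [Field K] [Finite K] [Algebra F K] [AddCommGroup X]
    [Module F X] [Module K X] [IsScalarTower F K X] [Nontrivial X] {w w' : K}
    (hw : ∀ θ : K ≃ₐ[F] K, θ w = w → θ = 1) (h : X →ₗ[F] X) (hinj : Function.Injective h)
    (hh : ∀ v, h (w • v) = w' • h v) :
    ∃ θ : K ≃ₐ[F] K, (∀ (c : K) v, h (c • v) = θ c • h v) ∧ θ w = w' := by
  let S : Subalgebra F K :=
    { carrier := {c | ∃ c' : K, ∀ v, h (c • v) = c' • h v}
      mul_mem' := by
        rintro a b ⟨a', ha⟩ ⟨b', hb⟩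
        exact ⟨a' * b', fun v => by rw [mul_smul, ha, hb, mul_smul]⟩
      add_mem' := by
        rintro a b ⟨a', ha⟩ ⟨b', hb⟩
        exact ⟨a' + b', fun v => by rw [add_smul, map_add, ha, hb, add_smul]⟩
      algebraMap_mem' := fun r => ⟨algebraMap F K r, fun v => by
        rw [algebraMap_smul, algebraMap_smul, map_smul]⟩ }
  have hS : ∀ c, c ∈ S ↔ ∃ c' : K, ∀ v, h (c • v) = c' • h v := fun c => Iff.rfl
  have hwS : w ∈ S := ⟨w', hh⟩
  haveI : Finite F := Finite.of_injective _ (algebraMap F K).injective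
  let L : IntermediateField F K := S.toIntermediateField (fun c hcS => by
    by_cases h0 : c = 0
    · rw [h0, inv_zero]; exact S.zero_mem
    · have hfin : IsOfFinOrder (Units.mk0 c h0) := isOfFinOrder_of_finite _
      obtain ⟨n, hn, h2⟩ := isOfFinOrder_iff_pow_eq_one.1 hfin
      have h3 : c ^ n = 1 := by
        have := congrArg Units.val h2
        simpa using this
      have h4 : c⁻¹ = c ^ (n - 1) := by
        rw [inv_eq_of_mul_eq_one_left]
        rw [← pow_succ, Nat.sub_add_cancel hn, h3]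
      rw [h4]
      exact S.pow_mem hcS _)
  have hLS : ∀ c, c ∈ L ↔ c ∈ S := fun c => Iff.rfl
  have hbot : L.fixingSubgroup = ⊥ := by
    rw [eq_bot_iff]
    intro θ hθ
    rw [Subgroup.mem_bot]
    exact hw θ ((IntermediateField.mem_fixingSubgroup_iff L θ).1 hθ w ((hLS w).2 hwS))
  have htop : L = ⊤ := by
    rw [← IsGalois.fixedField_fixingSubgroup L, hbot, IntermediateField.fixedField_bot]
  have hall : ∀ c : K, ∃ c' : K, ∀ v, h (c • v) = c' • h v := by
    intro c
    rw [← hS, ← hLS, htop]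
    exact IntermediateField.mem_top
  choose t ht using hall
  obtain ⟨v0, hv0⟩ := exists_ne (0 : X)
  have hv : h v0 ≠ 0 := fun h2 => hv0 (hinj (h2.trans (map_zero h).symm))
  have huniq : ∀ a b : K, a • h v0 = b • h v0 → a = b := fun a b hab =>
    smul_left_injective K hv hab
  let θh : K →ₐ[F] K :=
    { toFun := t
      map_one' := huniq _ _ (by rw [← ht, one_smul, one_smul])
      map_mul' := fun a b => huniq _ _ (by rw [← ht, mul_smul, ht, ht, mul_smul])
      map_zero' := huniq _ _ (by rw [← ht, zero_smul, map_zero, zero_smul])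
      map_add' := fun a b => huniq _ _ (by rw [← ht, add_smul, map_add, ht, ht, add_smul])
      commutes' := fun r => huniq _ _ (by rw [← ht, algebraMap_smul, map_smul, algebraMap_smul]) }
  have hθb : Function.Bijective θh :=
    ⟨θh.toRingHom.injective, Finite.surjective_of_injective θh.toRingHom.injective⟩
  let θ : K ≃ₐ[F] K := AlgEquiv.ofBijective θh hθb
  have hθt : ∀ c, θ c = t c := fun c => rfl
  exact ⟨θ, ht, huniq _ _ (by rw [hθt, ← ht, hh])⟩

section perm
variable {F K X : Type*} [Field F] [Field K] [CharP K 2] [AddCommGroup X] [Module F X]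
  [Module K X]

/-- a map permuting the two summands -/
theorem eps_of_perm {h : (X × X) ≃ₗ[F] (X × X)}
    (hp : Permutes (LinearMap.ker (LinearMap.snd F X X)) (LinearMap.ker (LinearMap.fst F X X)) h) :
    ∃ ε : K, (ε = 0 ∨ ε = 1) ∧ ∀ v : X × X, h (v.1, 0) = ((h v).1, 0) + ε • h v := by
  have hsplit : ∀ v : X × X, h v = h (v.1, 0) + h (0, v.2) := by
    intro v
    rw [← map_add, Prod.mk_add_mk, add_zero, zero_add]
  rcases hp with ⟨a1, a2⟩ | ⟨a1, a2⟩
  · refine ⟨0, Or.inl rfl, fun v => ?_⟩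
    have e1 : (h (v.1, 0)).2 = 0 := (a1 (v.1, 0)).2 rfl
    have e2 : (h (0, v.2)).1 = 0 := (a2 (0, v.2)).2 rfl
    rw [hsplit v, zero_smul, add_zero]
    refine Prod.ext ?_ ?_
    · rw [Prod.fst_add, e2, add_zero]
    · exact e1
  · refine ⟨1, Or.inr rfl, fun v => ?_⟩
    have e1 : (h (v.1, 0)).1 = 0 := (a1 (v.1, 0)).2 rfl
    have e2 : (h (0, v.2)).2 = 0 := (a2 (0, v.2)).2 rfl
    rw [hsplit v, one_smul]
    refine Prod.ext ?_ ?_
    · rw [Prod.fst_add, Prod.fst_add, e1, zero_add]
      exact (add_selfV K _).symm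
    · rw [Prod.snd_add, Prod.snd_add, e2, add_zero]
      exact (zero_add _).symm

end perm

section two
variable {F K X : Type*} [Field F] [Field K] [Finite K] [Algebra F K] [CharP K 2]
  [AddCommGroup X] [Module F X] [Module K X] [IsScalarTower F K X] [Nontrivial X]

/-- the first two decompositions -/
theorem two_form {s : K} (hs0 : s ≠ 0) (hs1 : 1 + s ≠ 0)
    (hw : ∀ θ : K ≃ₐ[F] K, θ (s ^ 2) = s ^ 2 → θ = 1) {g h : (X × X) ≃ₗ[F] (X × X)}
    (hg : ∀ v : X × X, g v = (v.1 + s • (v.1 + v.2), v.2 + s • (v.1 + v.2)))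
    {ε ε' : K} (hε : ε = 0 ∨ ε = 1) (hε' : ε' = 0 ∨ ε' = 1)
    (H : ∀ v : X × X, h (v.1, 0) = ((h v).1, 0) + ε • h v)
    (H' : ∀ v : X × X, (g⁻¹ * h * g) (v.1, 0) = (((g⁻¹ * h * g) v).1, 0) +
      ε' • (g⁻¹ * h * g) v) :
    ∃ (θ : K ≃ₐ[F] K) (k : X →ₗ[F] X), θ * θ = 1 ∧ (∀ (c : K) x, k (c • x) = θ c • k x) ∧
      ((∀ x y, h (x, y) = (k x, k y)) ∨ ∀ x y, h (x, y) = (k y, k x)) := by
  have hgg : ∀ v, g (g v) = v := by
    intro v
    have e : v.1 + s • (v.1 + v.2) + (v.2 + s • (v.1 + v.2)) = v.1 + v.2 := by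
      have := add_selfV K (s • (v.1 + v.2))
      calc _ = v.1 + v.2 + (s • (v.1 + v.2) + s • (v.1 + v.2)) := by abel
        _ = _ := by rw [this, add_zero]
    rw [hg (g v), hg v]
    refine Prod.ext ?_ ?_
    · change v.1 + s • (v.1 + v.2) + s • (v.1 + s • (v.1 + v.2) + (v.2 + s • (v.1 + v.2))) = v.1
      rw [e, add_assoc, add_selfV K, add_zero]
    · change v.2 + s • (v.1 + v.2) + s • (v.1 + s • (v.1 + v.2) + (v.2 + s • (v.1 + v.2))) = v.2
      rw [e, add_assoc, add_selfV K, add_zero]
  have hgi : ∀ v, g⁻¹ v = g v := by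
    intro v
    apply g.injective
    rw [apply_inv_self', hgg]
  have hgs : ∀ (c : K) v, g (c • v) = c • g v := by
    intro c v
    rw [hg, hg]
    refine Prod.ext ?_ ?_
    · simp only [Prod.smul_fst, Prod.smul_snd, smul_add, smul_smul, mul_comm s c]
    · simp only [Prod.smul_fst, Prod.smul_snd, smul_add, smul_smul, mul_comm s c]
  -- the second involution
  obtain ⟨J', hJ'⟩ : ∃ J' : X × X → X × X, ∀ v, J' v = ((1 + s) ^ 2 • v.1 + ((1 + s) * s) • v.2,
      ((1 + s) * s) • v.1 + s ^ 2 • v.2) := ⟨_, fun v => rfl⟩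
  have hJg : ∀ v, g ((g v).1, 0) = J' v := by
    intro v
    rw [hg ((g v).1, 0), hg v, hJ']
    refine Prod.ext ?_ ?_
    · change v.1 + s • (v.1 + v.2) + s • (v.1 + s • (v.1 + v.2) + 0) = _
      match_scalars <;> ring
    · change 0 + s • (v.1 + s • (v.1 + v.2) + 0) = _
      match_scalars <;> ring
  have H2 : ∀ v, h (J' v) = J' (h v) + ε' • h v := by
    intro v
    have e1 := H' (g v)
    rw [mul_apply', mul_apply', mul_apply', mul_apply', hgg, hgi, hgi, hJg] at e1
    have e2 := congrArg g e1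
    rw [hgg, map_add, hgs, hgg, hJg] at e2
    exact e2
  obtain ⟨T, hT⟩ : ∃ T : X × X → X × X, ∀ v, T v = (v.1, 0) + J' v := ⟨_, fun v => rfl⟩
  have hTadd : ∀ v w, T (v + w) = T v + T w := by
    intro v w
    rw [hT, hT, hT, hJ', hJ', hJ']
    refine Prod.ext ?_ ?_
    · simp only [Prod.fst_add, Prod.snd_add]; module
    · simp only [Prod.fst_add, Prod.snd_add]; module
  have hTs : ∀ (c : K) v, T (c • v) = c • T v := by
    intro c v
    rw [hT, hT, hJ', hJ']
    refine Prod.ext ?_ ?_
    · simp only [Prod.fst_add, Prod.smul_fst, Prod.smul_snd]; module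
    · simp only [Prod.snd_add, Prod.smul_fst, Prod.smul_snd]; module
  have hTT : ∀ v, T (T v) = s ^ 2 • v := by
    intro v
    rw [hT (T v), hT v, hJ', hJ']
    refine Prod.ext ?_ ?_
    · simp only [Prod.fst_add, Prod.snd_add, Prod.smul_fst]
      match_scalars
      · linear_combination (norm := (ring_nf; reduce_mod_char!))
      · linear_combination (norm := (ring_nf; reduce_mod_char!))
    · simp only [Prod.fst_add, Prod.snd_add, Prod.smul_snd]
      match_scalars
      · linear_combination (norm := (ring_nf; reduce_mod_char!))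
      · linear_combination (norm := (ring_nf; reduce_mod_char!))
  obtain ⟨δ, hδ⟩ : ∃ δ, δ = ε + ε' := ⟨_, rfl⟩
  have hδ1 : δ = 0 ∨ δ = 1 := by
    rcases hε with h1 | h1 <;> rcases hε' with h3 | h3 <;> rw [hδ, h1, h3]
    · left; exact add_zero 0
    · right; exact zero_add 1
    · right; exact add_zero 1
    · left; exact CharTwo.add_self_eq_zero 1
  have hδ2 : δ * δ = δ := by
    rcases hδ1 with h1 | h1 <;> rw [h1]
    · exact mul_zero 0
    · exact one_mul 1
  have H3 : ∀ v, h (T v) = T (h v) + δ • h v := by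
    intro v
    rw [hT, map_add, H, H2, hT, hδ, add_smul]
    abel
  have hd : ∀ v, h (δ • v) = δ • h v := by
    intro v
    rcases hδ1 with h1 | h1 <;> rw [h1]
    · rw [zero_smul, zero_smul, map_zero]
    · rw [one_smul, one_smul]
  have H4 : ∀ v, h (s ^ 2 • v) = (s ^ 2 + δ) • h v := by
    intro v
    rw [← hTT, H3, H3, hTadd, hTT, hTs, smul_add, smul_smul, hδ2, add_smul]
    have e := add_selfV K (δ • T (h v))
    calc _ = s ^ 2 • h v + δ • h v + (δ • T (h v) + δ • T (h v)) := by abel
      _ = _ := by rw [e, add_zero]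
  obtain ⟨θ, hlin, hθw⟩ := semi hw h.toLinearMap h.injective H4
  have hlin' : ∀ (c : K) v, h (c • v) = θ c • h v := hlin
  have hθδ : θ δ = δ := by
    rcases hδ1 with h1 | h1 <;> rw [h1]
    · exact map_zero θ
    · exact map_one θ
  have hθθ : θ * θ = 1 := by
    apply hw
    change θ (θ (s ^ 2)) = s ^ 2
    rw [hθw, map_add, hθw, hθδ, add_assoc, CharTwo.add_self_eq_zero, add_zero]
  have hθs : θ s = s + δ := by
    have h3 : (θ s + (s + δ)) ^ 2 = 0 := by
      rw [map_pow] at hθw
      linear_combination (norm := (ring_nf; reduce_mod_char!)) hθw + hδ2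
    exact eq_of_add_eq_zeroV K ((pow_eq_zero_iff two_ne_zero).1 h3)
  have hθcs : θ ((1 + s) * s) = (1 + s) * s := by
    rw [map_mul, map_add, map_one, hθs]
    linear_combination (norm := (ring_nf; reduce_mod_char!)) hδ2
  have hsplit : ∀ x y, h (x, y) = h (x, 0) + h (0, y) := by
    intro x y
    rw [← map_add, Prod.mk_add_mk, add_zero, zero_add]
  have hcs : (1 + s) * s ≠ 0 := mul_ne_zero hs1 hs0
  have h00 : h ((0, 0) : X × X) = 0 := map_zero h
  rcases hε with h1 | h1
  · -- both summands are preserved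
    rw [h1] at H
    have f1 : ∀ x, h (x, 0) = ((h (x, 0)).1, 0) := by
      intro x
      have := H (x, 0)
      rwa [zero_smul, add_zero] at this
    have f2 : ∀ y, (h (0, y)).1 = 0 := by
      intro y
      have := H (0, y)
      rw [zero_smul, add_zero, h00] at this
      exact (congrArg Prod.fst this).symm
    refine ⟨θ, LinearMap.fst F X X ∘ₗ h.toLinearMap ∘ₗ LinearMap.inl F X X, hθθ, ?_, Or.inl ?_⟩
    · intro c x
      have e := hlin' c (x, 0)
      rw [Prod.smul_mk, smul_zero] at e
      exact congrArg Prod.fst e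
    · have f3 : ∀ x, (h (0, x)).2 = (h (x, 0)).1 := by
        intro x
        have e := H2 (x, 0)
        rw [f1 x, hJ', hJ'] at e
        simp only [smul_zero, add_zero] at e
        rw [hsplit] at e
        have e3 := congrArg Prod.snd e
        rw [Prod.snd_add, f1] at e3
        have e4 := hlin' ((1 + s) * s) (0, x)
        rw [Prod.smul_mk, smul_zero, hθcs] at e4
        rw [e4] at e3
        have e5 : ((1 + s) * s) • (h (0, x)).2 = ((1 + s) * s) • (h (x, 0)).1 := by
          refine (zero_add _).symm.trans (e3.trans ?_)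
          change ((1 + s) * s) • (h (x, 0)).1 + ε' • (0 : X) = _
          rw [smul_zero, add_zero]
        exact smul_right_injective X hcs e5
      intro x y
      rw [hsplit]
      change h (x, 0) + h (0, y) = ((h (x, 0)).1, (h (y, 0)).1)
      rw [← f3 y]
      refine Prod.ext ?_ ?_
      · rw [Prod.fst_add, f2, add_zero]
      · rw [Prod.snd_add, f1]; exact zero_add _
  · -- the summands are exchanged
    rw [h1] at H
    have f1 : ∀ x, (h (x, 0)).1 = 0 := by
      intro x
      have := congrArg Prod.fst (H (x, 0))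
      rw [one_smul, Prod.fst_add, add_selfV K] at this
      exact this
    have f2 : ∀ y, (h (0, y)).2 = 0 := by
      intro y
      have := congrArg Prod.snd (H (0, y))
      rw [one_smul, h00, Prod.snd_add] at this
      exact ((zero_add _).symm.trans this.symm)
    refine ⟨θ, LinearMap.snd F X X ∘ₗ h.toLinearMap ∘ₗ LinearMap.inl F X X, hθθ, ?_, Or.inr ?_⟩
    · intro c x
      have e := hlin' c (x, 0)
      rw [Prod.smul_mk, smul_zero] at e
      exact congrArg Prod.snd e
    · have f3 : ∀ x, (h (0, x)).1 = (h (x, 0)).2 := by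
        intro x
        have e := H2 (x, 0)
        rw [hJ', hJ'] at e
        simp only [smul_zero, add_zero] at e
        rw [hsplit] at e
        have e3 := congrArg Prod.fst e
        rw [Prod.fst_add, Prod.fst_add, f1] at e3
        have e4 := hlin' ((1 + s) * s) (0, x)
        rw [Prod.smul_mk, smul_zero, hθcs] at e4
        rw [e4] at e3
        have e5 : ((1 + s) * s) • (h (0, x)).1 = ((1 + s) * s) • (h (x, 0)).2 := by
          refine (zero_add _).symm.trans (e3.trans ?_)
          change (1 + s) ^ 2 • (h (x, 0)).1 + ((1 + s) * s) • (h (x, 0)).2 +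
            ε' • (h (x, 0)).1 = _
          rw [f1, smul_zero, smul_zero, add_zero, zero_add]
        exact smul_right_injective X hcs e5
      intro x y
      rw [hsplit]
      change h (x, 0) + h (0, y) = ((h (y, 0)).2, (h (x, 0)).2)
      rw [← f3 y]
      refine Prod.ext ?_ ?_
      · rw [Prod.fst_add, f1, zero_add]
      · rw [Prod.snd_add, f2, add_zero]

end two

section third
variable {F K X : Type*} [Field F] [CharP F 2] [Finite F] [Field K] [Finite K] [Algebra F K]
  [CharP K 2] [AddCommGroup X] [Module F X] [Module K X] [IsScalarTower F K X]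

/-- the trace of a quadratic space -/
noncomputable def trQ (T : QSp K X) : QSp F X where
  Q x := Algebra.trace F K (T.Q x)
  B := LinearMap.mk₂ F (fun x y => Algebra.trace F K (T.B x y))
    (fun x y z => by rw [map_add, LinearMap.add_apply, map_add])
    (fun c x y => by
      rw [← algebraMap_smul K c x, map_smul, LinearMap.smul_apply, smul_eq_mul,
        ← Algebra.smul_def, map_smul])
    (fun x y z => by rw [map_add, map_add])
    (fun c x y => by
      rw [← algebraMap_smul K c y, map_smul, smul_eq_mul, ← Algebra.smul_def, map_smul])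
  add x y := by
    rw [T.add, map_add, map_add]; rfl
  smul c x := by
    rw [← algebraMap_smul K c x, T.smul, ← map_pow, ← Algebra.smul_def, map_smul, smul_eq_mul]
  nd := by
    intro x hx
    apply T.nd
    intro y
    apply tr_inj (F := F)
    intro c
    have h1 := hx (c • y)
    rw [LinearMap.mk₂_apply, map_smul, smul_eq_mul] at h1
    rw [h1, mul_zero, map_zero]

theorem trQ_Q (T : QSp K X) (x : X) : (trQ (F := F) T).Q x = Algebra.trace F K (T.Q x) := rfl

theorem trQ_B (T : QSp K X) (x y : X) :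
    (trQ (F := F) T).B x y = Algebra.trace F K (T.B x y) := rfl

/-- isometries of the trace which are semilinear over the large field -/
theorem trQ_isom (T : QSp K X) {k : X →ₗ[F] X} {θ : K ≃ₐ[F] K}
    (hk : ∀ (c : K) x, k (c • x) = θ c • k x)
    (hQ : ∀ x, (trQ (F := F) T).Q (k x) = (trQ (F := F) T).Q x) (x : X) :
    T.Q (k x) = θ (T.Q x) := by
  haveI : PerfectRing K 2 := inferInstance
  apply tr_inj (F := F)
  intro c
  obtain ⟨d, rfl⟩ := θ.surjective c
  have h1 := hQ (rt d • x)
  rw [trQ_Q, trQ_Q, hk, T.smul, T.smul, ← map_pow, rt_sq] at h1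
  rw [h1, ← map_mul, Algebra.trace_eq_of_algEquiv]

/-- the third decomposition -/
theorem third_form [Module.Finite F X] (T : QSp K X) {a b : X}
    (ha : (trQ (F := F) T).Q a ≠ 0) (hb : (trQ (F := F) T).Q b = 0) (hb0 : b ≠ 0)
    (hab : ∀ x : X, ∃ c d : K, x = c • a + d • b)
    {g h : (X × X) ≃ₗ[F] (X × X)}
    (hg1 : ∀ x, g (x, 0) = (x, (trQ (F := F) T).B x a • b))
    (hg2 : ∀ y, g (0, y) = ((trQ (F := F) T).B y b • a,
      y + ((trQ (F := F) T).Q a * (trQ (F := F) T).B y b) • b))
    (hh : h ∈ (dbl (trQ (F := F) T)).O)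
    (hp : Permutes (LinearMap.ker (LinearMap.snd F X X)) (LinearMap.ker (LinearMap.fst F X X))
      (g⁻¹ * h * g))
    {k : X →ₗ[F] X} {θ : K ≃ₐ[F] K} (hθθ : θ * θ = 1) (hk : ∀ (c : K) x, k (c • x) = θ c • k x)
    (hf : (∀ x y, h (x, y) = (k x, k y)) ∨ ∀ x y, h (x, y) = (k y, k x)) : h = 1 := by
  obtain ⟨S, hS⟩ : ∃ S, S = trQ (F := F) T := ⟨_, rfl⟩
  rw [← hS] at ha hb hg1 hg2 hh
  have hkQ : ∀ x, S.Q (k x) = S.Q x := by
    intro x
    have h1 := hh (x, 0)
    rcases hf with hf | hf
    · rw [hf, map_zero] at h1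
      change S.Q (k x) + S.Q 0 = S.Q x + S.Q 0 at h1
      exact add_right_cancel h1
    · rw [hf, map_zero] at h1
      change S.Q 0 + S.Q (k x) = S.Q x + S.Q 0 at h1
      rw [add_comm] at h1
      exact add_right_cancel h1
  have hkT : ∀ x, T.Q (k x) = θ (T.Q x) := trQ_isom T hk (by rw [← hS]; exact hkQ)
  have hki : Function.Injective k := isom_inj (S := S) (T := S) hkQ
  have hks : Function.Surjective k := LinearMap.surjective_of_injective hki
  have hkB : ∀ x y, S.B (k x) (k y) = S.B x y := isom_B (S := S) (T := S) hkQ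
  have ha0 : a ≠ 0 := by
    rintro rfl
    exact ha S.Q_zero
  have hka : k a ≠ 0 := fun h1 => ha0 (hki (h1.trans (map_zero k).symm))
  have hkb : k b ≠ 0 := fun h1 => hb0 (hki (h1.trans (map_zero k).symm))
  obtain ⟨x0, hx0⟩ := S.exists_ne ha0
  -- the two cases for the third pair
  have H : (∀ x, ∃ z, h (x, S.B x a • b) = (z, S.B z a • b)) ∨
      ∀ x, ∃ z, h (x, S.B x a • b) = (S.B z b • a, z + (S.Q a * S.B z b) • b) := by
    rcases hp with ⟨a1, a2⟩ | ⟨a1, a2⟩
    · left
      intro x
      have e1 : ((g⁻¹ * h * g) (x, 0)).2 = 0 := (a1 (x, 0)).2 rfl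
      obtain ⟨z, hz⟩ : ∃ z, z = ((g⁻¹ * h * g) (x, 0)).1 := ⟨_, rfl⟩
      have e2 : (g⁻¹ * h * g) (x, 0) = (z, 0) := Prod.ext hz.symm e1
      refine ⟨z, ?_⟩
      rw [← hg1, ← hg1, ← e2, mul_apply', mul_apply', apply_inv_self']
    · right
      intro x
      have e1 : ((g⁻¹ * h * g) (x, 0)).1 = 0 := (a1 (x, 0)).2 rfl
      obtain ⟨z, hz⟩ : ∃ z, z = ((g⁻¹ * h * g) (x, 0)).2 := ⟨_, rfl⟩
      have e2 : (g⁻¹ * h * g) (x, 0) = (0, z) := Prod.ext e1 hz.symm
      refine ⟨z, ?_⟩
      rw [← hg1, ← hg2, ← e2, mul_apply', mul_apply', apply_inv_self']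
  rcases hf with hf | hf
  · rcases H with H | H
    · have e : ∀ x, S.B x a • k b = S.B (k x) a • b := by
        intro x
        obtain ⟨z, hz⟩ := H x
        rw [hf, map_smul] at hz
        obtain ⟨h1, h2⟩ := Prod.mk.inj hz
        rw [h2, ← h1]
      have e1 := e x0
      rw [hx0, one_smul] at e1
      obtain ⟨l, hl⟩ : ∃ l, l = S.B (k x0) a := ⟨_, rfl⟩
      rw [← hl] at e1
      have e2 : l • k a = a := by
        rw [← sub_eq_zero]
        apply S.nd
        intro y
        obtain ⟨x, rfl⟩ := hks y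
        have h1 := e x
        rw [e1, smul_smul] at h1
        have h2 : S.B x a * l = S.B (k x) a := smul_left_injective F hb0 h1
        rw [S.symm, map_sub, map_smul, hkB, ← h2, smul_eq_mul, mul_comm, sub_self]
      have e3 : l = 1 := by
        have h1 : S.Q a = l ^ 2 * S.Q a := by
          conv_lhs => rw [← e2]
          rw [S.smul, hkQ]
        have h3 : (l + 1) ^ 2 = 0 := by
          have h4 : l ^ 2 = 1 := mul_right_cancel₀ ha (by rw [← h1, one_mul])
          linear_combination (norm := (ring_nf; reduce_mod_char!)) h4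
        exact eq_of_add_eq_zeroV F ((pow_eq_zero_iff two_ne_zero).1 h3)
      rw [e3, one_smul] at e1 e2
      have e5 : θ = 1 := by
        by_contra hθ
        apply ha
        rw [hS, trQ_Q]
        apply trace_fix hθθ hθ
        rw [← hkT, e2]
      have e4 : ∀ x, k x = x := by
        intro x
        obtain ⟨c, d, rfl⟩ := hab x
        rw [map_add, hk, hk, e1, e2, e5]; rfl
      apply LinearEquiv.ext
      rintro ⟨x, y⟩
      rw [hf, e4, e4]; rfl
    · exfalso
      obtain ⟨z, hz⟩ := H a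
      rw [S.self, zero_smul, hf, map_zero] at hz
      have h1 := congrArg Prod.fst hz
      have h2 := congrArg Prod.snd hz
      simp only at h1 h2
      have h3 : z = (S.Q a * S.B z b) • b := eq_of_add_eq_zeroV F h2.symm
      have h4 : S.B z b = 0 := by
        have h5 := congrArg (fun t => S.B t b) h3
        simp only [map_smul, LinearMap.smul_apply, S.self, smul_zero] at h5
        exact h5
      rw [h4, zero_smul] at h1
      exact hka h1
  · exfalso
    rcases H with H | H
    · obtain ⟨z, hz⟩ := H a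
      rw [S.self, zero_smul, hf, map_zero] at hz
      have h1 := congrArg Prod.fst hz
      have h2 := congrArg Prod.snd hz
      simp only at h1 h2
      rw [← h1, map_zero, LinearMap.zero_apply, zero_smul] at h2
      exact hka h2
    · obtain ⟨z, hz⟩ := H x0
      rw [hx0, one_smul, hf] at hz
      have h1 := congrArg Prod.fst hz
      simp only at h1
      have h2 := hkQ b
      rw [h1, S.smul, hb] at h2
      have h3 : S.B z b = 0 := by
        rcases mul_eq_zero.1 h2 with h4 | h4
        · exact (pow_eq_zero_iff two_ne_zero).1 h4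
        · exact absurd h4 ha
      rw [h3, zero_smul] at h1
      exact hkb h1

end third

/-- the anisotropic plane -/
def plane (K : Type*) [Field K] [CharP K 2] (ρ : K) : QSp K (K × K) where
  Q x := x.1 ^ 2 + x.1 * x.2 + ρ * x.2 ^ 2
  B := LinearMap.mk₂ K (fun x y => x.1 * y.2 + x.2 * y.1)
    (fun x y z => by simp only [Prod.fst_add, Prod.snd_add]; ring)
    (fun c x y => by simp only [Prod.smul_fst, Prod.smul_snd, smul_eq_mul]; ring)
    (fun x y z => by simp only [Prod.fst_add, Prod.snd_add]; ring)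
    (fun c x y => by simp only [Prod.smul_fst, Prod.smul_snd, smul_eq_mul]; ring)
  add x y := by
    rw [LinearMap.mk₂_apply, Prod.fst_add, Prod.snd_add]
    linear_combination (norm := (ring_nf; reduce_mod_char!))
  smul c x := by
    simp only [Prod.smul_fst, Prod.smul_snd, smul_eq_mul]; ring
  nd := by
    intro x hx
    have h1 := hx (1, 0)
    have h2 := hx (0, 1)
    simp only [LinearMap.mk₂_apply, mul_zero, mul_one, add_zero, zero_add] at h1 h2
    exact Prod.ext h2 h1

theorem plane_Q {K : Type*} [Field K] [CharP K 2] (ρ : K) (x : K × K) :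
    (plane K ρ).Q x = x.1 ^ 2 + x.1 * x.2 + ρ * x.2 ^ 2 := rfl

theorem plane_aniso {K : Type*} [Field K] [CharP K 2] {ρ : K} (hρ : ∀ t : K, t ^ 2 + t ≠ ρ)
    (x : K × K) (hx : (plane K ρ).Q x = 0) : x = 0 := by
  rw [plane_Q] at hx
  by_cases h2 : x.2 = 0
  · rw [h2] at hx
    have h1 : x.1 ^ 2 = 0 := by linear_combination hx
    exact Prod.ext ((pow_eq_zero_iff two_ne_zero).1 h1) h2
  · exfalso
    apply hρ (x.1 / x.2)
    have h2' : (2 : K) = 0 := two_F
    field_simp
    linear_combination hx - ρ * x.2 ^ 2 * h2'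

/-- the model -/
theorem model3 {F K : Type*} [Field F] [CharP F 2] [Finite F] [Field K] [Finite K] [Algebra F K]
    (h1 : 1 < finrank F K) :
    ∃ S : QSp F (K × K), ¬ Half S ∧ ∃ g₁ ∈ (dbl S).Om, ∃ g₂ ∈ (dbl S).Om, ∀ h ∈ (dbl S).O,
      Permutes (LinearMap.ker (LinearMap.snd F (K × K) (K × K)))
        (LinearMap.ker (LinearMap.fst F (K × K) (K × K))) h →
      Permutes (LinearMap.ker (LinearMap.snd F (K × K) (K × K)))
        (LinearMap.ker (LinearMap.fst F (K × K) (K × K))) (g₁⁻¹ * h * g₁) →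
      Permutes (LinearMap.ker (LinearMap.snd F (K × K) (K × K)))
        (LinearMap.ker (LinearMap.fst F (K × K) (K × K))) (g₂⁻¹ * h * g₂) → h = 1 := by
  haveI : CharP K 2 := charP_of_injective_algebraMap (algebraMap F K).injective 2
  haveI : PerfectRing K 2 := inferInstance
  haveI : PerfectRing F 2 := inferInstance
  haveI : FiniteDimensional F K := Module.Finite.of_finite
  obtain ⟨ρ, hρ⟩ := exists_no_root (F := K)
  have hρ0 : ρ ≠ 0 := fun h => hρ 0 (by rw [h]; ring)
  obtain ⟨T, hT⟩ : ∃ T, T = plane K ρ := ⟨_, rfl⟩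
  have hTa : ∀ x, T.Q x = 0 → x = 0 := by
    rw [hT]; exact plane_aniso hρ
  obtain ⟨S, hS⟩ : ∃ S, S = trQ (F := F) T := ⟨_, rfl⟩
  have hSQ : ∀ x, S.Q x = Algebra.trace F K (T.Q x) := fun x => by rw [hS]; rfl
  have hSB : ∀ x y, S.B x y = Algebra.trace F K (T.B x y) := fun x y => by rw [hS]; rfl
  have hX2 : finrank K (K × K) = 2 := by
    rw [Module.finrank_prod, Module.finrank_self]
  have hXF : finrank F (K × K) = finrank F K + finrank F K := Module.finrank_prod
  have hV : 4 < finrank F ((K × K) × (K × K)) := by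
    rw [Module.finrank_prod, hXF]; omega
  refine ⟨S, aniso_not_half S T hTa hSQ hX2, ?_⟩
  -- the generator
  obtain ⟨w, hw0, hw⟩ := exists_w (F := F) (K := K)
  obtain ⟨s, hs⟩ : ∃ s : K, s ^ 2 = w := ⟨rt w, rt_sq w⟩
  rw [← hs] at hw0 hw
  have hs0 : s ≠ 0 := fun h => hw0 (by rw [h]; ring)
  have hs1 : 1 + s ≠ 0 := by
    intro h
    have h3 : s = 1 := (eq_of_add_eq_zeroV K h).symm
    have h5 : Nat.card (K ≃ₐ[F] K) = finrank F K := IsGalois.card_aut_eq_finrank F K
    have h6 : ∀ θ : K ≃ₐ[F] K, θ = 1 := fun θ => hw θ (by rw [h3, one_pow, map_one])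
    have h7 : Nat.card (K ≃ₐ[F] K) ≤ 1 := by
      haveI : Subsingleton (K ≃ₐ[F] K) := ⟨fun a b => by rw [h6 a, h6 b]⟩
      exact Finite.card_le_one_iff_subsingleton.2 inferInstance
    omega
  -- the two vectors
  obtain ⟨c, hc⟩ : ∃ c : K, Algebra.trace F K c ≠ 0 := by
    by_contra hcon
    push Not at hcon
    apply one_ne_zero (α := K)
    apply tr_inj (F := F)
    intro c
    rw [hcon, hcon]
  obtain ⟨d, hd0, hd⟩ : ∃ d : K, d ≠ 0 ∧ Algebra.trace F K d = 0 := by
    have h3 : LinearMap.ker (Algebra.trace F K) ≠ ⊥ :=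
      LinearMap.ker_ne_bot_of_finrank_lt (by rw [Module.finrank_self]; exact h1)
    obtain ⟨d, hd, hd0⟩ := Submodule.exists_mem_ne_zero_of_ne_bot h3
    exact ⟨d, hd0, hd⟩
  have hα : (rt c) ^ 2 = c := rt_sq c
  have hβ : (rt (d / ρ)) ^ 2 = d / ρ := rt_sq _
  obtain ⟨α, hαe⟩ : ∃ α, α = rt c := ⟨_, rfl⟩
  obtain ⟨β, hβe⟩ : ∃ β, β = rt (d / ρ) := ⟨_, rfl⟩
  rw [← hαe] at hα
  rw [← hβe] at hβ
  have hα0 : α ≠ 0 := by
    rintro rfl
    apply hc
    rw [← hα, zero_pow two_ne_zero, map_zero]
  have hβ0 : β ≠ 0 := by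
    rintro rfl
    rw [zero_pow two_ne_zero] at hβ
    rcases div_eq_zero_iff.1 hβ.symm with h3 | h3
    · exact hd0 h3
    · exact hρ0 h3
  obtain ⟨a, hae⟩ : ∃ a : K × K, a = (α, 0) := ⟨_, rfl⟩
  obtain ⟨b, hbe⟩ : ∃ b : K × K, b = (0, β) := ⟨_, rfl⟩
  have ha : S.Q a ≠ 0 := by
    rw [hSQ, hT, hae, plane_Q]
    simp only [mul_zero, add_zero, ne_eq, OfNat.ofNat_ne_zero, not_false_eq_true, zero_pow]
    rw [hα]
    exact hc
  have hb : S.Q b = 0 := by
    rw [hSQ, hT, hbe, plane_Q]
    simp only [zero_mul, add_zero, ne_eq, OfNat.ofNat_ne_zero, not_false_eq_true, zero_pow,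
      zero_add]
    rw [hβ, mul_div_cancel₀ _ hρ0]
    exact hd
  have hb0 : b ≠ 0 := by
    rw [hbe]
    intro h
    exact hβ0 (congrArg Prod.snd h)
  have hab : ∀ x : K × K, ∃ c d : K, x = c • a + d • b := by
    intro x
    refine ⟨x.1 / α, x.2 / β, ?_⟩
    rw [hae, hbe]
    refine Prod.ext ?_ ?_
    · simp only [Prod.fst_add, Prod.smul_fst, smul_eq_mul, mul_zero, add_zero]
      field_simp
    · simp only [Prod.snd_add, Prod.smul_snd, smul_eq_mul, mul_zero, zero_add]
      field_simp
  -- the second decomposition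
  let M : ((K × K) × (K × K)) →ₗ[F] ((K × K) × (K × K)) :=
    { toFun := fun v => (s • (v.1 + v.2), s • (v.1 + v.2))
      map_add' := fun v w => by
        refine Prod.ext ?_ ?_
        · simp only [Prod.fst_add, Prod.snd_add, smul_add]; abel
        · simp only [Prod.fst_add, Prod.snd_add, smul_add]; abel
      map_smul' := fun r v => by
        simp only [Prod.smul_fst, Prod.smul_snd, RingHom.id_apply, Prod.smul_mk]
        rw [← smul_add, smul_comm] }
  have hM : ∀ v, M v = (s • (v.1 + v.2), s • (v.1 + v.2)) := fun v => rfl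
  have hMM : ∀ v, M (M v) = 0 := by
    intro v
    rw [hM (M v), hM v]
    simp only [add_selfV K, smul_zero]
    rfl
  have hDQ : ∀ v, (dbl S).Q v = S.Q v.1 + S.Q v.2 := fun v => rfl
  have hDB : ∀ v w, (dbl S).B v w = S.B v.1 w.1 + S.B v.2 w.2 := fun v w => rfl
  have hMI : (dbl S).Inv M := by
    refine ⟨hMM, fun v => ?_⟩
    have e0 : S.B (v.1 + v.2) (s • (v.1 + v.2)) = 0 := by
      rw [hSB, map_smul, T.self, smul_zero, map_zero]
    rw [map_add, LinearMap.add_apply] at e0
    have e1 : (dbl S).Q (M v) = S.Q (s • (v.1 + v.2)) + S.Q (s • (v.1 + v.2)) := rfl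
    rw [CharTwo.add_self_eq_zero] at e1
    rw [(dbl S).add, hDB, e1, hM]
    linear_combination e0
  have hMr : Even (finrank F (LinearMap.range M)) := by
    let N : (K × K) →ₗ[F] ((K × K) × (K × K)) := LinearMap.prod LinearMap.id LinearMap.id
    have hN : Function.Injective N := fun x y h => congrArg Prod.fst h
    have h3 : LinearMap.range M = LinearMap.range N := by
      apply le_antisymm
      · rintro _ ⟨v, rfl⟩
        exact ⟨s • (v.1 + v.2), rfl⟩
      · rintro _ ⟨x, rfl⟩
        refine ⟨(s⁻¹ • x, 0), ?_⟩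
        rw [hM, add_zero, smul_inv_smul₀ hs0]
        rfl
    rw [h3, LinearMap.finrank_range_of_inj hN, hXF]
    exact Even.add_self _
  have hg₁ := (dbl S).inv1_mem hV hMI hMr
  -- the third decomposition
  obtain ⟨u, hu⟩ : ∃ u : (K × K) × (K × K), u = (0, b) := ⟨_, rfl⟩
  obtain ⟨v, hv⟩ : ∃ v : (K × K) × (K × K), v = (a, 0) := ⟨_, rfl⟩
  have q1 : (dbl S).Q u = 0 := by
    rw [hDQ, hu]
    change S.Q 0 + S.Q b = 0
    rw [S.Q_zero, hb, add_zero]
  have q2 : (dbl S).Q v = S.Q a := by
    rw [hDQ, hv]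
    change S.Q a + S.Q 0 = S.Q a
    rw [S.Q_zero, add_zero]
  have q3 : (dbl S).B u v = 0 := by
    rw [hDB, hu, hv]
    change S.B 0 a + S.B b 0 = 0
    rw [map_zero, map_zero, LinearMap.zero_apply, add_zero]
  have q3' : (dbl S).B v u = 0 := by
    rw [(dbl S).symm]; exact q3
  have q4 : (dbl S).Q (v + (dbl S).Q v • u) ≠ 0 := by
    rw [(dbl S).add, (dbl S).smul, q1, map_smul, q3', q2, mul_zero, smul_zero, add_zero, add_zero]
    exact ha
  have hg₂ := (dbl S).refl_refl_mem hV (a := v) (b := v + (dbl S).Q v • u)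
    (by rw [q2]; exact ha) q4
  refine ⟨_, hg₁, _, hg₂, fun h hh p1 p2 p3 => ?_⟩
  obtain ⟨ε, hε, H⟩ := eps_of_perm (K := K) p1
  obtain ⟨ε', hε', H'⟩ := eps_of_perm (K := K) p2
  obtain ⟨θ, k, hθθ, hk, hf⟩ := two_form hs0 hs1 hw (g := inv1 M hMI.1) (h := h)
    (fun v => rfl) hε hε' H H'
  have hf1 : ∀ x, ((dbl S).refl v * (dbl S).refl (v + (dbl S).Q v • u)) (x, 0) =
      (x, S.B x a • b) := by
    intro x
    have e1 : (dbl S).B (x, 0) v = S.B x a := by
      rw [hDB, hv]
      change S.B x a + S.B 0 0 = _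
      rw [map_zero, add_zero]
    have e2 : (dbl S).B (x, 0) u = 0 := by
      rw [hDB, hu]
      change S.B x 0 + S.B 0 b = _
      rw [map_zero, map_zero, LinearMap.zero_apply, add_zero]
    rw [(dbl S).siegel_ns q1 q3 (by rw [q2]; exact ha), e1, e2, mul_zero, zero_smul, zero_smul,
      add_zero, add_zero, hu]
    refine Prod.ext ?_ ?_
    · simp
    · simp
  have hf2 : ∀ y, ((dbl S).refl v * (dbl S).refl (v + (dbl S).Q v • u)) (0, y) =
      (S.B y b • a, y + (S.Q a * S.B y b) • b) := by
    intro y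
    have e1 : (dbl S).B (0, y) v = 0 := by
      rw [hDB, hv]
      change S.B 0 a + S.B y 0 = _
      rw [map_zero, map_zero, LinearMap.zero_apply, add_zero]
    have e2 : (dbl S).B (0, y) u = S.B y b := by
      rw [hDB, hu]
      change S.B 0 0 + S.B y b = _
      rw [map_zero, zero_add]
    rw [(dbl S).siegel_ns q1 q3 (by rw [q2]; exact ha), e1, e2, zero_smul, add_zero, q2, hu, hv]
    refine Prod.ext ?_ ?_
    · simp
    · simp
  rw [hS] at ha hb hf1 hf2 hh p3
  exact third_form T ha hb hb0 hab hf1 hf2 hh p3 hθθ hk hf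

end Pool.Agent.H8Base
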