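import Mathlib
import Pool.Agent.H8Base.Defs
import Pool.Agent.H8Base.Comb
import Pool.Agent.H8Base.Even
import Pool.Agent.OmegaOdd.Final

set_option autoImplicit false
set_option linter.unusedSectionVars false
set_option linter.unusedVariables false
set_option linter.style.haveILetI false
set_option linter.unusedSimpArgs false
set_option linter.unnecessarySeqFocus false

/-! The base size of the action on decompositions. -/

namespace Pool.Agent.H8Base

open Module Pool.Agent.OmegaEven Pool.Agent.OmegaOdd Pool.Agent.OmegaPlus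

section groups
variable {G : Type*} [Group G] (H : Subgroup G)

theorem smul_coset (x a : G) : x • (QuotientGroup.mk a : G ⧸ H) = QuotientGroup.mk a ↔
    a⁻¹ * x * a ∈ H := by
  change (QuotientGroup.mk (x * a) : G ⧸ H) = QuotientGroup.mk a ↔ _
  rw [eq_comm, QuotientGroup.eq, mul_assoc]

theorem baseSize_le_two (g : G) (h : ∀ x ∈ H, g⁻¹ * x * g ∈ H → x = 1) : baseSize G H ≤ 2 := by
  rw [baseSize]
  refine (iInf₂_le ({QuotientGroup.mk 1, QuotientGroup.mk g} : Set (G ⧸ H)) ?_).trans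
    (pair_encard_le _ _)
  intro x hx
  have h1 := (smul_coset H x 1).1 (hx _ (by simp))
  have h2 := (smul_coset H x g).1 (hx _ (by simp))
  rw [inv_one, one_mul, mul_one] at h1
  exact h x h1 h2

theorem two_le_baseSize {x : G} (hx : x ∈ H) (hx1 : x ≠ 1) : 2 ≤ baseSize G H := by
  rw [baseSize]
  refine le_iInf₂ fun T hT => ?_
  by_contra hcon
  rw [not_le] at hcon
  have h1 : T.encard ≤ 1 := by
    have : T.encard < 1 + 1 := by rw [one_add_one_eq_two]; exact hcon
    exact (ENat.lt_add_one_iff (by simp)).1 this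
  have h2 := Set.encard_le_one_iff_subsingleton.1 h1
  rcases T.eq_empty_or_nonempty with h3 | ⟨c, hc⟩
  · apply hx1
    apply hT
    intro y hy
    rw [h3] at hy
    exact absurd hy (Set.notMem_empty y)
  · induction c using QuotientGroup.induction_on with
    | H a =>
      have h4 : a * x * a⁻¹ = 1 := by
        apply hT
        intro y hy
        rw [h2 hy hc, smul_coset]
        have : a⁻¹ * (a * x * a⁻¹) * a = x := by group
        rw [this]
        exact hx
      apply hx1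
      have : x = a⁻¹ * (a * x * a⁻¹) * a := by group
      rw [this, h4]; group

theorem three_le_baseSize (h : ∀ a b : G, ∃ x, x ≠ 1 ∧ a⁻¹ * x * a ∈ H ∧ b⁻¹ * x * b ∈ H) :
    3 ≤ baseSize G H := by
  rw [baseSize]
  refine le_iInf₂ fun T hT => ?_
  by_contra hcon
  rw [not_le] at hcon
  obtain ⟨c, d, hcd⟩ : ∃ c d : G ⧸ H, ∀ u ∈ T, u = c ∨ u = d := by
    rcases T.eq_empty_or_nonempty with h3 | ⟨c, hc⟩
    · refine ⟨QuotientGroup.mk 1, QuotientGroup.mk 1, fun u hu => ?_⟩
      rw [h3] at hu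
      exact absurd hu (Set.notMem_empty u)
    · by_cases hone : ∀ u ∈ T, u = c
      · exact ⟨c, c, fun u hu => Or.inl (hone u hu)⟩
      · push Not at hone
        obtain ⟨d, hd, hdc⟩ := hone
        refine ⟨c, d, fun u hu => ?_⟩
        by_contra hne
        push Not at hne
        have h1 : ({c, d, u} : Set (G ⧸ H)) ⊆ T := by
          rintro x (rfl | rfl | rfl) <;> assumption
        have h2 := Set.encard_le_encard h1
        have h3 : ({c, d, u} : Set (G ⧸ H)).encard = 3 := by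
          rw [Set.encard_eq_three]
          exact ⟨c, d, u, hdc.symm, hne.1.symm, hne.2.symm, rfl⟩
        rw [h3] at h2
        exact absurd h2 (not_le.2 hcon)
  induction c using QuotientGroup.induction_on with
  | H a =>
    induction d using QuotientGroup.induction_on with
    | H b =>
      obtain ⟨x, hx1, hxa, hxb⟩ := h a b
      apply hx1
      apply hT
      intro y hy
      rcases hcd y hy with rfl | rfl
      · rw [smul_coset]; exact hxa
      · rw [smul_coset]; exact hxb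

end groups

section
variable {F V : Type*} [Field F] [AddCommGroup V] [Module F V]

theorem perp_eq (Q : QuadraticForm F V) (hQ : Nondeg Q) (U : Submodule F V) :
    perp (toQSp Q hQ) U = orth Q U := rfl

/-- a map permuting `U` and `U'` commutes with the involution up to sign -/
theorem perm_sign {U U' : Submodule F V} (hdec : ∀ v, ∃ u ∈ U, ∃ u' ∈ U', v = u + u')
    {J : V ≃ₗ[F] V} (hJ : ∀ u ∈ U, J u = u) (hJ' : ∀ u ∈ U', J u = -u) {h : V ≃ₗ[F] V}
    (hh : Permutes U U' h) : ∃ ε : F, (ε = 1 ∨ ε = -1) ∧ ∀ v, h (J v) = ε • J (h v) := by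
  rcases hh with ⟨a1, a2⟩ | ⟨a1, a2⟩
  · refine ⟨1, Or.inl rfl, fun v => ?_⟩
    obtain ⟨u, hu, u', hu', rfl⟩ := hdec v
    rw [map_add, hJ u hu, hJ' u' hu', map_add, map_add, map_add, hJ _ ((a1 u).2 hu),
      hJ' _ ((a2 u').2 hu'), map_neg, one_smul]
  · refine ⟨-1, Or.inr rfl, fun v => ?_⟩
    obtain ⟨u, hu, u', hu', rfl⟩ := hdec v
    rw [map_add, hJ u hu, hJ' u' hu', map_add, map_add, map_add, hJ' _ ((a1 u).2 hu),
      hJ _ ((a2 u').2 hu'), map_neg, neg_one_smul, neg_add, neg_neg]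

/-- in odd characteristic two decompositions can have trivial joint stabiliser -/
theorem odd_pair [Finite F] (h2 : (2 : F) ≠ 0) (m : ℕ) (hm : 4 ≤ m) (hme : Even m)
    (hV : finrank F V = 2 * m) (Q : QuadraticForm F V) (hQ : Nondeg Q) (U : Submodule F V)
    (hU : MinusType Q m U) (hU' : MinusType Q m (orth Q U)) :
    ∃ g ∈ Omega Q, ∀ h ∈ Omega Q, Permutes U (orth Q U) h →
      Permutes U (orth Q U) (g⁻¹ * h * g) → ActsScalar h := by
  haveI : FiniteDimensional F V := Module.finite_of_finrank_pos (by omega)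
  obtain ⟨S, hS⟩ : ∃ S, S = toQSp Q hQ := ⟨_, rfl⟩
  have hSQ : ∀ x, S.Q x = Q x := fun x => by rw [hS]; rfl
  have hSB : ∀ x y, S.B x y = QuadraticMap.polar Q x y := fun x y => by rw [hS]; rfl
  have hOm : Omega Q = S.Om := by rw [hS]; rfl
  have hP : ∀ W, perp S W = orth Q W := fun W => by rw [hS]; rfl
  obtain ⟨U', hU'e⟩ : ∃ U', U' = orth Q U := ⟨_, rfl⟩
  rw [← hU'e] at hU' ⊢
  obtain ⟨k, hk⟩ := hme
  obtain ⟨n, hn⟩ : ∃ n, m = n + 1 := ⟨m - 1, by omega⟩
  have hnk : n + 1 = k + k := by omega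
  have nd : ∀ W : Submodule F V, MinusType Q m W → W ⊓ perp S W = ⊥ := by
    intro W hW
    rw [eq_bot_iff]
    rintro x ⟨hx, hx'⟩
    rw [Submodule.mem_bot]
    apply hW.2.1 x hx
    intro y hy
    rw [← hSB]
    exact hx' y hy
  have hts : ∀ W : Submodule F V, MinusType Q m W → ∀ Z ≤ W, (∀ x ∈ Z, S.Q x = 0) →
      finrank F Z ≠ k := by
    intro W hW Z hZ hZQ h3
    have := hW.2.2 Z hZ (fun x hx => by rw [← hSQ]; exact hZQ x hx)
    omega
  have horth : ∀ x ∈ U, ∀ y ∈ U', S.B x y = 0 := by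
    intro x hx y hy
    rw [Bsymm, hSB]
    rw [hU'e] at hy
    exact hy x hx
  obtain ⟨ν, hν⟩ := exists_nonsq h2
  have hν0 : ν ≠ 0 := fun h => hν (h ▸ IsSquare.zero)
  obtain ⟨K, _, _, _, hK⟩ := exists_ext F n (by omega)
  obtain ⟨a, ha, Φ, hΦ, hΦU, hΦU'⟩ := exists_model' h2 S (n := n) (k := k) (by omega) hnk
    (by rw [hV, hn]) U U' (nd U hU) (nd U' hU') horth (by rw [hU.1, hn]) (by rw [hU'.1, hn])
    (hts U hU) (hts U' hU') hK hν hν0
  have hneg := neg_mem h2 S (n := n) (k := k) hnk (by rw [hV, hn]) U U' (nd U hU) (nd U' hU')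
    horth (by rw [hU.1, hn]) (by rw [hU'.1, hn]) (hts U hU) (hts U' hU')
  obtain ⟨T, hT⟩ : ∃ T, T = mdl (K := K) h2 ν a hν0 ha := ⟨_, rfl⟩
  have hΦ' : ∀ v, T.Q (Φ.symm v) = S.Q v := by
    intro v
    rw [hT, ← hΦ, LinearEquiv.apply_symm_apply]
  have hnegT : LinearEquiv.neg F ∈ T.Om := by
    have h3 := cj_mem_Om T S Φ.symm hΦ' hneg
    have h4 : cj Φ.symm (LinearEquiv.neg F) = LinearEquiv.neg F := by
      apply LinearEquiv.ext
      intro v
      rw [cj_apply, LinearEquiv.neg_apply, map_neg, LinearEquiv.apply_symm_apply,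
        LinearEquiv.neg_apply]
    rwa [h4] at h3
  rw [hT] at hnegT
  obtain ⟨g₀, hg₀, H⟩ := model_final h2 hν0 ha hν (by
    rw [hK, Nat.odd_iff]; omega) (by rw [hK]; omega) hnegT
  rw [← hT] at hg₀ H
  have hcc : ∀ x, cj Φ.symm (cj Φ x) = x := by
    intro x
    apply LinearEquiv.ext
    intro v
    rw [cj_apply, cj_apply, LinearEquiv.symm_symm, LinearEquiv.symm_apply_apply,
      LinearEquiv.symm_apply_apply]
  refine ⟨cj Φ g₀, ?_, ?_⟩
  · rw [hOm]
    exact cj_mem_Om S T Φ (fun w => by rw [hΦ, hT]) hg₀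
  intro h hh hp1 hp2
  rw [hOm] at hh
  -- the involution
  obtain ⟨J, hJ⟩ : ∃ J, J = cj Φ jj := ⟨_, rfl⟩
  have hdec : ∀ v, ∃ u ∈ U, ∃ u' ∈ U', v = u + u' := by
    intro v
    obtain ⟨⟨x, y, z, w⟩, rfl⟩ := Φ.surjective v
    refine ⟨_, hΦU x z, _, hΦU' y w, ?_⟩
    rw [← map_add]
    simp
  have hJU : ∀ u ∈ U, J u = u := by
    intro u hu
    obtain ⟨⟨x, y, z, w⟩, rfl⟩ := Φ.surjective u
    have h3 : Φ (x, y, z, w) = Φ (x, 0, z, 0) + Φ (0, y, 0, w) := by
      rw [← map_add]; simp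
    have h4 : Φ (0, y, 0, w) ∈ U ⊓ perp S U := by
      refine ⟨?_, ?_⟩
      · have h5 := U.sub_mem hu (hΦU x z)
        rwa [h3, add_sub_cancel_left] at h5
      · intro t ht
        rw [Bsymm]
        exact horth t ht _ (hΦU' y w)
    rw [nd U hU, Submodule.mem_bot] at h4
    have h5 := Φ.injective (h4.trans (map_zero Φ).symm)
    have h6 : y = 0 := congrArg (fun u => u.2.1) h5
    have h7 : w = 0 := congrArg (fun u => u.2.2.2) h5
    rw [hJ, cj_apply, LinearEquiv.symm_apply_apply, jj_apply, h6, h7]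
    simp
  have hJU' : ∀ u ∈ U', J u = -u := by
    intro u hu
    obtain ⟨⟨x, y, z, w⟩, rfl⟩ := Φ.surjective u
    have h3 : Φ (x, y, z, w) = Φ (x, 0, z, 0) + Φ (0, y, 0, w) := by
      rw [← map_add]; simp
    have h4 : Φ (x, 0, z, 0) ∈ U' ⊓ perp S U' := by
      refine ⟨?_, ?_⟩
      · have h5 := U'.sub_mem hu (hΦU' y w)
        rwa [h3, add_sub_cancel_right] at h5
      · intro t ht
        exact horth _ (hΦU x z) t ht
    rw [nd U' hU', Submodule.mem_bot] at h4
    have h5 := Φ.injective (h4.trans (map_zero Φ).symm)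
    have h6 : x = 0 := congrArg (fun u => u.1) h5
    have h7 : z = 0 := congrArg (fun u => u.2.2.1) h5
    rw [hJ, cj_apply, LinearEquiv.symm_apply_apply, jj_apply, h6, h7, ← map_neg]
    simp
  obtain ⟨ε, hε, e1⟩ := perm_sign hdec hJU hJU' hp1
  obtain ⟨ε', hε', e2⟩ := perm_sign hdec hJU hJU' hp2
  obtain ⟨h₀, hh₀⟩ : ∃ h₀, h₀ = cj Φ.symm h := ⟨_, rfl⟩
  have hh₀m : h₀ ∈ T.Om := by
    rw [hh₀]
    exact cj_mem_Om T S Φ.symm hΦ' hh
  -- transfer of the two relations
  have hmain : ∀ (t : V ≃ₗ[F] V) (δ : F), (∀ v, t (J v) = δ • J (t v)) →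
      ∀ v, cj Φ.symm t (jj v) = δ • jj (cj Φ.symm t v) := by
    intro t δ ht v
    have h3 := ht (Φ v)
    rw [hJ, cj_apply, cj_apply, LinearEquiv.symm_apply_apply] at h3
    rw [cj_apply, cj_apply, LinearEquiv.symm_symm, h3, map_smul, LinearEquiv.symm_apply_apply]
  have f1 := hmain h ε e1
  have f2 := hmain _ ε' e2
  rw [map_mul, map_mul, map_inv, hcc] at f2
  rw [← hh₀] at f1 f2
  have f3 : ∀ v, h₀ (g₀ (jj (g₀⁻¹ v))) = ε' • g₀ (jj (g₀⁻¹ (h₀ v))) := by
    intro v
    have h3 := f2 (g₀⁻¹ v)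
    rw [mul_apply', mul_apply', mul_apply', mul_apply', apply_inv_self'] at h3
    have h4 := congrArg g₀ h3
    rwa [apply_inv_self', map_smul] at h4
  have hback : ∀ v, h v = Φ (h₀ (Φ.symm v)) := by
    intro v
    rw [hh₀, cj_apply, LinearEquiv.symm_symm, LinearEquiv.apply_symm_apply,
      LinearEquiv.apply_symm_apply]
  rcases H h₀ hh₀m ε ε' hε hε' f1 f3 with h3 | h3
  · refine ⟨1, fun x => ?_⟩
    rw [hback, h3, LinearEquiv.apply_symm_apply, one_smul]
  · refine ⟨-1, fun x => ?_⟩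
    rw [hback, h3, map_neg, LinearEquiv.apply_symm_apply, neg_one_smul]

/-- scalars permute any pair -/
theorem permutes_scalar [Nontrivial V] (U U' : Submodule F V) {g : V ≃ₗ[F] V}
    (hg : ActsScalar g) : Permutes U U' g :=
  Or.inl ⟨scalar_le_stab U hg, scalar_le_stab U' hg⟩

theorem mem_decompImage {Q : QuadraticForm F V} {U : Submodule F V} [Nontrivial V]
    (x : Omega Q) : (QuotientGroup.mk x : POmega Q) ∈ decompImage Q U ↔
      Permutes U (orth Q U) x.1 := by
  constructor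
  · rintro ⟨y, hy, hyx⟩
    have h1 : (QuotientGroup.mk y : POmega Q) = QuotientGroup.mk x := hyx
    rw [QuotientGroup.eq] at h1
    have h3 : x = y * (y⁻¹ * x) := by group
    rw [h3]
    exact Permutes.mul hy (permutes_scalar _ _ h1)
  · intro h
    exact ⟨x, h, rfl⟩

theorem odd_base [Finite F] (h2 : (2 : F) ≠ 0) (m : ℕ) (hm : 4 ≤ m) (hme : Even m)
    (hV : finrank F V = 2 * m) (Q : QuadraticForm F V) (hQ : Nondeg Q) (U : Submodule F V)
    (hU : MinusType Q m U) (hU' : MinusType Q m (orth Q U)) :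
    baseSize (POmega Q) (decompImage Q U) = 2 := by
  haveI : FiniteDimensional F V := Module.finite_of_finrank_pos (by omega)
  haveI : Nontrivial V := Module.nontrivial_of_finrank_pos (R := F) (by omega)
  apply le_antisymm
  · obtain ⟨g, hg, H⟩ := odd_pair h2 m hm hme hV Q hQ U hU hU'
    apply baseSize_le_two _ (QuotientGroup.mk (⟨g, hg⟩ : Omega Q))
    intro x hx hgx
    induction x using QuotientGroup.induction_on with
    | H x =>
      have h1 := (mem_decompImage x).1 hx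
      have h3 := (mem_decompImage ((⟨g, hg⟩ : Omega Q)⁻¹ * x * ⟨g, hg⟩)).1 hgx
      have h4 := H x.1 x.2 h1 h3
      rw [QuotientGroup.eq_one_iff]
      exact h4
  · obtain ⟨h, hh, hns, hfix⟩ := exists_fix (toQSp Q hQ) h2 (by omega) (W := U)
      (by rw [hU.1]; omega)
    have h1 : Permutes U (orth Q U) h := by
      have a1 : ∀ x ∈ orth Q U, h x ∈ orth Q U := by
        intro x hx
        rw [hfix x hx]
        exact hx
      have a2 : ∀ x ∈ U, h x ∈ U := by
        intro x hx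
        have h3 : U = perp (toQSp Q hQ) (perp (toQSp Q hQ) U) := (perp_perp _ U).symm
        rw [h3]
        intro w hw
        rw [← hfix w hw, (toQSp Q hQ).O_B ((toQSp Q hQ).Om_le hh), Bsymm]
        exact hw x hx
      exact Or.inl ⟨mem_stab_of a2, mem_stab_of a1⟩
    refine two_le_baseSize _ (x := QuotientGroup.mk (⟨h, hh⟩ : Omega Q))
      ((mem_decompImage _).2 h1) ?_
    intro h3
    rw [QuotientGroup.eq_one_iff] at h3
    exact hns h3

/-- scalars are trivial in characteristic two -/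
theorem scalar_even [CharP F 2] [Nontrivial V] (Q : QuadraticForm F V) (hQ : Nondeg Q)
    {g : V ≃ₗ[F] V} (hg : g ∈ Omega Q) (hs : ActsScalar g) : g = 1 := by
  obtain ⟨c, hc⟩ := hs
  have hgO : ∀ x, Q (g x) = Q x := fun x => (toQSp Q hQ).Om_le hg x
  have hne : ∃ x, Q x ≠ 0 := by
    by_contra hcon
    push Not at hcon
    obtain ⟨y, hy⟩ := exists_ne (0 : V)
    apply hy
    apply hQ
    intro z
    rw [QuadraticMap.polar, hcon, hcon, hcon]; ring
  obtain ⟨x, hx⟩ := hne
  have h1 := hgO x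
  rw [hc, QuadraticMap.map_smul, smul_eq_mul] at h1
  have h2 : (c - 1) ^ 2 * Q x = 0 := by
    linear_combination (norm := (ring_nf; reduce_mod_char!)) h1
  have h3 : c = 1 := by
    rcases mul_eq_zero.1 h2 with h4 | h4
    · exact sub_eq_zero.1 ((pow_eq_zero_iff two_ne_zero).1 h4)
    · exact absurd h4 hx
  apply LinearEquiv.ext
  intro y
  rw [hc, h3, one_smul]; rfl

theorem even_base [Finite F] [CharP F 2] (m : ℕ) (hm : 4 ≤ m) (hme : Even m)
    (hV : finrank F V = 2 * m) (Q : QuadraticForm F V) (hQ : Nondeg Q) (U : Submodule F V)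
    (hU : MinusType Q m U) (hU' : MinusType Q m (orth Q U)) :
    3 ≤ baseSize (POmega Q) (decompImage Q U) := by
  haveI : FiniteDimensional F V := Module.finite_of_finrank_pos (by omega)
  haveI : Nontrivial V := Module.nontrivial_of_finrank_pos (R := F) (by omega)
  obtain ⟨S, hS⟩ : ∃ S, S = toQSp Q hQ := ⟨_, rfl⟩
  have hSQ : ∀ x, S.Q x = Q x := fun x => by rw [hS]; rfl
  have hSB : ∀ x y, S.B x y = QuadraticMap.polar Q x y := fun x y => by rw [hS]; rfl
  have hOm : Omega Q = S.Om := by rw [hS]; rfl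
  have hP : S.perp U = orth Q U := by rw [hS]; rfl
  have nd : ∀ W : Submodule F V, MinusType Q m W → W ⊓ S.perp W = ⊥ := by
    intro W hW
    rw [eq_bot_iff]
    rintro x ⟨hx, hx'⟩
    rw [Submodule.mem_bot]
    apply hW.2.1 x hx
    intro y hy
    rw [← hSB]
    exact hx' y hy
  have nh : ∀ (W : Submodule F V) (hW : MinusType Q m W), ¬ Half (S.sub W (nd W hW)) := by
    rintro W hW ⟨Z, hZ, hZd⟩
    have h1 := hW.2.2 (Z.map W.subtype) (Submodule.map_subtype_le W Z) (by
      rintro _ ⟨z, hz, rfl⟩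
      rw [← hSQ]
      exact hZ z hz)
    rw [Submodule.finrank_map_subtype_eq, hZd, hW.1] at h1
    exact lt_irrefl _ h1
  rw [← hP] at hU'
  apply three_le_baseSize
  intro a b
  induction a using QuotientGroup.induction_on with
  | H a =>
    induction b using QuotientGroup.induction_on with
    | H b =>
      obtain ⟨g, hg⟩ : ∃ g, g = a⁻¹ * b := ⟨_, rfl⟩
      have hgO : g.1 ∈ S.O := S.Om_le (by rw [← hOm]; exact g.2)
      obtain ⟨h, hh, h1, p1, p2, p3, p4⟩ := split_stab S (by omega) hgO U (nd U hU)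
        (nd _ hU') (nh U hU) (nh _ hU')
      rw [hP] at p2 p4
      rw [← hOm] at hh
      refine ⟨QuotientGroup.mk (a * ⟨h, hh⟩ * a⁻¹), ?_, ?_, ?_⟩
      · intro h3
        rw [QuotientGroup.eq_one_iff] at h3
        have h5 : a * (⟨h, hh⟩ : Omega Q) * a⁻¹ = 1 :=
          Subtype.ext (scalar_even Q hQ (a * (⟨h, hh⟩ : Omega Q) * a⁻¹).2 h3)
        apply h1
        have h6 : (⟨h, hh⟩ : Omega Q) = a⁻¹ * (a * ⟨h, hh⟩ * a⁻¹) * a := by group
        rw [h5] at h6
        have h7 : (⟨h, hh⟩ : Omega Q) = 1 := by rw [h6]; group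
        exact congrArg Subtype.val h7
      · have h3 : a⁻¹ * (a * (⟨h, hh⟩ : Omega Q) * a⁻¹) * a = ⟨h, hh⟩ := by group
        have h4 := (mem_decompImage (Q := Q) (U := U)
          (a⁻¹ * (a * (⟨h, hh⟩ : Omega Q) * a⁻¹) * a)).2 (by
          rw [h3]
          exact Or.inl ⟨mem_stab_of p1, mem_stab_of p2⟩)
        exact h4
      · have h3 : b⁻¹ * (a * (⟨h, hh⟩ : Omega Q) * a⁻¹) * b = g⁻¹ * ⟨h, hh⟩ * g := by
          rw [hg]; group
        have h4 := (mem_decompImage (Q := Q) (U := U)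
          (b⁻¹ * (a * (⟨h, hh⟩ : Omega Q) * a⁻¹) * b)).2 (by
          rw [h3]
          have q1 : ∀ x ∈ U, (g.1⁻¹ * h * g.1) x ∈ U := p3
          have q2 : ∀ x ∈ orth Q U, (g.1⁻¹ * h * g.1) x ∈ orth Q U := p4
          exact Or.inl ⟨mem_stab_of q1, mem_stab_of q2⟩)
        exact h4

end

end Pool.Agent.H8Base
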