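import Mathlib
import Pool.Agent.H8Base.Final
import Pool.Agent.H8Base.EvenModel

set_option autoImplicit false
set_option linter.unusedSectionVars false
set_option linter.unusedVariables false
set_option linter.style.haveILetI false
set_option linter.unusedSimpArgs false
set_option linter.unnecessarySeqFocus false

/-! The base size in characteristic two. -/

namespace Pool.Agent.H8Base

open Module Pool.Agent.OmegaEven Pool.Agent.OmegaOdd Pool.Agent.OmegaPlus

theorem baseSize_le_three {G : Type*} [Group G] (H : Subgroup G) (g g' : G)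
    (h : ∀ x ∈ H, g⁻¹ * x * g ∈ H → g'⁻¹ * x * g' ∈ H → x = 1) : baseSize G H ≤ 3 := by
  rw [baseSize]
  refine (iInf₂_le ({QuotientGroup.mk 1, QuotientGroup.mk g, QuotientGroup.mk g'} :
    Set (G ⧸ H)) ?_).trans ?_
  · intro x hx
    have h1 := (smul_coset H x 1).1 (hx _ (by simp))
    have h2 := (smul_coset H x g).1 (hx _ (by simp))
    have h3 := (smul_coset H x g').1 (hx _ (by simp))
    rw [inv_one, one_mul, mul_one] at h1
    exact h x h1 h2 h3
  · refine (Set.encard_insert_le _ _).trans ?_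
    have h1 : (({QuotientGroup.mk g, QuotientGroup.mk g'} : Set (G ⧸ H)).encard) ≤ 2 :=
      pair_encard_le _ _
    calc _ ≤ (2 : ℕ∞) + 1 := by gcongr
      _ = 3 := by norm_num

section
variable {F V : Type*} [Field F] [AddCommGroup V] [Module F V]

/-- three decompositions with trivial joint stabiliser -/
theorem even_three [Finite F] [CharP F 2] (m : ℕ) (hm : 4 ≤ m) (hme : Even m)
    (hV : finrank F V = 2 * m) (Q : QuadraticForm F V) (hQ : Nondeg Q) (U : Submodule F V)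
    (hU : MinusType Q m U) (hU' : MinusType Q m (orth Q U)) :
    ∃ g₁ ∈ Omega Q, ∃ g₂ ∈ Omega Q, ∀ h ∈ Omega Q, Permutes U (orth Q U) h →
      Permutes U (orth Q U) (g₁⁻¹ * h * g₁) → Permutes U (orth Q U) (g₂⁻¹ * h * g₂) →
      h = 1 := by
  haveI : FiniteDimensional F V := Module.finite_of_finrank_pos (by omega)
  haveI : Nontrivial V := Module.nontrivial_of_finrank_pos (R := F) (by omega)
  obtain ⟨S, hS⟩ : ∃ S, S = toQSp Q hQ := ⟨_, rfl⟩
  have hSQ : ∀ x, S.Q x = Q x := fun x => by rw [hS]; rfl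
  have hSB : ∀ x y, S.B x y = QuadraticMap.polar Q x y := fun x y => by rw [hS]; rfl
  have hOm : Omega Q = S.Om := by rw [hS]; rfl
  have nd : ∀ W : Submodule F V, MinusType Q m W → W ⊓ S.perp W = ⊥ := by
    intro W hW
    rw [eq_bot_iff]
    rintro x ⟨hx, hx'⟩
    rw [Submodule.mem_bot]
    apply hW.2.1 x hx
    intro y hy
    rw [← hSB]
    exact hx' y hy
  have nh : ∀ (W : Submodule F V) (hW : MinusType Q m W), ¬ Half (S.sub W (nd W hW)) := by
    rintro W hW ⟨Z, hZ, hZd⟩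
    have h1 := hW.2.2 (Z.map W.subtype) (Submodule.map_subtype_le W Z) (by
      rintro _ ⟨z, hz, rfl⟩
      rw [← hSQ]
      exact hZ z hz)
    rw [Submodule.finrank_map_subtype_eq, hZd, hW.1] at h1
    exact lt_irrefl _ h1
  obtain ⟨U', hU'e⟩ : ∃ U', U' = orth Q U := ⟨_, rfl⟩
  rw [← hU'e] at hU' ⊢
  have horth : ∀ x ∈ U, ∀ y ∈ U', S.B x y = 0 := by
    intro x hx y hy
    rw [S.symm, hSB]
    rw [hU'e] at hy
    exact hy x hx
  obtain ⟨k, hk⟩ := hme
  obtain ⟨K, _, _, _, hK⟩ := exists_ext F k (by omega)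
  obtain ⟨S₀, hS₀, g₁, hg₁, g₂, hg₂, H⟩ := model3 (F := F) (K := K) (by omega)
  have hXF : finrank F (K × K) = 2 * k := by
    rw [Module.finrank_prod, hK]; ring
  haveI : FiniteDimensional F (K × K) := Module.finite_of_finrank_pos (by omega)
  obtain ⟨φ, hφ⟩ := iso_minus k (K × K) U S₀ (S.sub U (nd U hU)) hXF (by rw [hU.1, hk]; ring)
    hS₀ (nh U hU)
  obtain ⟨φ', hφ'⟩ := iso_minus k (K × K) U' S₀ (S.sub U' (nd U' hU')) hXF
    (by rw [hU'.1, hk]; ring) hS₀ (nh U' hU')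
  have iφ : Function.Injective φ := isom_inj (S := S₀) (T := S.sub U (nd U hU)) hφ
  have iφ' : Function.Injective φ' := isom_inj (S := S₀) (T := S.sub U' (nd U' hU')) hφ'
  have qφ : ∀ x, S.Q (φ x).1 = S₀.Q x := hφ
  have qφ' : ∀ x, S.Q (φ' x).1 = S₀.Q x := hφ'
  let Φ₀ : ((K × K) × (K × K)) →ₗ[F] V := (U.subtype ∘ₗ φ).coprod (U'.subtype ∘ₗ φ')
  have hΦ₀ : ∀ v, Φ₀ v = (φ v.1).1 + (φ' v.2).1 := fun v => rfl
  have hΦQ : ∀ v, S.Q (Φ₀ v) = (dbl S₀).Q v := by
    intro v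
    rw [hΦ₀, S.add, qφ, qφ', horth _ (φ v.1).2 _ (φ' v.2).2, add_zero]
    rfl
  have hinj : Function.Injective Φ₀ := isom_inj hΦQ
  have hfr : finrank F ((K × K) × (K × K)) = finrank F V := by
    rw [Module.finrank_prod, hXF, hV, hk]; ring
  let Φ : ((K × K) × (K × K)) ≃ₗ[F] V := LinearEquiv.ofBijective Φ₀ ⟨hinj,
    (LinearMap.injective_iff_surjective_of_finrank_eq_finrank hfr).1 hinj⟩
  have hΦ : ∀ v, Φ v = (φ v.1).1 + (φ' v.2).1 := fun v => rfl
  have hΦQ' : ∀ v, S.Q (Φ v) = (dbl S₀).Q v := hΦQ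
  have hmU : ∀ v, Φ v ∈ U ↔ v ∈ LinearMap.ker (LinearMap.snd F (K × K) (K × K)) := by
    intro v
    rw [LinearMap.mem_ker, LinearMap.snd_apply]
    constructor
    · intro h
      rw [hΦ] at h
      have h1 : (φ' v.2).1 ∈ U := by
        have := U.sub_mem h (φ v.1).2
        rwa [add_sub_cancel_left] at this
      have h2 : (φ' v.2).1 ∈ U ⊓ S.perp U :=
        ⟨h1, fun w hw => by rw [S.symm]; exact horth w hw _ (φ' v.2).2⟩
      rw [nd U hU, Submodule.mem_bot] at h2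
      exact iφ' ((Subtype.ext h2 : φ' v.2 = 0).trans (map_zero φ').symm)
    · intro h
      rw [hΦ, h, map_zero, Submodule.coe_zero, add_zero]
      exact (φ v.1).2
  have hmU' : ∀ v, Φ v ∈ U' ↔ v ∈ LinearMap.ker (LinearMap.fst F (K × K) (K × K)) := by
    intro v
    rw [LinearMap.mem_ker, LinearMap.fst_apply]
    constructor
    · intro h
      rw [hΦ] at h
      have h1 : (φ v.1).1 ∈ U' := by
        have := U'.sub_mem h (φ' v.2).2
        rwa [add_sub_cancel_right] at this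
      have h2 : (φ v.1).1 ∈ U' ⊓ S.perp U' :=
        ⟨h1, fun w hw => horth _ (φ v.1).2 w hw⟩
      rw [nd U' hU', Submodule.mem_bot] at h2
      exact iφ ((Subtype.ext h2 : φ v.1 = 0).trans (map_zero φ).symm)
    · intro h
      rw [hΦ, h, map_zero, Submodule.coe_zero, zero_add]
      exact (φ' v.2).2
  have hperm : ∀ t : V ≃ₗ[F] V, Permutes U U' t →
      Permutes (LinearMap.ker (LinearMap.snd F (K × K) (K × K)))
        (LinearMap.ker (LinearMap.fst F (K × K) (K × K))) (cj Φ.symm t) := by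
    intro t ht
    have e : ∀ v, Φ (cj Φ.symm t v) = t (Φ v) := by
      intro v
      rw [cj_apply, LinearEquiv.apply_symm_apply, LinearEquiv.symm_symm]
    rcases ht with ⟨a1, a2⟩ | ⟨a1, a2⟩
    · exact Or.inl ⟨fun v => by rw [← hmU, ← hmU, e, a1], fun v => by rw [← hmU', ← hmU', e, a2]⟩
    · exact Or.inr ⟨fun v => by rw [← hmU, ← hmU', e, a1], fun v => by rw [← hmU', ← hmU, e, a2]⟩
  have hcc : ∀ x, cj Φ.symm (cj Φ x) = x := by
    intro x
    apply LinearEquiv.ext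
    intro v
    rw [cj_apply, cj_apply, LinearEquiv.symm_symm, LinearEquiv.symm_apply_apply,
      LinearEquiv.symm_apply_apply]
  have hΦ' : ∀ v, (dbl S₀).Q (Φ.symm v) = S.Q v := by
    intro v
    rw [← hΦQ', LinearEquiv.apply_symm_apply]
  refine ⟨cj Φ g₁, ?_, cj Φ g₂, ?_, ?_⟩
  · rw [hOm]
    exact cj_mem_Om S (dbl S₀) Φ hΦQ' hg₁
  · rw [hOm]
    exact cj_mem_Om S (dbl S₀) Φ hΦQ' hg₂
  intro h hh p1 p2 p3
  rw [hOm] at hh
  have c1 := hperm _ p1
  have c2 := hperm _ p2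
  have c3 := hperm _ p3
  rw [map_mul, map_mul, map_inv, hcc] at c2 c3
  have h0 := H _ ((dbl S₀).Om_le (cj_mem_Om (dbl S₀) S Φ.symm hΦ' hh)) c1 c2 c3
  apply LinearEquiv.ext
  intro v
  have e : Φ (cj Φ.symm h (Φ.symm v)) = h v := by
    rw [cj_apply, LinearEquiv.symm_symm, LinearEquiv.apply_symm_apply,
      LinearEquiv.apply_symm_apply]
  rw [← e, h0]
  exact Φ.apply_symm_apply v

theorem even_exact [Finite F] [CharP F 2] (m : ℕ) (hm : 4 ≤ m) (hme : Even m)
    (hV : finrank F V = 2 * m) (Q : QuadraticForm F V) (hQ : Nondeg Q) (U : Submodule F V)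
    (hU : MinusType Q m U) (hU' : MinusType Q m (orth Q U)) :
    baseSize (POmega Q) (decompImage Q U) = 3 := by
  haveI : Nontrivial V := Module.nontrivial_of_finrank_pos (R := F) (by omega)
  apply le_antisymm ?_ (even_base m hm hme hV Q hQ U hU hU')
  obtain ⟨g₁, hg₁, g₂, hg₂, H⟩ := even_three m hm hme hV Q hQ U hU hU'
  apply baseSize_le_three _ (QuotientGroup.mk (⟨g₁, hg₁⟩ : Omega Q))
    (QuotientGroup.mk (⟨g₂, hg₂⟩ : Omega Q))
  intro x hx h1 h2
  induction x using QuotientGroup.induction_on with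
  | H x =>
    have p1 := (mem_decompImage x).1 hx
    have p2 := (mem_decompImage ((⟨g₁, hg₁⟩ : Omega Q)⁻¹ * x * ⟨g₁, hg₁⟩)).1 h1
    have p3 := (mem_decompImage ((⟨g₂, hg₂⟩ : Omega Q)⁻¹ * x * ⟨g₂, hg₂⟩)).1 h2
    have h3 : x = 1 := Subtype.ext (H x.1 x.2 p1 p2 p3)
    rw [h3]; rfl

end

end Pool.Agent.H8Base
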